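import Pool.Agent.Lib.MP_172a45_an.LP.Chain
import Pool.Agent.Lib.MP_172a45_an.LP.Y_6_6_539_548
import Pool.Agent.Lib.MP_172a45_an.LP.Y_6_6_548_558
import Pool.Agent.Lib.MP_172a45_an.LP.Y_7_7_539_558
import Pool.Agent.Lib.MP_172a45_an.LP.Y_7_7_558_581
import Pool.Agent.Lib.MP_172a45_an.LP.Y_7_7_581_604
import Pool.Agent.Lib.MP_172a45_an.LP.Y_8_8_539_581
import Pool.Agent.Lib.MP_172a45_an.LP.Y_8_8_581_626
import Pool.Agent.Lib.MP_172a45_an.LP.Y_9_9_539_581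
import Pool.Agent.Lib.MP_172a45_an.LP.Y_9_9_581_626
import Pool.Agent.Lib.MP_172a45_an.LP.Y_9_9_626_680
import Pool.Agent.Lib.MP_172a45_an.LP.Y_10_10_539_581
import Pool.Agent.Lib.MP_172a45_an.LP.Y_10_10_581_650
import Pool.Agent.Lib.MP_172a45_an.LP.Y_10_10_650_716
import Pool.Agent.Lib.MP_172a45_an.LP.Y_11_11_539_581
import Pool.Agent.Lib.MP_172a45_an.LP.Y_11_11_581_650
import Pool.Agent.Lib.MP_172a45_an.LP.Y_11_11_650_716
import Pool.Agent.Lib.MP_172a45_an.LP.Y_12_13_539_604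
import Pool.Agent.Lib.MP_172a45_an.LP.Y_12_13_604_716
import Pool.Agent.Lib.MP_172a45_an.LP.Y_12_13_716_781
import Pool.Agent.Lib.MP_172a45_an.LP.Y_14_15_539_604
import Pool.Agent.Lib.MP_172a45_an.LP.Y_14_15_604_716
import Pool.Agent.Lib.MP_172a45_an.LP.Y_14_15_716_781
import Pool.Agent.Lib.MP_172a45_an.LP.Y_16_18_539_604
import Pool.Agent.Lib.MP_172a45_an.LP.Y_16_18_604_716
import Pool.Agent.Lib.MP_172a45_an.LP.Y_16_18_716_830
import Pool.Agent.Lib.MP_172a45_an.LP.Y_19_22_539_604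
import Pool.Agent.Lib.MP_172a45_an.LP.Y_19_22_604_716
import Pool.Agent.Lib.MP_172a45_an.LP.Y_19_22_716_830
import Pool.Agent.Lib.MP_172a45_an.LP.Y_23_27_539_604
import Pool.Agent.Lib.MP_172a45_an.LP.Y_23_27_604_830
import Pool.Agent.Lib.MP_172a45_an.LP.Y_28_33_539_604
import Pool.Agent.Lib.MP_172a45_an.LP.Y_28_33_604_830
import Pool.Agent.Lib.MP_172a45_an.LP.Y_34_40_539_604
import Pool.Agent.Lib.MP_172a45_an.LP.Y_34_40_604_830
import Pool.Agent.Lib.MP_172a45_an.LP.Y_41_49_539_604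
import Pool.Agent.Lib.MP_172a45_an.LP.Y_41_49_604_830
import Pool.Agent.Lib.MP_172a45_an.LP.Y_50_59_539_604
import Pool.Agent.Lib.MP_172a45_an.LP.Y_50_59_604_830
import Pool.Agent.Lib.MP_172a45_an.LP.Y_60_71_539_604
import Pool.Agent.Lib.MP_172a45_an.LP.Y_60_71_604_830
import Pool.Agent.Lib.MP_172a45_an.LP.Y_72_85_539_604
import Pool.Agent.Lib.MP_172a45_an.LP.Y_72_85_604_830
import Pool.Agent.Lib.MP_172a45_an.LP.Y_86_99_539_604
import Pool.Agent.Lib.MP_172a45_an.LP.Y_86_99_604_830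

set_option autoImplicit false

/-!
# No admissible data for `6 ≤ N ≤ 99` and moderate `Δ` (from the certificates `Y_*`)
-/

namespace Pool.Agent.Lib.MP_172a45_an.LP

open Finset Real Pool.Agent.Lib.MP_172a45_an.F

variable {a Δ : ℝ}

theorem y6 {y X : Fin 6 → ℝ} (h : FV 6 a Δ y X) (h0 : va (lk 539) - 8 ≤ Δ)
    (g : Δ ≤ va (lk 558) - 8) : False := by
  rcases le_total Δ (va (lk 548) - 8) with g1 | h1
  · exact cov_false Y_6_6_539_548.ds_ok Y_6_6_539_548.c6 h h0 g1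
  exact cov_false Y_6_6_548_558.ds_ok Y_6_6_548_558.c6 h h1 g

theorem y7 {y X : Fin 7 → ℝ} (h : FV 7 a Δ y X) (h0 : va (lk 539) - 8 ≤ Δ)
    (g : Δ ≤ va (lk 604) - 8) : False := by
  rcases le_total Δ (va (lk 558) - 8) with g1 | h1
  · exact cov_false Y_7_7_539_558.ds_ok Y_7_7_539_558.c7 h h0 g1
  rcases le_total Δ (va (lk 581) - 8) with g2 | h2
  · exact cov_false Y_7_7_558_581.ds_ok Y_7_7_558_581.c7 h h1 g2
  exact cov_false Y_7_7_581_604.ds_ok Y_7_7_581_604.c7 h h2 g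

theorem y8 {y X : Fin 8 → ℝ} (h : FV 8 a Δ y X) (h0 : va (lk 539) - 8 ≤ Δ)
    (g : Δ ≤ va (lk 626) - 8) : False := by
  rcases le_total Δ (va (lk 581) - 8) with g1 | h1
  · exact cov_false Y_8_8_539_581.ds_ok Y_8_8_539_581.c8 h h0 g1
  exact cov_false Y_8_8_581_626.ds_ok Y_8_8_581_626.c8 h h1 g

theorem y9 {y X : Fin 9 → ℝ} (h : FV 9 a Δ y X) (h0 : va (lk 539) - 8 ≤ Δ)
    (g : Δ ≤ va (lk 680) - 8) : False := by
  rcases le_total Δ (va (lk 581) - 8) with g1 | h1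
  · exact cov_false Y_9_9_539_581.ds_ok Y_9_9_539_581.c9 h h0 g1
  rcases le_total Δ (va (lk 626) - 8) with g2 | h2
  · exact cov_false Y_9_9_581_626.ds_ok Y_9_9_581_626.c9 h h1 g2
  exact cov_false Y_9_9_626_680.ds_ok Y_9_9_626_680.c9 h h2 g

theorem y10 {y X : Fin 10 → ℝ} (h : FV 10 a Δ y X) (h0 : va (lk 539) - 8 ≤ Δ)
    (g : Δ ≤ va (lk 716) - 8) : False := by
  rcases le_total Δ (va (lk 581) - 8) with g1 | h1
  · exact cov_false Y_10_10_539_581.ds_ok Y_10_10_539_581.c10 h h0 g1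
  rcases le_total Δ (va (lk 650) - 8) with g2 | h2
  · exact cov_false Y_10_10_581_650.ds_ok Y_10_10_581_650.c10 h h1 g2
  exact cov_false Y_10_10_650_716.ds_ok Y_10_10_650_716.c10 h h2 g

theorem y11 {y X : Fin 11 → ℝ} (h : FV 11 a Δ y X) (h0 : va (lk 539) - 8 ≤ Δ)
    (g : Δ ≤ va (lk 716) - 8) : False := by
  rcases le_total Δ (va (lk 581) - 8) with g1 | h1
  · exact cov_false Y_11_11_539_581.ds_ok Y_11_11_539_581.c11 h h0 g1
  rcases le_total Δ (va (lk 650) - 8) with g2 | h2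
  · exact cov_false Y_11_11_581_650.ds_ok Y_11_11_581_650.c11 h h1 g2
  exact cov_false Y_11_11_650_716.ds_ok Y_11_11_650_716.c11 h h2 g

theorem y12 {y X : Fin 12 → ℝ} (h : FV 12 a Δ y X) (h0 : va (lk 539) - 8 ≤ Δ)
    (g : Δ ≤ va (lk 781) - 8) : False := by
  rcases le_total Δ (va (lk 604) - 8) with g1 | h1
  · exact cov_false Y_12_13_539_604.ds_ok Y_12_13_539_604.c12 h h0 g1
  rcases le_total Δ (va (lk 716) - 8) with g2 | h2
  · exact cov_false Y_12_13_604_716.ds_ok Y_12_13_604_716.c12 h h1 g2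
  exact cov_false Y_12_13_716_781.ds_ok Y_12_13_716_781.c12 h h2 g

theorem y13 {y X : Fin 13 → ℝ} (h : FV 13 a Δ y X) (h0 : va (lk 539) - 8 ≤ Δ)
    (g : Δ ≤ va (lk 781) - 8) : False := by
  rcases le_total Δ (va (lk 604) - 8) with g1 | h1
  · exact cov_false Y_12_13_539_604.ds_ok Y_12_13_539_604.c13 h h0 g1
  rcases le_total Δ (va (lk 716) - 8) with g2 | h2
  · exact cov_false Y_12_13_604_716.ds_ok Y_12_13_604_716.c13 h h1 g2
  exact cov_false Y_12_13_716_781.ds_ok Y_12_13_716_781.c13 h h2 g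

theorem y14 {y X : Fin 14 → ℝ} (h : FV 14 a Δ y X) (h0 : va (lk 539) - 8 ≤ Δ)
    (g : Δ ≤ va (lk 781) - 8) : False := by
  rcases le_total Δ (va (lk 604) - 8) with g1 | h1
  · exact cov_false Y_14_15_539_604.ds_ok Y_14_15_539_604.c14 h h0 g1
  rcases le_total Δ (va (lk 716) - 8) with g2 | h2
  · exact cov_false Y_14_15_604_716.ds_ok Y_14_15_604_716.c14 h h1 g2
  exact cov_false Y_14_15_716_781.ds_ok Y_14_15_716_781.c14 h h2 g

theorem y15 {y X : Fin 15 → ℝ} (h : FV 15 a Δ y X) (h0 : va (lk 539) - 8 ≤ Δ)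
    (g : Δ ≤ va (lk 781) - 8) : False := by
  rcases le_total Δ (va (lk 604) - 8) with g1 | h1
  · exact cov_false Y_14_15_539_604.ds_ok Y_14_15_539_604.c15 h h0 g1
  rcases le_total Δ (va (lk 716) - 8) with g2 | h2
  · exact cov_false Y_14_15_604_716.ds_ok Y_14_15_604_716.c15 h h1 g2
  exact cov_false Y_14_15_716_781.ds_ok Y_14_15_716_781.c15 h h2 g

theorem y16 {y X : Fin 16 → ℝ} (h : FV 16 a Δ y X) (h0 : va (lk 539) - 8 ≤ Δ)
    (g : Δ ≤ va (lk 830) - 8) : False := by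
  rcases le_total Δ (va (lk 604) - 8) with g1 | h1
  · exact cov_false Y_16_18_539_604.ds_ok Y_16_18_539_604.c16 h h0 g1
  rcases le_total Δ (va (lk 716) - 8) with g2 | h2
  · exact cov_false Y_16_18_604_716.ds_ok Y_16_18_604_716.c16 h h1 g2
  exact cov_false Y_16_18_716_830.ds_ok Y_16_18_716_830.c16 h h2 g

theorem y17 {y X : Fin 17 → ℝ} (h : FV 17 a Δ y X) (h0 : va (lk 539) - 8 ≤ Δ)
    (g : Δ ≤ va (lk 830) - 8) : False := by
  rcases le_total Δ (va (lk 604) - 8) with g1 | h1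
  · exact cov_false Y_16_18_539_604.ds_ok Y_16_18_539_604.c17 h h0 g1
  rcases le_total Δ (va (lk 716) - 8) with g2 | h2
  · exact cov_false Y_16_18_604_716.ds_ok Y_16_18_604_716.c17 h h1 g2
  exact cov_false Y_16_18_716_830.ds_ok Y_16_18_716_830.c17 h h2 g

theorem y18 {y X : Fin 18 → ℝ} (h : FV 18 a Δ y X) (h0 : va (lk 539) - 8 ≤ Δ)
    (g : Δ ≤ va (lk 830) - 8) : False := by
  rcases le_total Δ (va (lk 604) - 8) with g1 | h1
  · exact cov_false Y_16_18_539_604.ds_ok Y_16_18_539_604.c18 h h0 g1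
  rcases le_total Δ (va (lk 716) - 8) with g2 | h2
  · exact cov_false Y_16_18_604_716.ds_ok Y_16_18_604_716.c18 h h1 g2
  exact cov_false Y_16_18_716_830.ds_ok Y_16_18_716_830.c18 h h2 g

theorem y19 {y X : Fin 19 → ℝ} (h : FV 19 a Δ y X) (h0 : va (lk 539) - 8 ≤ Δ)
    (g : Δ ≤ va (lk 830) - 8) : False := by
  rcases le_total Δ (va (lk 604) - 8) with g1 | h1
  · exact cov_false Y_19_22_539_604.ds_ok Y_19_22_539_604.c19 h h0 g1
  rcases le_total Δ (va (lk 716) - 8) with g2 | h2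
  · exact cov_false Y_19_22_604_716.ds_ok Y_19_22_604_716.c19 h h1 g2
  exact cov_false Y_19_22_716_830.ds_ok Y_19_22_716_830.c19 h h2 g

theorem y20 {y X : Fin 20 → ℝ} (h : FV 20 a Δ y X) (h0 : va (lk 539) - 8 ≤ Δ)
    (g : Δ ≤ va (lk 830) - 8) : False := by
  rcases le_total Δ (va (lk 604) - 8) with g1 | h1
  · exact cov_false Y_19_22_539_604.ds_ok Y_19_22_539_604.c20 h h0 g1
  rcases le_total Δ (va (lk 716) - 8) with g2 | h2
  · exact cov_false Y_19_22_604_716.ds_ok Y_19_22_604_716.c20 h h1 g2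
  exact cov_false Y_19_22_716_830.ds_ok Y_19_22_716_830.c20 h h2 g

theorem y21 {y X : Fin 21 → ℝ} (h : FV 21 a Δ y X) (h0 : va (lk 539) - 8 ≤ Δ)
    (g : Δ ≤ va (lk 830) - 8) : False := by
  rcases le_total Δ (va (lk 604) - 8) with g1 | h1
  · exact cov_false Y_19_22_539_604.ds_ok Y_19_22_539_604.c21 h h0 g1
  rcases le_total Δ (va (lk 716) - 8) with g2 | h2
  · exact cov_false Y_19_22_604_716.ds_ok Y_19_22_604_716.c21 h h1 g2
  exact cov_false Y_19_22_716_830.ds_ok Y_19_22_716_830.c21 h h2 g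

theorem y22 {y X : Fin 22 → ℝ} (h : FV 22 a Δ y X) (h0 : va (lk 539) - 8 ≤ Δ)
    (g : Δ ≤ va (lk 830) - 8) : False := by
  rcases le_total Δ (va (lk 604) - 8) with g1 | h1
  · exact cov_false Y_19_22_539_604.ds_ok Y_19_22_539_604.c22 h h0 g1
  rcases le_total Δ (va (lk 716) - 8) with g2 | h2
  · exact cov_false Y_19_22_604_716.ds_ok Y_19_22_604_716.c22 h h1 g2
  exact cov_false Y_19_22_716_830.ds_ok Y_19_22_716_830.c22 h h2 g

theorem y23 {y X : Fin 23 → ℝ} (h : FV 23 a Δ y X) (h0 : va (lk 539) - 8 ≤ Δ)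
    (g : Δ ≤ va (lk 830) - 8) : False := by
  rcases le_total Δ (va (lk 604) - 8) with g1 | h1
  · exact cov_false Y_23_27_539_604.ds_ok Y_23_27_539_604.c23 h h0 g1
  exact cov_false Y_23_27_604_830.ds_ok Y_23_27_604_830.c23 h h1 g

theorem y24 {y X : Fin 24 → ℝ} (h : FV 24 a Δ y X) (h0 : va (lk 539) - 8 ≤ Δ)
    (g : Δ ≤ va (lk 830) - 8) : False := by
  rcases le_total Δ (va (lk 604) - 8) with g1 | h1
  · exact cov_false Y_23_27_539_604.ds_ok Y_23_27_539_604.c24 h h0 g1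
  exact cov_false Y_23_27_604_830.ds_ok Y_23_27_604_830.c24 h h1 g

theorem y25 {y X : Fin 25 → ℝ} (h : FV 25 a Δ y X) (h0 : va (lk 539) - 8 ≤ Δ)
    (g : Δ ≤ va (lk 830) - 8) : False := by
  rcases le_total Δ (va (lk 604) - 8) with g1 | h1
  · exact cov_false Y_23_27_539_604.ds_ok Y_23_27_539_604.c25 h h0 g1
  exact cov_false Y_23_27_604_830.ds_ok Y_23_27_604_830.c25 h h1 g

theorem y26 {y X : Fin 26 → ℝ} (h : FV 26 a Δ y X) (h0 : va (lk 539) - 8 ≤ Δ)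
    (g : Δ ≤ va (lk 830) - 8) : False := by
  rcases le_total Δ (va (lk 604) - 8) with g1 | h1
  · exact cov_false Y_23_27_539_604.ds_ok Y_23_27_539_604.c26 h h0 g1
  exact cov_false Y_23_27_604_830.ds_ok Y_23_27_604_830.c26 h h1 g

theorem y27 {y X : Fin 27 → ℝ} (h : FV 27 a Δ y X) (h0 : va (lk 539) - 8 ≤ Δ)
    (g : Δ ≤ va (lk 830) - 8) : False := by
  rcases le_total Δ (va (lk 604) - 8) with g1 | h1
  · exact cov_false Y_23_27_539_604.ds_ok Y_23_27_539_604.c27 h h0 g1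
  exact cov_false Y_23_27_604_830.ds_ok Y_23_27_604_830.c27 h h1 g

theorem y28 {y X : Fin 28 → ℝ} (h : FV 28 a Δ y X) (h0 : va (lk 539) - 8 ≤ Δ)
    (g : Δ ≤ va (lk 830) - 8) : False := by
  rcases le_total Δ (va (lk 604) - 8) with g1 | h1
  · exact cov_false Y_28_33_539_604.ds_ok Y_28_33_539_604.c28 h h0 g1
  exact cov_false Y_28_33_604_830.ds_ok Y_28_33_604_830.c28 h h1 g

theorem y29 {y X : Fin 29 → ℝ} (h : FV 29 a Δ y X) (h0 : va (lk 539) - 8 ≤ Δ)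
    (g : Δ ≤ va (lk 830) - 8) : False := by
  rcases le_total Δ (va (lk 604) - 8) with g1 | h1
  · exact cov_false Y_28_33_539_604.ds_ok Y_28_33_539_604.c29 h h0 g1
  exact cov_false Y_28_33_604_830.ds_ok Y_28_33_604_830.c29 h h1 g

theorem y30 {y X : Fin 30 → ℝ} (h : FV 30 a Δ y X) (h0 : va (lk 539) - 8 ≤ Δ)
    (g : Δ ≤ va (lk 830) - 8) : False := by
  rcases le_total Δ (va (lk 604) - 8) with g1 | h1
  · exact cov_false Y_28_33_539_604.ds_ok Y_28_33_539_604.c30 h h0 g1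
  exact cov_false Y_28_33_604_830.ds_ok Y_28_33_604_830.c30 h h1 g

theorem y31 {y X : Fin 31 → ℝ} (h : FV 31 a Δ y X) (h0 : va (lk 539) - 8 ≤ Δ)
    (g : Δ ≤ va (lk 830) - 8) : False := by
  rcases le_total Δ (va (lk 604) - 8) with g1 | h1
  · exact cov_false Y_28_33_539_604.ds_ok Y_28_33_539_604.c31 h h0 g1
  exact cov_false Y_28_33_604_830.ds_ok Y_28_33_604_830.c31 h h1 g

theorem y32 {y X : Fin 32 → ℝ} (h : FV 32 a Δ y X) (h0 : va (lk 539) - 8 ≤ Δ)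
    (g : Δ ≤ va (lk 830) - 8) : False := by
  rcases le_total Δ (va (lk 604) - 8) with g1 | h1
  · exact cov_false Y_28_33_539_604.ds_ok Y_28_33_539_604.c32 h h0 g1
  exact cov_false Y_28_33_604_830.ds_ok Y_28_33_604_830.c32 h h1 g

theorem y33 {y X : Fin 33 → ℝ} (h : FV 33 a Δ y X) (h0 : va (lk 539) - 8 ≤ Δ)
    (g : Δ ≤ va (lk 830) - 8) : False := by
  rcases le_total Δ (va (lk 604) - 8) with g1 | h1
  · exact cov_false Y_28_33_539_604.ds_ok Y_28_33_539_604.c33 h h0 g1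
  exact cov_false Y_28_33_604_830.ds_ok Y_28_33_604_830.c33 h h1 g

theorem y34 {y X : Fin 34 → ℝ} (h : FV 34 a Δ y X) (h0 : va (lk 539) - 8 ≤ Δ)
    (g : Δ ≤ va (lk 830) - 8) : False := by
  rcases le_total Δ (va (lk 604) - 8) with g1 | h1
  · exact cov_false Y_34_40_539_604.ds_ok Y_34_40_539_604.c34 h h0 g1
  exact cov_false Y_34_40_604_830.ds_ok Y_34_40_604_830.c34 h h1 g

theorem y35 {y X : Fin 35 → ℝ} (h : FV 35 a Δ y X) (h0 : va (lk 539) - 8 ≤ Δ)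
    (g : Δ ≤ va (lk 830) - 8) : False := by
  rcases le_total Δ (va (lk 604) - 8) with g1 | h1
  · exact cov_false Y_34_40_539_604.ds_ok Y_34_40_539_604.c35 h h0 g1
  exact cov_false Y_34_40_604_830.ds_ok Y_34_40_604_830.c35 h h1 g

theorem y36 {y X : Fin 36 → ℝ} (h : FV 36 a Δ y X) (h0 : va (lk 539) - 8 ≤ Δ)
    (g : Δ ≤ va (lk 830) - 8) : False := by
  rcases le_total Δ (va (lk 604) - 8) with g1 | h1
  · exact cov_false Y_34_40_539_604.ds_ok Y_34_40_539_604.c36 h h0 g1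
  exact cov_false Y_34_40_604_830.ds_ok Y_34_40_604_830.c36 h h1 g

theorem y37 {y X : Fin 37 → ℝ} (h : FV 37 a Δ y X) (h0 : va (lk 539) - 8 ≤ Δ)
    (g : Δ ≤ va (lk 830) - 8) : False := by
  rcases le_total Δ (va (lk 604) - 8) with g1 | h1
  · exact cov_false Y_34_40_539_604.ds_ok Y_34_40_539_604.c37 h h0 g1
  exact cov_false Y_34_40_604_830.ds_ok Y_34_40_604_830.c37 h h1 g

theorem y38 {y X : Fin 38 → ℝ} (h : FV 38 a Δ y X) (h0 : va (lk 539) - 8 ≤ Δ)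
    (g : Δ ≤ va (lk 830) - 8) : False := by
  rcases le_total Δ (va (lk 604) - 8) with g1 | h1
  · exact cov_false Y_34_40_539_604.ds_ok Y_34_40_539_604.c38 h h0 g1
  exact cov_false Y_34_40_604_830.ds_ok Y_34_40_604_830.c38 h h1 g

theorem y39 {y X : Fin 39 → ℝ} (h : FV 39 a Δ y X) (h0 : va (lk 539) - 8 ≤ Δ)
    (g : Δ ≤ va (lk 830) - 8) : False := by
  rcases le_total Δ (va (lk 604) - 8) with g1 | h1
  · exact cov_false Y_34_40_539_604.ds_ok Y_34_40_539_604.c39 h h0 g1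
  exact cov_false Y_34_40_604_830.ds_ok Y_34_40_604_830.c39 h h1 g

theorem y40 {y X : Fin 40 → ℝ} (h : FV 40 a Δ y X) (h0 : va (lk 539) - 8 ≤ Δ)
    (g : Δ ≤ va (lk 830) - 8) : False := by
  rcases le_total Δ (va (lk 604) - 8) with g1 | h1
  · exact cov_false Y_34_40_539_604.ds_ok Y_34_40_539_604.c40 h h0 g1
  exact cov_false Y_34_40_604_830.ds_ok Y_34_40_604_830.c40 h h1 g

theorem y41 {y X : Fin 41 → ℝ} (h : FV 41 a Δ y X) (h0 : va (lk 539) - 8 ≤ Δ)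
    (g : Δ ≤ va (lk 830) - 8) : False := by
  rcases le_total Δ (va (lk 604) - 8) with g1 | h1
  · exact cov_false Y_41_49_539_604.ds_ok Y_41_49_539_604.c41 h h0 g1
  exact cov_false Y_41_49_604_830.ds_ok Y_41_49_604_830.c41 h h1 g

theorem y42 {y X : Fin 42 → ℝ} (h : FV 42 a Δ y X) (h0 : va (lk 539) - 8 ≤ Δ)
    (g : Δ ≤ va (lk 830) - 8) : False := by
  rcases le_total Δ (va (lk 604) - 8) with g1 | h1
  · exact cov_false Y_41_49_539_604.ds_ok Y_41_49_539_604.c42 h h0 g1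
  exact cov_false Y_41_49_604_830.ds_ok Y_41_49_604_830.c42 h h1 g

theorem y43 {y X : Fin 43 → ℝ} (h : FV 43 a Δ y X) (h0 : va (lk 539) - 8 ≤ Δ)
    (g : Δ ≤ va (lk 830) - 8) : False := by
  rcases le_total Δ (va (lk 604) - 8) with g1 | h1
  · exact cov_false Y_41_49_539_604.ds_ok Y_41_49_539_604.c43 h h0 g1
  exact cov_false Y_41_49_604_830.ds_ok Y_41_49_604_830.c43 h h1 g

theorem y44 {y X : Fin 44 → ℝ} (h : FV 44 a Δ y X) (h0 : va (lk 539) - 8 ≤ Δ)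
    (g : Δ ≤ va (lk 830) - 8) : False := by
  rcases le_total Δ (va (lk 604) - 8) with g1 | h1
  · exact cov_false Y_41_49_539_604.ds_ok Y_41_49_539_604.c44 h h0 g1
  exact cov_false Y_41_49_604_830.ds_ok Y_41_49_604_830.c44 h h1 g

theorem y45 {y X : Fin 45 → ℝ} (h : FV 45 a Δ y X) (h0 : va (lk 539) - 8 ≤ Δ)
    (g : Δ ≤ va (lk 830) - 8) : False := by
  rcases le_total Δ (va (lk 604) - 8) with g1 | h1
  · exact cov_false Y_41_49_539_604.ds_ok Y_41_49_539_604.c45 h h0 g1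
  exact cov_false Y_41_49_604_830.ds_ok Y_41_49_604_830.c45 h h1 g

theorem y46 {y X : Fin 46 → ℝ} (h : FV 46 a Δ y X) (h0 : va (lk 539) - 8 ≤ Δ)
    (g : Δ ≤ va (lk 830) - 8) : False := by
  rcases le_total Δ (va (lk 604) - 8) with g1 | h1
  · exact cov_false Y_41_49_539_604.ds_ok Y_41_49_539_604.c46 h h0 g1
  exact cov_false Y_41_49_604_830.ds_ok Y_41_49_604_830.c46 h h1 g

theorem y47 {y X : Fin 47 → ℝ} (h : FV 47 a Δ y X) (h0 : va (lk 539) - 8 ≤ Δ)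
    (g : Δ ≤ va (lk 830) - 8) : False := by
  rcases le_total Δ (va (lk 604) - 8) with g1 | h1
  · exact cov_false Y_41_49_539_604.ds_ok Y_41_49_539_604.c47 h h0 g1
  exact cov_false Y_41_49_604_830.ds_ok Y_41_49_604_830.c47 h h1 g

theorem y48 {y X : Fin 48 → ℝ} (h : FV 48 a Δ y X) (h0 : va (lk 539) - 8 ≤ Δ)
    (g : Δ ≤ va (lk 830) - 8) : False := by
  rcases le_total Δ (va (lk 604) - 8) with g1 | h1
  · exact cov_false Y_41_49_539_604.ds_ok Y_41_49_539_604.c48 h h0 g1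
  exact cov_false Y_41_49_604_830.ds_ok Y_41_49_604_830.c48 h h1 g

theorem y49 {y X : Fin 49 → ℝ} (h : FV 49 a Δ y X) (h0 : va (lk 539) - 8 ≤ Δ)
    (g : Δ ≤ va (lk 830) - 8) : False := by
  rcases le_total Δ (va (lk 604) - 8) with g1 | h1
  · exact cov_false Y_41_49_539_604.ds_ok Y_41_49_539_604.c49 h h0 g1
  exact cov_false Y_41_49_604_830.ds_ok Y_41_49_604_830.c49 h h1 g

theorem y50 {y X : Fin 50 → ℝ} (h : FV 50 a Δ y X) (h0 : va (lk 539) - 8 ≤ Δ)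
    (g : Δ ≤ va (lk 830) - 8) : False := by
  rcases le_total Δ (va (lk 604) - 8) with g1 | h1
  · exact cov_false Y_50_59_539_604.ds_ok Y_50_59_539_604.c50 h h0 g1
  exact cov_false Y_50_59_604_830.ds_ok Y_50_59_604_830.c50 h h1 g

theorem y51 {y X : Fin 51 → ℝ} (h : FV 51 a Δ y X) (h0 : va (lk 539) - 8 ≤ Δ)
    (g : Δ ≤ va (lk 830) - 8) : False := by
  rcases le_total Δ (va (lk 604) - 8) with g1 | h1
  · exact cov_false Y_50_59_539_604.ds_ok Y_50_59_539_604.c51 h h0 g1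
  exact cov_false Y_50_59_604_830.ds_ok Y_50_59_604_830.c51 h h1 g

theorem y52 {y X : Fin 52 → ℝ} (h : FV 52 a Δ y X) (h0 : va (lk 539) - 8 ≤ Δ)
    (g : Δ ≤ va (lk 830) - 8) : False := by
  rcases le_total Δ (va (lk 604) - 8) with g1 | h1
  · exact cov_false Y_50_59_539_604.ds_ok Y_50_59_539_604.c52 h h0 g1
  exact cov_false Y_50_59_604_830.ds_ok Y_50_59_604_830.c52 h h1 g

theorem y53 {y X : Fin 53 → ℝ} (h : FV 53 a Δ y X) (h0 : va (lk 539) - 8 ≤ Δ)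
    (g : Δ ≤ va (lk 830) - 8) : False := by
  rcases le_total Δ (va (lk 604) - 8) with g1 | h1
  · exact cov_false Y_50_59_539_604.ds_ok Y_50_59_539_604.c53 h h0 g1
  exact cov_false Y_50_59_604_830.ds_ok Y_50_59_604_830.c53 h h1 g

theorem y54 {y X : Fin 54 → ℝ} (h : FV 54 a Δ y X) (h0 : va (lk 539) - 8 ≤ Δ)
    (g : Δ ≤ va (lk 830) - 8) : False := by
  rcases le_total Δ (va (lk 604) - 8) with g1 | h1
  · exact cov_false Y_50_59_539_604.ds_ok Y_50_59_539_604.c54 h h0 g1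
  exact cov_false Y_50_59_604_830.ds_ok Y_50_59_604_830.c54 h h1 g

theorem y55 {y X : Fin 55 → ℝ} (h : FV 55 a Δ y X) (h0 : va (lk 539) - 8 ≤ Δ)
    (g : Δ ≤ va (lk 830) - 8) : False := by
  rcases le_total Δ (va (lk 604) - 8) with g1 | h1
  · exact cov_false Y_50_59_539_604.ds_ok Y_50_59_539_604.c55 h h0 g1
  exact cov_false Y_50_59_604_830.ds_ok Y_50_59_604_830.c55 h h1 g

theorem y56 {y X : Fin 56 → ℝ} (h : FV 56 a Δ y X) (h0 : va (lk 539) - 8 ≤ Δ)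
    (g : Δ ≤ va (lk 830) - 8) : False := by
  rcases le_total Δ (va (lk 604) - 8) with g1 | h1
  · exact cov_false Y_50_59_539_604.ds_ok Y_50_59_539_604.c56 h h0 g1
  exact cov_false Y_50_59_604_830.ds_ok Y_50_59_604_830.c56 h h1 g

theorem y57 {y X : Fin 57 → ℝ} (h : FV 57 a Δ y X) (h0 : va (lk 539) - 8 ≤ Δ)
    (g : Δ ≤ va (lk 830) - 8) : False := by
  rcases le_total Δ (va (lk 604) - 8) with g1 | h1
  · exact cov_false Y_50_59_539_604.ds_ok Y_50_59_539_604.c57 h h0 g1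
  exact cov_false Y_50_59_604_830.ds_ok Y_50_59_604_830.c57 h h1 g

theorem y58 {y X : Fin 58 → ℝ} (h : FV 58 a Δ y X) (h0 : va (lk 539) - 8 ≤ Δ)
    (g : Δ ≤ va (lk 830) - 8) : False := by
  rcases le_total Δ (va (lk 604) - 8) with g1 | h1
  · exact cov_false Y_50_59_539_604.ds_ok Y_50_59_539_604.c58 h h0 g1
  exact cov_false Y_50_59_604_830.ds_ok Y_50_59_604_830.c58 h h1 g

theorem y59 {y X : Fin 59 → ℝ} (h : FV 59 a Δ y X) (h0 : va (lk 539) - 8 ≤ Δ)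
    (g : Δ ≤ va (lk 830) - 8) : False := by
  rcases le_total Δ (va (lk 604) - 8) with g1 | h1
  · exact cov_false Y_50_59_539_604.ds_ok Y_50_59_539_604.c59 h h0 g1
  exact cov_false Y_50_59_604_830.ds_ok Y_50_59_604_830.c59 h h1 g

theorem y60 {y X : Fin 60 → ℝ} (h : FV 60 a Δ y X) (h0 : va (lk 539) - 8 ≤ Δ)
    (g : Δ ≤ va (lk 830) - 8) : False := by
  rcases le_total Δ (va (lk 604) - 8) with g1 | h1
  · exact cov_false Y_60_71_539_604.ds_ok Y_60_71_539_604.c60 h h0 g1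
  exact cov_false Y_60_71_604_830.ds_ok Y_60_71_604_830.c60 h h1 g

theorem y61 {y X : Fin 61 → ℝ} (h : FV 61 a Δ y X) (h0 : va (lk 539) - 8 ≤ Δ)
    (g : Δ ≤ va (lk 830) - 8) : False := by
  rcases le_total Δ (va (lk 604) - 8) with g1 | h1
  · exact cov_false Y_60_71_539_604.ds_ok Y_60_71_539_604.c61 h h0 g1
  exact cov_false Y_60_71_604_830.ds_ok Y_60_71_604_830.c61 h h1 g

theorem y62 {y X : Fin 62 → ℝ} (h : FV 62 a Δ y X) (h0 : va (lk 539) - 8 ≤ Δ)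
    (g : Δ ≤ va (lk 830) - 8) : False := by
  rcases le_total Δ (va (lk 604) - 8) with g1 | h1
  · exact cov_false Y_60_71_539_604.ds_ok Y_60_71_539_604.c62 h h0 g1
  exact cov_false Y_60_71_604_830.ds_ok Y_60_71_604_830.c62 h h1 g

theorem y63 {y X : Fin 63 → ℝ} (h : FV 63 a Δ y X) (h0 : va (lk 539) - 8 ≤ Δ)
    (g : Δ ≤ va (lk 830) - 8) : False := by
  rcases le_total Δ (va (lk 604) - 8) with g1 | h1
  · exact cov_false Y_60_71_539_604.ds_ok Y_60_71_539_604.c63 h h0 g1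
  exact cov_false Y_60_71_604_830.ds_ok Y_60_71_604_830.c63 h h1 g

theorem y64 {y X : Fin 64 → ℝ} (h : FV 64 a Δ y X) (h0 : va (lk 539) - 8 ≤ Δ)
    (g : Δ ≤ va (lk 830) - 8) : False := by
  rcases le_total Δ (va (lk 604) - 8) with g1 | h1
  · exact cov_false Y_60_71_539_604.ds_ok Y_60_71_539_604.c64 h h0 g1
  exact cov_false Y_60_71_604_830.ds_ok Y_60_71_604_830.c64 h h1 g

theorem y65 {y X : Fin 65 → ℝ} (h : FV 65 a Δ y X) (h0 : va (lk 539) - 8 ≤ Δ)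
    (g : Δ ≤ va (lk 830) - 8) : False := by
  rcases le_total Δ (va (lk 604) - 8) with g1 | h1
  · exact cov_false Y_60_71_539_604.ds_ok Y_60_71_539_604.c65 h h0 g1
  exact cov_false Y_60_71_604_830.ds_ok Y_60_71_604_830.c65 h h1 g

theorem y66 {y X : Fin 66 → ℝ} (h : FV 66 a Δ y X) (h0 : va (lk 539) - 8 ≤ Δ)
    (g : Δ ≤ va (lk 830) - 8) : False := by
  rcases le_total Δ (va (lk 604) - 8) with g1 | h1
  · exact cov_false Y_60_71_539_604.ds_ok Y_60_71_539_604.c66 h h0 g1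
  exact cov_false Y_60_71_604_830.ds_ok Y_60_71_604_830.c66 h h1 g

theorem y67 {y X : Fin 67 → ℝ} (h : FV 67 a Δ y X) (h0 : va (lk 539) - 8 ≤ Δ)
    (g : Δ ≤ va (lk 830) - 8) : False := by
  rcases le_total Δ (va (lk 604) - 8) with g1 | h1
  · exact cov_false Y_60_71_539_604.ds_ok Y_60_71_539_604.c67 h h0 g1
  exact cov_false Y_60_71_604_830.ds_ok Y_60_71_604_830.c67 h h1 g

theorem y68 {y X : Fin 68 → ℝ} (h : FV 68 a Δ y X) (h0 : va (lk 539) - 8 ≤ Δ)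
    (g : Δ ≤ va (lk 830) - 8) : False := by
  rcases le_total Δ (va (lk 604) - 8) with g1 | h1
  · exact cov_false Y_60_71_539_604.ds_ok Y_60_71_539_604.c68 h h0 g1
  exact cov_false Y_60_71_604_830.ds_ok Y_60_71_604_830.c68 h h1 g

theorem y69 {y X : Fin 69 → ℝ} (h : FV 69 a Δ y X) (h0 : va (lk 539) - 8 ≤ Δ)
    (g : Δ ≤ va (lk 830) - 8) : False := by
  rcases le_total Δ (va (lk 604) - 8) with g1 | h1
  · exact cov_false Y_60_71_539_604.ds_ok Y_60_71_539_604.c69 h h0 g1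
  exact cov_false Y_60_71_604_830.ds_ok Y_60_71_604_830.c69 h h1 g

theorem y70 {y X : Fin 70 → ℝ} (h : FV 70 a Δ y X) (h0 : va (lk 539) - 8 ≤ Δ)
    (g : Δ ≤ va (lk 830) - 8) : False := by
  rcases le_total Δ (va (lk 604) - 8) with g1 | h1
  · exact cov_false Y_60_71_539_604.ds_ok Y_60_71_539_604.c70 h h0 g1
  exact cov_false Y_60_71_604_830.ds_ok Y_60_71_604_830.c70 h h1 g

theorem y71 {y X : Fin 71 → ℝ} (h : FV 71 a Δ y X) (h0 : va (lk 539) - 8 ≤ Δ)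
    (g : Δ ≤ va (lk 830) - 8) : False := by
  rcases le_total Δ (va (lk 604) - 8) with g1 | h1
  · exact cov_false Y_60_71_539_604.ds_ok Y_60_71_539_604.c71 h h0 g1
  exact cov_false Y_60_71_604_830.ds_ok Y_60_71_604_830.c71 h h1 g

theorem y72 {y X : Fin 72 → ℝ} (h : FV 72 a Δ y X) (h0 : va (lk 539) - 8 ≤ Δ)
    (g : Δ ≤ va (lk 830) - 8) : False := by
  rcases le_total Δ (va (lk 604) - 8) with g1 | h1
  · exact cov_false Y_72_85_539_604.ds_ok Y_72_85_539_604.c72 h h0 g1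
  exact cov_false Y_72_85_604_830.ds_ok Y_72_85_604_830.c72 h h1 g

theorem y73 {y X : Fin 73 → ℝ} (h : FV 73 a Δ y X) (h0 : va (lk 539) - 8 ≤ Δ)
    (g : Δ ≤ va (lk 830) - 8) : False := by
  rcases le_total Δ (va (lk 604) - 8) with g1 | h1
  · exact cov_false Y_72_85_539_604.ds_ok Y_72_85_539_604.c73 h h0 g1
  exact cov_false Y_72_85_604_830.ds_ok Y_72_85_604_830.c73 h h1 g

theorem y74 {y X : Fin 74 → ℝ} (h : FV 74 a Δ y X) (h0 : va (lk 539) - 8 ≤ Δ)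
    (g : Δ ≤ va (lk 830) - 8) : False := by
  rcases le_total Δ (va (lk 604) - 8) with g1 | h1
  · exact cov_false Y_72_85_539_604.ds_ok Y_72_85_539_604.c74 h h0 g1
  exact cov_false Y_72_85_604_830.ds_ok Y_72_85_604_830.c74 h h1 g

theorem y75 {y X : Fin 75 → ℝ} (h : FV 75 a Δ y X) (h0 : va (lk 539) - 8 ≤ Δ)
    (g : Δ ≤ va (lk 830) - 8) : False := by
  rcases le_total Δ (va (lk 604) - 8) with g1 | h1
  · exact cov_false Y_72_85_539_604.ds_ok Y_72_85_539_604.c75 h h0 g1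
  exact cov_false Y_72_85_604_830.ds_ok Y_72_85_604_830.c75 h h1 g

theorem y76 {y X : Fin 76 → ℝ} (h : FV 76 a Δ y X) (h0 : va (lk 539) - 8 ≤ Δ)
    (g : Δ ≤ va (lk 830) - 8) : False := by
  rcases le_total Δ (va (lk 604) - 8) with g1 | h1
  · exact cov_false Y_72_85_539_604.ds_ok Y_72_85_539_604.c76 h h0 g1
  exact cov_false Y_72_85_604_830.ds_ok Y_72_85_604_830.c76 h h1 g

theorem y77 {y X : Fin 77 → ℝ} (h : FV 77 a Δ y X) (h0 : va (lk 539) - 8 ≤ Δ)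
    (g : Δ ≤ va (lk 830) - 8) : False := by
  rcases le_total Δ (va (lk 604) - 8) with g1 | h1
  · exact cov_false Y_72_85_539_604.ds_ok Y_72_85_539_604.c77 h h0 g1
  exact cov_false Y_72_85_604_830.ds_ok Y_72_85_604_830.c77 h h1 g

theorem y78 {y X : Fin 78 → ℝ} (h : FV 78 a Δ y X) (h0 : va (lk 539) - 8 ≤ Δ)
    (g : Δ ≤ va (lk 830) - 8) : False := by
  rcases le_total Δ (va (lk 604) - 8) with g1 | h1
  · exact cov_false Y_72_85_539_604.ds_ok Y_72_85_539_604.c78 h h0 g1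
  exact cov_false Y_72_85_604_830.ds_ok Y_72_85_604_830.c78 h h1 g

theorem y79 {y X : Fin 79 → ℝ} (h : FV 79 a Δ y X) (h0 : va (lk 539) - 8 ≤ Δ)
    (g : Δ ≤ va (lk 830) - 8) : False := by
  rcases le_total Δ (va (lk 604) - 8) with g1 | h1
  · exact cov_false Y_72_85_539_604.ds_ok Y_72_85_539_604.c79 h h0 g1
  exact cov_false Y_72_85_604_830.ds_ok Y_72_85_604_830.c79 h h1 g

theorem y80 {y X : Fin 80 → ℝ} (h : FV 80 a Δ y X) (h0 : va (lk 539) - 8 ≤ Δ)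
    (g : Δ ≤ va (lk 830) - 8) : False := by
  rcases le_total Δ (va (lk 604) - 8) with g1 | h1
  · exact cov_false Y_72_85_539_604.ds_ok Y_72_85_539_604.c80 h h0 g1
  exact cov_false Y_72_85_604_830.ds_ok Y_72_85_604_830.c80 h h1 g

theorem y81 {y X : Fin 81 → ℝ} (h : FV 81 a Δ y X) (h0 : va (lk 539) - 8 ≤ Δ)
    (g : Δ ≤ va (lk 830) - 8) : False := by
  rcases le_total Δ (va (lk 604) - 8) with g1 | h1
  · exact cov_false Y_72_85_539_604.ds_ok Y_72_85_539_604.c81 h h0 g1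
  exact cov_false Y_72_85_604_830.ds_ok Y_72_85_604_830.c81 h h1 g

theorem y82 {y X : Fin 82 → ℝ} (h : FV 82 a Δ y X) (h0 : va (lk 539) - 8 ≤ Δ)
    (g : Δ ≤ va (lk 830) - 8) : False := by
  rcases le_total Δ (va (lk 604) - 8) with g1 | h1
  · exact cov_false Y_72_85_539_604.ds_ok Y_72_85_539_604.c82 h h0 g1
  exact cov_false Y_72_85_604_830.ds_ok Y_72_85_604_830.c82 h h1 g

theorem y83 {y X : Fin 83 → ℝ} (h : FV 83 a Δ y X) (h0 : va (lk 539) - 8 ≤ Δ)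
    (g : Δ ≤ va (lk 830) - 8) : False := by
  rcases le_total Δ (va (lk 604) - 8) with g1 | h1
  · exact cov_false Y_72_85_539_604.ds_ok Y_72_85_539_604.c83 h h0 g1
  exact cov_false Y_72_85_604_830.ds_ok Y_72_85_604_830.c83 h h1 g

theorem y84 {y X : Fin 84 → ℝ} (h : FV 84 a Δ y X) (h0 : va (lk 539) - 8 ≤ Δ)
    (g : Δ ≤ va (lk 830) - 8) : False := by
  rcases le_total Δ (va (lk 604) - 8) with g1 | h1
  · exact cov_false Y_72_85_539_604.ds_ok Y_72_85_539_604.c84 h h0 g1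
  exact cov_false Y_72_85_604_830.ds_ok Y_72_85_604_830.c84 h h1 g

theorem y85 {y X : Fin 85 → ℝ} (h : FV 85 a Δ y X) (h0 : va (lk 539) - 8 ≤ Δ)
    (g : Δ ≤ va (lk 830) - 8) : False := by
  rcases le_total Δ (va (lk 604) - 8) with g1 | h1
  · exact cov_false Y_72_85_539_604.ds_ok Y_72_85_539_604.c85 h h0 g1
  exact cov_false Y_72_85_604_830.ds_ok Y_72_85_604_830.c85 h h1 g

theorem y86 {y X : Fin 86 → ℝ} (h : FV 86 a Δ y X) (h0 : va (lk 539) - 8 ≤ Δ)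
    (g : Δ ≤ va (lk 830) - 8) : False := by
  rcases le_total Δ (va (lk 604) - 8) with g1 | h1
  · exact cov_false Y_86_99_539_604.ds_ok Y_86_99_539_604.c86 h h0 g1
  exact cov_false Y_86_99_604_830.ds_ok Y_86_99_604_830.c86 h h1 g

theorem y87 {y X : Fin 87 → ℝ} (h : FV 87 a Δ y X) (h0 : va (lk 539) - 8 ≤ Δ)
    (g : Δ ≤ va (lk 830) - 8) : False := by
  rcases le_total Δ (va (lk 604) - 8) with g1 | h1
  · exact cov_false Y_86_99_539_604.ds_ok Y_86_99_539_604.c87 h h0 g1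
  exact cov_false Y_86_99_604_830.ds_ok Y_86_99_604_830.c87 h h1 g

theorem y88 {y X : Fin 88 → ℝ} (h : FV 88 a Δ y X) (h0 : va (lk 539) - 8 ≤ Δ)
    (g : Δ ≤ va (lk 830) - 8) : False := by
  rcases le_total Δ (va (lk 604) - 8) with g1 | h1
  · exact cov_false Y_86_99_539_604.ds_ok Y_86_99_539_604.c88 h h0 g1
  exact cov_false Y_86_99_604_830.ds_ok Y_86_99_604_830.c88 h h1 g

theorem y89 {y X : Fin 89 → ℝ} (h : FV 89 a Δ y X) (h0 : va (lk 539) - 8 ≤ Δ)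
    (g : Δ ≤ va (lk 830) - 8) : False := by
  rcases le_total Δ (va (lk 604) - 8) with g1 | h1
  · exact cov_false Y_86_99_539_604.ds_ok Y_86_99_539_604.c89 h h0 g1
  exact cov_false Y_86_99_604_830.ds_ok Y_86_99_604_830.c89 h h1 g

theorem y90 {y X : Fin 90 → ℝ} (h : FV 90 a Δ y X) (h0 : va (lk 539) - 8 ≤ Δ)
    (g : Δ ≤ va (lk 830) - 8) : False := by
  rcases le_total Δ (va (lk 604) - 8) with g1 | h1
  · exact cov_false Y_86_99_539_604.ds_ok Y_86_99_539_604.c90 h h0 g1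
  exact cov_false Y_86_99_604_830.ds_ok Y_86_99_604_830.c90 h h1 g

theorem y91 {y X : Fin 91 → ℝ} (h : FV 91 a Δ y X) (h0 : va (lk 539) - 8 ≤ Δ)
    (g : Δ ≤ va (lk 830) - 8) : False := by
  rcases le_total Δ (va (lk 604) - 8) with g1 | h1
  · exact cov_false Y_86_99_539_604.ds_ok Y_86_99_539_604.c91 h h0 g1
  exact cov_false Y_86_99_604_830.ds_ok Y_86_99_604_830.c91 h h1 g

theorem y92 {y X : Fin 92 → ℝ} (h : FV 92 a Δ y X) (h0 : va (lk 539) - 8 ≤ Δ)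
    (g : Δ ≤ va (lk 830) - 8) : False := by
  rcases le_total Δ (va (lk 604) - 8) with g1 | h1
  · exact cov_false Y_86_99_539_604.ds_ok Y_86_99_539_604.c92 h h0 g1
  exact cov_false Y_86_99_604_830.ds_ok Y_86_99_604_830.c92 h h1 g

theorem y93 {y X : Fin 93 → ℝ} (h : FV 93 a Δ y X) (h0 : va (lk 539) - 8 ≤ Δ)
    (g : Δ ≤ va (lk 830) - 8) : False := by
  rcases le_total Δ (va (lk 604) - 8) with g1 | h1
  · exact cov_false Y_86_99_539_604.ds_ok Y_86_99_539_604.c93 h h0 g1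
  exact cov_false Y_86_99_604_830.ds_ok Y_86_99_604_830.c93 h h1 g

theorem y94 {y X : Fin 94 → ℝ} (h : FV 94 a Δ y X) (h0 : va (lk 539) - 8 ≤ Δ)
    (g : Δ ≤ va (lk 830) - 8) : False := by
  rcases le_total Δ (va (lk 604) - 8) with g1 | h1
  · exact cov_false Y_86_99_539_604.ds_ok Y_86_99_539_604.c94 h h0 g1
  exact cov_false Y_86_99_604_830.ds_ok Y_86_99_604_830.c94 h h1 g

theorem y95 {y X : Fin 95 → ℝ} (h : FV 95 a Δ y X) (h0 : va (lk 539) - 8 ≤ Δ)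
    (g : Δ ≤ va (lk 830) - 8) : False := by
  rcases le_total Δ (va (lk 604) - 8) with g1 | h1
  · exact cov_false Y_86_99_539_604.ds_ok Y_86_99_539_604.c95 h h0 g1
  exact cov_false Y_86_99_604_830.ds_ok Y_86_99_604_830.c95 h h1 g

theorem y96 {y X : Fin 96 → ℝ} (h : FV 96 a Δ y X) (h0 : va (lk 539) - 8 ≤ Δ)
    (g : Δ ≤ va (lk 830) - 8) : False := by
  rcases le_total Δ (va (lk 604) - 8) with g1 | h1
  · exact cov_false Y_86_99_539_604.ds_ok Y_86_99_539_604.c96 h h0 g1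
  exact cov_false Y_86_99_604_830.ds_ok Y_86_99_604_830.c96 h h1 g

theorem y97 {y X : Fin 97 → ℝ} (h : FV 97 a Δ y X) (h0 : va (lk 539) - 8 ≤ Δ)
    (g : Δ ≤ va (lk 830) - 8) : False := by
  rcases le_total Δ (va (lk 604) - 8) with g1 | h1
  · exact cov_false Y_86_99_539_604.ds_ok Y_86_99_539_604.c97 h h0 g1
  exact cov_false Y_86_99_604_830.ds_ok Y_86_99_604_830.c97 h h1 g

theorem y98 {y X : Fin 98 → ℝ} (h : FV 98 a Δ y X) (h0 : va (lk 539) - 8 ≤ Δ)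
    (g : Δ ≤ va (lk 830) - 8) : False := by
  rcases le_total Δ (va (lk 604) - 8) with g1 | h1
  · exact cov_false Y_86_99_539_604.ds_ok Y_86_99_539_604.c98 h h0 g1
  exact cov_false Y_86_99_604_830.ds_ok Y_86_99_604_830.c98 h h1 g

theorem y99 {y X : Fin 99 → ℝ} (h : FV 99 a Δ y X) (h0 : va (lk 539) - 8 ≤ Δ)
    (g : Δ ≤ va (lk 830) - 8) : False := by
  rcases le_total Δ (va (lk 604) - 8) with g1 | h1
  · exact cov_false Y_86_99_539_604.ds_ok Y_86_99_539_604.c99 h h0 g1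
  exact cov_false Y_86_99_604_830.ds_ok Y_86_99_604_830.c99 h h1 g

/-- the table index of the upper bound of the covered `Δ` -/
def yk (N : ℕ) : ℕ :=
  if N ≤ 6 then 558 else if N ≤ 7 then 604 else if N ≤ 8 then 626 else if N ≤ 9 then 680
  else if N ≤ 11 then 716 else if N ≤ 15 then 781 else 830

theorem lk539 : va (lk 539) - 8 ≤ 3 / 10 := by
  norm_num [va, lk]

/-- `6 ≤ N ≤ 59` -/
theorem Y_false {N : ℕ} (h6 : 6 ≤ N) (h59 : N ≤ 59) {y X : Fin N → ℝ} (h : FV N a Δ y X)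
    (h0 : 3 / 10 ≤ Δ) (h1 : Δ ≤ va (lk (yk N)) - 8) : False := by
  have h2 := lk539.trans h0
  interval_cases N
  · exact y6 h h2 h1
  · exact y7 h h2 h1
  · exact y8 h h2 h1
  · exact y9 h h2 h1
  · exact y10 h h2 h1
  · exact y11 h h2 h1
  · exact y12 h h2 h1
  · exact y13 h h2 h1
  · exact y14 h h2 h1
  · exact y15 h h2 h1
  · exact y16 h h2 h1
  · exact y17 h h2 h1
  · exact y18 h h2 h1
  · exact y19 h h2 h1
  · exact y20 h h2 h1
  · exact y21 h h2 h1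
  · exact y22 h h2 h1
  · exact y23 h h2 h1
  · exact y24 h h2 h1
  · exact y25 h h2 h1
  · exact y26 h h2 h1
  · exact y27 h h2 h1
  · exact y28 h h2 h1
  · exact y29 h h2 h1
  · exact y30 h h2 h1
  · exact y31 h h2 h1
  · exact y32 h h2 h1
  · exact y33 h h2 h1
  · exact y34 h h2 h1
  · exact y35 h h2 h1
  · exact y36 h h2 h1
  · exact y37 h h2 h1
  · exact y38 h h2 h1
  · exact y39 h h2 h1
  · exact y40 h h2 h1
  · exact y41 h h2 h1
  · exact y42 h h2 h1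
  · exact y43 h h2 h1
  · exact y44 h h2 h1
  · exact y45 h h2 h1
  · exact y46 h h2 h1
  · exact y47 h h2 h1
  · exact y48 h h2 h1
  · exact y49 h h2 h1
  · exact y50 h h2 h1
  · exact y51 h h2 h1
  · exact y52 h h2 h1
  · exact y53 h h2 h1
  · exact y54 h h2 h1
  · exact y55 h h2 h1
  · exact y56 h h2 h1
  · exact y57 h h2 h1
  · exact y58 h h2 h1
  · exact y59 h h2 h1

/-- `60 ≤ N ≤ 99` -/
theorem Y_false'' {N : ℕ} (h60 : 60 ≤ N) (h99 : N ≤ 99) {y X : Fin N → ℝ} (h : FV N a Δ y X)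
    (h0 : 3 / 10 ≤ Δ) (h1 : Δ ≤ va (lk 830) - 8) : False := by
  have h2 := lk539.trans h0
  interval_cases N
  · exact y60 h h2 h1
  · exact y61 h h2 h1
  · exact y62 h h2 h1
  · exact y63 h h2 h1
  · exact y64 h h2 h1
  · exact y65 h h2 h1
  · exact y66 h h2 h1
  · exact y67 h h2 h1
  · exact y68 h h2 h1
  · exact y69 h h2 h1
  · exact y70 h h2 h1
  · exact y71 h h2 h1
  · exact y72 h h2 h1
  · exact y73 h h2 h1
  · exact y74 h h2 h1
  · exact y75 h h2 h1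
  · exact y76 h h2 h1
  · exact y77 h h2 h1
  · exact y78 h h2 h1
  · exact y79 h h2 h1
  · exact y80 h h2 h1
  · exact y81 h h2 h1
  · exact y82 h h2 h1
  · exact y83 h h2 h1
  · exact y84 h h2 h1
  · exact y85 h h2 h1
  · exact y86 h h2 h1
  · exact y87 h h2 h1
  · exact y88 h h2 h1
  · exact y89 h h2 h1
  · exact y90 h h2 h1
  · exact y91 h h2 h1
  · exact y92 h h2 h1
  · exact y93 h h2 h1
  · exact y94 h h2 h1
  · exact y95 h h2 h1
  · exact y96 h h2 h1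
  · exact y97 h h2 h1
  · exact y98 h h2 h1
  · exact y99 h h2 h1

/-- `60 ≤ N ≤ 99` -/
theorem Y_false' {N : ℕ} (h60 : 60 ≤ N) (h99 : N ≤ 99) {y X : Fin N → ℝ} (h : FV N a Δ y X)
    (h0 : 1 ≤ Δ) (h1 : Δ ≤ va (lk 830) - 8) : False :=
  Y_false'' h60 h99 h (by linarith) h1

end Pool.Agent.Lib.MP_172a45_an.LP
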