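import Pool.Agent.Lib.MP_172a45_an.LP.Sound4

set_option autoImplicit false

/-!
# Soundness of the certificate checker, part 5: the theorem
-/

namespace Pool.Agent.Lib.MP_172a45_an.LP

open Finset Real Pool.Agent.Lib.MP_172a45_an.F

/-- `log z ≥ 2(z-1)/(z+1)` -/
theorem log_ge_pade {z : ℝ} (hz : 1 ≤ z) : 2 * (z - 1) / (z + 1) ≤ Real.log z := by
  have hmono : MonotoneOn (fun x : ℝ => Real.log x - 2 * (x - 1) / (x + 1)) (Set.Ici 1) := by
    refine mono_aux (f' := fun x => x⁻¹ - (2 * (x + 1) - 2 * (x - 1) * 1) / (x + 1) ^ 2)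
      (convex_Ici 1) ?_ ?_
    · intro x hx
      have hx1 : (1:ℝ) ≤ x := hx
      have hx0 : 0 < x := by linarith
      have h1 : HasDerivAt (fun x : ℝ => 2 * (x - 1)) 2 x := by
        have := ((hasDerivAt_id x).sub_const 1).const_mul 2
        refine this.congr_deriv ?_
        ring
      have h2 : HasDerivAt (fun x : ℝ => x + 1) 1 x := (hasDerivAt_id x).add_const 1
      exact (Real.hasDerivAt_log hx0.ne').sub (h1.div h2 (by linarith))
    · intro x hx
      have hx1 : (1:ℝ) ≤ x := hx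
      have hx0 : 0 < x := by linarith
      have e : x⁻¹ - (2 * (x + 1) - 2 * (x - 1) * 1) / (x + 1) ^ 2 =
          (x - 1) ^ 2 / (x * (x + 1) ^ 2) := by
        field_simp
        ring
      rw [e]
      positivity
  have h := hmono (Set.mem_Ici.2 le_rfl) (Set.mem_Ici.2 hz) hz
  simp only [Real.log_one] at h
  norm_num at h
  linarith

theorem logok_def {x j : ℕ} (h : logok x j = true) : rk j ≤ x ∧ 16777216 ≤ x ∧ j < 1024 := by
  unfold logok at h
  simp only [Bool.and_eq_true, Nat.blt_eq, Nat.ble_eq] at h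
  exact h

theorem loglo_sound {x j : ℕ} (h : logok x j = true) : va (loglo x j) ≤ Real.log (va x) := by
  obtain ⟨h1, h2, h3⟩ := logok_def h
  have hx1 : 1 ≤ va x := by
    have := va_le h2
    rwa [va_S] at this
  have hlog0 : 0 ≤ Real.log (va x) := Real.log_nonneg hx1
  unfold loglo
  rcases le_total (lk j) (134217728 + 2 * (x - rk j) * 16777216 / (x + rk j)) with h4 | h4
  · rw [va_sub_of_le h4, va_add]
    have e8 : va 134217728 = 8 := by norm_num [va]
    have hr : 0 < va (rk j) := va_pos (rk_pos h3)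
    have hrN : (0 : ℝ) < rk j := by exact_mod_cast rk_pos h3
    have hxN : (0 : ℝ) < x := by
      have : 0 < x := by omega
      exact_mod_cast this
    have hL : -Real.log (va (rk j)) ≤ va (lk j) - 8 := neg_log_rk_le h3
    have h5 := div_le_cast (2 * (x - rk j) * 16777216) (x + rk j)
    have h6 : va (2 * (x - rk j) * 16777216 / (x + rk j)) ≤
        2 * ((x : ℝ) - rk j) / (x + rk j) := by
      unfold va
      rw [div_le_iff₀ (by norm_num)]
      refine h5.trans (le_of_eq ?_)
      rw [Nat.cast_mul, Nat.cast_mul, Nat.cast_sub h1]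
      push_cast
      ring
    have h7 : 1 ≤ (x : ℝ) / rk j := by
      rw [le_div_iff₀ hrN, one_mul]
      exact_mod_cast h1
    have h8 := log_ge_pade h7
    have e9 : 2 * ((x : ℝ) / rk j - 1) / ((x : ℝ) / rk j + 1) =
        2 * ((x : ℝ) - rk j) / (x + rk j) := by
      field_simp
    have e10 : Real.log ((x : ℝ) / rk j) = Real.log (va x) - Real.log (va (rk j)) := by
      rw [← Real.log_div (by linarith) hr.ne']
      congr 1
      unfold va
      field_simp
    rw [e8]
    rw [e9, e10] at h8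
    linarith
  · rw [Nat.sub_eq_zero_of_le h4, va_zero]
    exact hlog0

theorem half_prod_up (b : ℕ) (hb : b ≤ 16777216) :
    va b * (1 - va b) / 2 ≤ va (b * (16777216 - b) / 33554432 + 1) := by
  have h1 := lt_div_add_one (b * (16777216 - b)) 33554432 (by norm_num)
  have h2 := div_le_div_of_nonneg_right h1 (by norm_num : (0:ℝ) ≤ 16777216)
  refine le_trans (le_of_eq ?_) h2
  rw [Nat.cast_mul, Nat.cast_sub hb]
  unfold va
  push_cast
  ring

theorem half_prod_dn (b : ℕ) (hb : b ≤ 16777216) :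
    va (b * (16777216 - b) / 33554432) ≤ va b * (1 - va b) / 2 := by
  have h1 := div_le_cast (b * (16777216 - b)) 33554432
  have h2 := div_le_div_of_nonneg_right h1 (by norm_num : (0:ℝ) ≤ 16777216)
  refine h2.trans (le_of_eq ?_)
  rw [Nat.cast_mul, Nat.cast_sub hb]
  unfold va
  push_cast
  ring

theorem two_le_of {b : ℕ} (h : 2 * b ≤ 16777216) : va b ≤ 1 / 2 := by
  have := va_le h
  rw [va_nmul, va_S] at this
  push_cast at this
  linarith

theorem two_ge_of {b : ℕ} (h : 16777216 ≤ 2 * b) : 1 / 2 ≤ va b := by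
  have := va_le h
  rw [va_nmul, va_S] at this
  push_cast at this
  linarith

theorem muhi_ge {J : JP} (hJ : JR J) {a : ℝ} (hb0 : va J.b0 ≤ 1 - a) (hb1 : 1 - a ≤ va J.b1) :
    1 + a * (1 - a) / 2 ≤ va (muhi J) := by
  unfold muhi
  cases h1 : Nat.ble (2 * J.b1) 16777216
  · rw [cond_false]
    cases h2 : Nat.ble 16777216 (2 * J.b0)
    · rw [cond_false]
      have e : va 18874368 = 9 / 8 := by norm_num [va]
      rw [e]
      nlinarith [sq_nonneg (a - 1 / 2)]
    · rw [cond_true, add_assoc, va_add, va_S]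
      have h3 := two_ge_of (Nat.le_of_ble_eq_true h2)
      have h4 := half_prod_up J.b0 (hJ.b01.trans hJ.b1).le
      nlinarith [mul_nonneg (sub_nonneg.2 hb0) (by linarith : 0 ≤ 1 - a + va J.b0 - 1)]
  · rw [cond_true, add_assoc, va_add, va_S]
    have h3 := two_le_of (Nat.le_of_ble_eq_true h1)
    have h4 := half_prod_up J.b1 hJ.b1.le
    nlinarith [mul_nonneg (sub_nonneg.2 hb1) (by linarith : 0 ≤ 1 - (1 - a) - va J.b1)]

theorem mulo_le {J : JP} (hJ : JR J) {a : ℝ} (ha0 : 0 < a) (hb0 : va J.b0 ≤ 1 - a)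
    (hb1 : 1 - a ≤ va J.b1) : va (mulo J) ≤ 1 + a * (1 - a) / 2 := by
  unfold mulo
  cases h1 : Nat.ble (2 * J.b1) 16777216
  · rw [cond_false]
    cases h2 : Nat.ble 16777216 (2 * J.b0)
    · rw [cond_false, va_S]
      have := va_nonneg J.b0
      have : 0 ≤ a * (1 - a) := mul_nonneg ha0.le (by linarith)
      linarith
    · rw [cond_true, va_add, va_S]
      have h3 := two_ge_of (Nat.le_of_ble_eq_true h2)
      have h4 := half_prod_dn J.b1 hJ.b1.le
      nlinarith [mul_nonneg (sub_nonneg.2 hb1) (by linarith : 0 ≤ 1 - a + va J.b1 - 1)]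
  · rw [cond_true, va_add, va_S]
    have h3 := two_le_of (Nat.le_of_ble_eq_true h1)
    have h4 := half_prod_dn J.b0 (hJ.b01.trans hJ.b1).le
    have hb01 := va_lt hJ.b01
    nlinarith [mul_nonneg (sub_nonneg.2 hb0) (by linarith : 0 ≤ 1 - (1 - a) - va J.b0)]

theorem zarg3 {J : JP} {N : ℕ} (hf : Nat.beq J.form 3 = true) :
    zarg J N = 16777216 + mu (N * J.b0) (muhi J) := by
  unfold zarg; rw [hf, cond_true]

theorem zarg4 {J : JP} {N : ℕ} (hf : Nat.beq J.form 3 = false) :
    zarg J N = 16777216 + md (N * J.b1) (mulo J) := by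
  unfold zarg; rw [hf, cond_false]

theorem rowK30 {J : JP} {N j : ℕ} (hf : Nat.beq J.form 3 = true) (h0 : Nat.beq J.b0 0 = true) :
    rowK J N j = (N * N * mu (muhi J) (muhi J) / 2 + 1) -
      N * (16777216 + (16777216 - J.b1) / 2) := by
  unfold rowK; rw [hf, cond_true, h0, cond_true]

theorem rowK31 {J : JP} {N j : ℕ} (hf : Nat.beq J.form 3 = true) (h0 : Nat.beq J.b0 0 = false) :
    rowK J N j = ((zarg J N - 16777216 - loglo (zarg J N) j) * 281474976710656 /
      (J.b0 * J.b0) + 1) - N * (16777216 + (16777216 - J.b1) / 2) := by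
  unfold rowK; rw [hf, cond_true, h0, cond_false]

theorem rowK4 {J : JP} {N j : ℕ} (hf : Nat.beq J.form 3 = false) :
    rowK J N j = loglo (zarg J N) j * 16777216 / J.b1 := by
  unfold rowK; rw [hf, cond_false]

theorem tailN_le {J : JP} (hJ : JR J) (N : ℕ) :
    va (N * (16777216 + (16777216 - J.b1) / 2)) ≤ N * (1 + (1 - va J.b1) / 2) := by
  rw [va_nmul, va_add, va_S]
  have h1 := va_div_dn (16777216 - J.b1) 2
  rw [hJ.va_b1] at h1
  push_cast at h1
  exact mul_le_mul_of_nonneg_left (by linarith) (Nat.cast_nonneg N)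

theorem rowK_sound {J : JP} (hJ : JR J) {N j : ℕ} (hN : 0 < N) (hj : logok (zarg J N) j = true)
    {a Δ : ℝ} {y X : Fin N → ℝ} (h : FV N a Δ y X) (hb0 : va J.b0 ≤ 1 - a)
    (hb1 : 1 - a ≤ va J.b1) :
    RK J (rowK J N j) (∑ l, rho (Nat.beq J.form 3) (1 - a) (y l) (X l)) := by
  have hlog := loglo_sound hj
  have hNr : (0 : ℝ) < N := by exact_mod_cast hN
  have hmu := muhi_ge hJ hb0 hb1
  refine ⟨fun hf => ?_, fun hf => ?_⟩
  · rw [hf]
    simp only [rho, cond_true]
    have htail := tailN_le hJ N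
    cases h0 : Nat.beq J.b0 0
    · -- b0 > 0
      have hb00 : 0 < J.b0 := by
        rcases Nat.eq_zero_or_pos J.b0 with h1 | h1
        · rw [h1] at h0; exact absurd h0 (by decide)
        · exact h1
      have hb0p : 0 < va J.b0 := va_pos hb00
      have hb0r : (0 : ℝ) < J.b0 := by exact_mod_cast hb00
      rw [rowK31 hf h0]
      rw [zarg3 hf] at hlog ⊢
      obtain ⟨Z, hZ⟩ : ∃ Z, Z = mu (N * J.b0) (muhi J) := ⟨_, rfl⟩
      obtain ⟨ell, hell⟩ : ∃ ell, ell = loglo (16777216 + mu (N * J.b0) (muhi J)) j := ⟨_, rfl⟩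
      rw [← hell, ← hZ] at hlog
      rw [← hell, ← hZ, Nat.add_sub_cancel_left]
      have hmu1 : 0 < va (muhi J) := by
        have : 0 ≤ a * (1 - a) := mul_nonneg h.a0.le (by linarith [h.a1])
        linarith
      have hZv : N * va J.b0 * va (muhi J) ≤ va Z := by
        have := va_mu (N * J.b0) (muhi J)
        rwa [va_nmul, ← hZ] at this
      have hZ0 : 0 < va J.b0 * N * va (muhi J) := by positivity
      have hgg : gg (va J.b0 * N * va (muhi J)) ≤ gg (va Z) :=
        gg_mono hZ0.le (by linarith)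
      rw [va_add, va_S] at hlog
      refine h.form3_cell (ell := Real.log (1 + va J.b0 * N * va (muhi J))) hb0p hb0 hb1 hNr hmu
        le_rfl ?_
      refine le_trans ?_ (va_sub _ _)
      have h1 : gg (va Z) ≤ va Z - va ell := by unfold gg; linarith
      have h2 : (va Z - va ell) / va J.b0 ^ 2 ≤
          va ((Z - ell) * 281474976710656 / (J.b0 * J.b0) + 1) := by
        have h3 := lt_div_add_one ((Z - ell) * 281474976710656) (J.b0 * J.b0) (by positivity)
        have h4 := div_le_div_of_nonneg_right h3 (by norm_num : (0:ℝ) ≤ 16777216)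
        refine le_trans ?_ h4
        have h5 : va Z - va ell ≤ va (Z - ell) := va_sub _ _
        have h6 : (va Z - va ell) / va J.b0 ^ 2 ≤ va (Z - ell) / va J.b0 ^ 2 :=
          div_le_div_of_nonneg_right h5 (by positivity)
        refine h6.trans (le_of_eq ?_)
        rw [Nat.cast_mul (Z - ell)]
        unfold va
        push_cast
        field_simp
        norm_num
      have h7 : va (muhi J) ^ 2 * N ^ 2 * (va J.b0 * N * va (muhi J) -
          Real.log (1 + va J.b0 * N * va (muhi J))) / (va J.b0 * N * va (muhi J)) ^ 2 =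
          gg (va J.b0 * N * va (muhi J)) / va J.b0 ^ 2 := by
        unfold gg
        field_simp
      rw [h7]
      have h8 : gg (va J.b0 * N * va (muhi J)) / va J.b0 ^ 2 ≤
          (va Z - va ell) / va J.b0 ^ 2 :=
        div_le_div_of_nonneg_right (hgg.trans h1) (by positivity)
      linarith
    · rw [rowK30 hf h0]
      refine h.form3_cell0 (mu1 := va (muhi J)) hb1 hmu ?_
      refine le_trans ?_ (va_sub _ _)
      have h1 := va_div_up (N * N * mu (muhi J) (muhi J)) 2 (by norm_num)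
      have h2 := va_mu (muhi J) (muhi J)
      rw [va_nmul (N * N)] at h1
      push_cast at h1
      have h3 : (N : ℝ) * N * (va (muhi J) * va (muhi J)) ≤
          N * N * va (mu (muhi J) (muhi J)) :=
        mul_le_mul_of_nonneg_left h2 (by positivity)
      nlinarith
  · rw [hf]
    simp only [rho, cond_false]
    rw [rowK4 hf]
    rw [zarg4 hf] at hlog ⊢
    have hb1p : 0 < va J.b1 := lt_of_lt_of_le (by linarith [h.a1]) hb1
    have hb10 : 0 < J.b1 := lt_of_le_of_lt (Nat.zero_le _) hJ.b01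
    have hb1r : (0 : ℝ) < J.b1 := by exact_mod_cast hb10
    obtain ⟨ell, hell⟩ : ∃ ell, ell = loglo (16777216 + md (N * J.b1) (mulo J)) j := ⟨_, rfl⟩
    rw [← hell] at hlog ⊢
    refine h.form4_cell (mu0 := va (mulo J)) hb1 (va_nonneg _)
      (mulo_le hJ h.a0 hb0 hb1) ?_
    have h1 : va (ell * 16777216 / J.b1) * va J.b1 ≤ va ell := by
      have h2 := div_le_cast (ell * 16777216) J.b1
      have h3 : va (ell * 16777216 / J.b1) ≤ va ell / va J.b1 := by
        have h4 := div_le_div_of_nonneg_right h2 (by norm_num : (0:ℝ) ≤ 16777216)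
        refine h4.trans (le_of_eq ?_)
        unfold va
        push_cast
        field_simp
      rwa [le_div_iff₀ hb1p] at h3
    refine h1.trans (hlog.trans ?_)
    refine Real.log_le_log ?_ ?_
    · rw [va_add, va_S]
      have := va_nonneg (md (N * J.b1) (mulo J))
      linarith
    · rw [va_add, va_S]
      have := va_md (N * J.b1) (mulo J)
      rw [va_nmul] at this
      linarith

theorem nok_def {J : JP} {cF : Option TC} {cs : List TC} {n : NJ}
    (h : nok J cF cs n = true) :
    logok (zarg J n.N) n.jK = true ∧ logok (33554432 - J.b1) n.ja = true ∧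
      n.kD0 < 1024 ∧ n.kD1 < 1024 ∧ 0 < n.N := by
  unfold nok at h
  simp only [Bool.and_eq_true, Nat.blt_eq] at h
  exact h.1

theorem nok_none {J : JP} {cs : List TC} {n : NJ} (h : nok J none cs n = true) :
    gsum J n.N (rowK J n.N n.jK) (loglo (33554432 - J.b1) n.ja)
      (lk n.kD1 - 134217728) n.kD1 0 cs n.gs
      (mu (16777216 - J.b0) (rk n.kD0) * n.N / (n.N + 1) + 1 + rk n.kD0) = true := by
  unfold nok at h
  simp only [Bool.and_eq_true] at h
  exact h.2

theorem nok_some {J : JP} {c : TC} {cs : List TC} {n : NJ}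
    (h : nok J (some c) cs n = true) :
    (vchk J n.N (rowK J n.N n.jK) (loglo (33554432 - J.b1) n.ja)
        (lk n.kD1 - 134217728) n.kD1 c.na n.gF = true ∧
      vchk J n.N (rowK J n.N n.jK)
        (loglo (33554432 - J.b1) n.ja) (lk n.kD1 - 134217728) n.kD1 c.nb n.gF = true) ∧
    gsum J n.N (rowK J n.N n.jK) (loglo (33554432 - J.b1) n.ja)
      (lk n.kD1 - 134217728) n.kD1 0 cs n.gs
      (mu (16777216 - J.b0) (rk n.kD0) * n.N / (n.N + 1) + 1 + rg n.gF) = true := by
  unfold nok at h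
  simp only [Bool.and_eq_true] at h
  exact h.2

theorem tail_le {J : JP} {N r : ℕ} {a Δ : ℝ} (ha1 : a ≤ va (16777216 - J.b0))
    (hr : Real.exp (-Δ) ≤ va r) :
    a * (N / (N + 1)) * Real.exp (-Δ) ≤
      va (mu (16777216 - J.b0) r * N / (N + 1) + 1) := by
  have h1 := va_div_up (mu (16777216 - J.b0) r * N) (N + 1) (Nat.succ_pos N)
  refine le_trans ?_ h1
  have h2 : a * Real.exp (-Δ) ≤ va (mu (16777216 - J.b0) r) :=
    va_mu_le ha1 hr (Real.exp_pos _).le
  have e : va (mu (16777216 - J.b0) r * N) / ((N + 1 : ℕ) : ℝ) =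
      va (mu (16777216 - J.b0) r) * (N / (N + 1)) := by
    rw [mul_comm (mu _ _) N, va_nmul]
    push_cast
    ring
  rw [e]
  have h3 := mul_le_mul_of_nonneg_right h2 (by positivity : (0:ℝ) ≤ (N : ℝ) / (N + 1))
  linarith

theorem jobok_def {j : Job} (h : j.ok = true) :
    jok j.J = true ∧ (∀ c, j.cF = some c → fcell j.J j.ymax j.tF c = true) ∧
    (tcells j.J j.ymax 0 j.cs = true ∧ j.ns.all (nok j.J j.cF j.cs) = true) := by
  unfold Job.ok at h
  simp only [Bool.and_eq_true] at h
  obtain ⟨h1, h2, h3⟩ := h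
  refine ⟨h1, fun c hc => ?_, h3⟩
  rw [hc] at h2
  exact h2

/-- soundness of the certificate checker -/
theorem Job.sound (j : Job) (hj : j.ok = true) : ∀ n ∈ j.ns, ∀ (a Δ : ℝ) (y X : Fin n.N → ℝ),
    FV n.N a Δ y X → (j.J.b0 : ℝ) / 16777216 ≤ 1 - a → 1 - a ≤ (j.J.b1 : ℝ) / 16777216 →
    (lk n.kD0 : ℝ) / 16777216 - 8 ≤ Δ →
    (n.kD1 = 0 ∨ Δ ≤ (lk n.kD1 : ℝ) / 16777216 - 8) →
    (∀ k, y k ≤ (j.ymax : ℝ) / 16777216) → False := by
  intro n hn a Δ y X h hb0 hb1 hD0 hD1 hyle
  obtain ⟨hjok, hF, ht, hns⟩ := jobok_def hj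
  have hJ := jok_sound hjok
  have hnok := List.all_eq_true.1 hns n hn
  obtain ⟨hjK, hja, hkD0, hkD1, hN⟩ := nok_def hnok
  have hb0' : va j.J.b0 ≤ 1 - a := hb0
  have hb1' : 1 - a ≤ va j.J.b1 := hb1
  have ha0 := h.a0
  have ha1 := h.a1
  have hNr : (0 : ℝ) < n.N := by exact_mod_cast hN
  have haS : a ≤ va (16777216 - j.J.b0) := by rw [hJ.va_b0]; linarith
  have hymax : 0 < j.ymax := by
    rcases Nat.eq_zero_or_pos j.ymax with h0 | h0
    · exfalso
      have h1 : ∀ l, y l ≤ 0 := fun l => by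
        have := hyle l
        rw [h0] at this
        simpa using this
      have h2 : a * n.N ≤ 0 := by
        rw [← h.sum]
        exact Finset.sum_nonpos fun l _ => h1 l
      have h3 : 0 < a * n.N := by positivity
      linarith
    · exact h0
  have hZ : ZF j.J j.ymax a y X := by
    refine ⟨by linarith, hb0', hb1', h.y0, hyle, h.X0, fun l => ?_, fun l => h.E_pos l⟩
    have hgl := h.gl l
    have hk := hJ.ka1
    have hkn := va_nonneg j.J.ka
    have hb1lt := hJ.va_b1_lt
    have hX0 := h.X0 l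
    have hy0 := h.y0 l
    have h1 : 1 ≤ va j.J.ka * a := hk.trans (mul_le_mul_of_nonneg_left (by linarith) hkn)
    have h2 : X l ≤ va j.J.ka * (a * X l) := by nlinarith
    have h3 : a * X l ≤ y l + va j.J.b1 * y l ^ 2 / 2 := by
      have := mul_le_mul_of_nonneg_right hb1' (sq_nonneg (y l))
      linarith
    exact h2.trans (mul_le_mul_of_nonneg_left h3 hkn)
  have hK := rowK_sound hJ hN hjK h hb0' hb1'
  have hla : va (loglo (33554432 - j.J.b1) n.ja) ≤ Real.log (1 + a) := by
    refine (loglo_sound hja).trans ?_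
    have hb := hJ.b1
    have hb1lt := hJ.va_b1_lt
    rw [va_sub_of_le (by omega), show va 33554432 = 2 by norm_num [va]]
    exact Real.log_le_log (by linarith) (by linarith)
  have hD : 0 < n.kD1 → Δ ≤ va (lk n.kD1 - 134217728) := by
    intro h0
    rcases hD1 with h1 | h1
    · omega
    · refine h1.trans ?_
      have := va_sub (lk n.kD1) 134217728
      rw [show va 134217728 = 8 by norm_num [va]] at this
      exact this
  have hexp : Real.exp (-Δ) ≤ va (rk n.kD0) := by
    have h1 : -Real.log (va (rk n.kD0)) ≤ va (lk n.kD0) - 8 := neg_log_rk_le hkD0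
    rw [← Real.le_log_iff_exp_le (va_pos (rk_pos hkD0))]
    have h2 : va (lk n.kD0) - 8 ≤ Δ := hD0
    linarith
  have htail := tail_le (N := n.N) haS hexp
  have hcrit := h.critY
  have hc0 : ∫ τ in (0:ℝ)..(a / (1 + a)), τ * ∑ k, (1 + y k) ^ 2 *
      ∏ l ∈ univ.erase k, AA (y l) (X l) τ = ∫ τ in (0:ℝ)..(a / (1 + a)), Fi y X τ := rfl
  rw [hc0] at hcrit
  have hend0 : 0 ≤ a / (1 + a) := by positivity
  -- the common conclusion
  have concl : ∀ P : ℕ, ∏ l, AA (y l) (X l) (a / (1 + a)) ≤ va P →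
      gsum j.J n.N (rowK j.J n.N n.jK) (loglo (33554432 - j.J.b1) n.ja)
          (lk n.kD1 - 134217728) n.kD1 0 j.cs n.gs
          (mu (16777216 - j.J.b0) (rk n.kD0) * n.N / (n.N + 1) + 1 + P) = true → False := by
    intro P hP hgs
    obtain ⟨te, h1, -, h3⟩ := cells_sound hJ h hZ hymax hK hla hD j.cs n.gs 0 _ ht hgs
    rw [va_zero, va_add] at h3
    have h4 : ∫ τ in (0:ℝ)..(a / (1 + a)), Fi y X τ ≤ ∫ τ in (0:ℝ)..te, Fi y X τ := by
      rw [← intervalIntegral.integral_add_adjacent_intervals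
        ((Fi_cont y X).intervalIntegrable 0 (a / (1 + a)))
        ((Fi_cont y X).intervalIntegrable (a / (1 + a)) te)]
      have : 0 ≤ ∫ τ in (a / (1 + a))..te, Fi y X τ :=
        intervalIntegral.integral_nonneg h1 fun τ hτ => Fi_nonneg y X (hend0.trans hτ.1)
      linarith
    linarith
  cases hcF : j.cF with
  | none =>
    rw [hcF] at hnok
    exact concl _ ((prod_AA_le h).trans hexp) (nok_none hnok)
  | some c =>
    rw [hcF] at hnok
    obtain ⟨⟨hva, hvb⟩, hg⟩ := nok_some hnok
    exact concl _ (fcell_sound hJ h hZ hymax hK hla hD (hF c hcF) hva hvb) hg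

end Pool.Agent.Lib.MP_172a45_an.LP
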