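import Pool.Agent.Lib.MP_172a45_an.LP.CovD
import Pool.Agent.Lib.MP_172a45_an.LP.Sound5

set_option autoImplicit false

/-!
# Chains of jobs: all `b ∈ (0, 1)` for one `N` and one interval of `Δ`
-/

namespace Pool.Agent.Lib.MP_172a45_an.LP

open Finset Real Pool.Agent.Lib.MP_172a45_an.F

variable {N : ℕ} {a Δ : ℝ} {y X : Fin N → ℝ}

/-- one large `T` forces a large `Δ` -/
theorem T_le (h : FV N a Δ y X) (k : Fin N) :
    (1 + y k) / (1 + a) - 1 - Real.log ((1 + y k) / (1 + a)) ≤ Δ := by
  have ha := h.a0
  have hpos : ∀ l, 0 < (1 + y l) / (1 + a) := fun l => by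
    have := h.y0 l
    positivity
  have h1 : ∑ l, ((1 + y l) / (1 + a) - 1 - Real.log ((1 + y l) / (1 + a))) = Δ := by
    have e : ∀ l, Real.log ((1 + y l) / (1 + a)) = Real.log (1 + y l) - Real.log (1 + a) :=
      fun l => Real.log_div (by have := h.y0 l; linarith) (by linarith)
    simp only [e, Finset.sum_sub_distrib, ← Finset.sum_div, Finset.sum_add_distrib, h.sum,
      h.sumlog]
    simp only [Finset.sum_const, Finset.card_univ, Fintype.card_fin, nsmul_eq_mul, mul_one]
    field_simp
    ring
  rw [← h1]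
  refine Finset.single_le_sum (f := fun l => (1 + y l) / (1 + a) - 1 -
    Real.log ((1 + y l) / (1 + a))) (fun l _ => ?_) (Finset.mem_univ k)
  have := Real.log_le_sub_one_of_pos (hpos l)
  linarith

theorem T_cap (h : FV N a Δ y X) {tc kt k1 : ℕ} (htc : tcok tc kt k1 = true)
    (hD : Δ ≤ va (lk k1) - 8) (k : Fin N) : 1 + y k ≤ (1 + a) * va tc := by
  unfold tcok at htc
  simp only [Bool.and_eq_true, Nat.ble_eq, Nat.blt_eq] at htc
  obtain ⟨⟨h1, h2⟩, h3⟩ := htc
  by_contra hcon
  rw [not_le] at hcon
  have ha := h.a0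
  set t := (1 + y k) / (1 + a) with ht
  have htc1 : 1 ≤ va tc := by
    have := va_le h1
    rwa [va_S] at this
  have h4 : va tc < t := by
    rw [ht, lt_div_iff₀ (by linarith)]
    linarith
  have h5 := T_le h k
  rw [← ht] at h5
  have h6 : Real.log (va tc) ≤ (va (lk kt) - 8) + va tc * va (rk kt) - 1 := by
    have hr : 0 < va (rk kt) := va_pos (rk_pos h2)
    have hL : -Real.log (va (rk kt)) ≤ va (lk kt) - 8 := neg_log_rk_le h2
    have := log_le_del (by linarith : 0 < va tc) hr hL
    linarith
  have htpos : 0 < t := by linarith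
  have htcpos : 0 < va tc := by linarith
  have h9 : t / va tc - 1 ≤ t - va tc := by
    have e : t / va tc - 1 = (t - va tc) / va tc := by field_simp
    rw [e]
    exact div_le_self (by linarith) htc1
  have h10 := va_mu tc (rk kt)
  have h11 := va_le h3
  rw [va_add, va_add, va_add, show va 268435456 = 16 by norm_num [va]] at h11
  -- strictness
  have hlt : Real.log t < Real.log (va tc) + (t - va tc) := by
    have h12 : Real.log (t / va tc) < t / va tc - 1 := by
      refine Real.log_lt_sub_one_of_pos (div_pos htpos htcpos) ?_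
      intro h13
      rw [div_eq_one_iff_eq (by linarith)] at h13
      linarith
    rw [Real.log_div (by linarith) (by linarith)] at h12
    linarith
  linarith

theorem end_real (h : FV N a Δ y X) (hN : 0 < N) {v l : ℝ} (hv : 1 / 2 ≤ v) (hb : v ≤ 1 - a)
    (hl : l ≤ Real.log (1 + N * v)) (hlt : N * ((1 - v) * v) < l) : False := by
  have ha := h.a0
  have hbp : 0 < 1 - a := h.b_pos
  have hNr : (0 : ℝ) < N := by exact_mod_cast hN
  have h5 : Real.log (1 + (1 - a) * N * (1 + a * (1 - a) / 2)) ≤ (1 - a) * (a * N) := by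
    refine h.rw'.trans ?_
    rw [← h.sum, Finset.mul_sum]
    refine Finset.sum_le_sum fun k _ => ?_
    have hy := h.y0 k
    have hX := h.X0 k
    have hE := h.rwpos k
    have h6 : Real.log ((1 + (1 - a) * y k) ^ 2 - 2 * a * (1 - a) * X k) ≤
        Real.log ((1 + (1 - a) * y k) ^ 2) := by
      refine Real.log_le_log (by linarith) ?_
      have : 0 ≤ 2 * a * (1 - a) * X k := by positivity
      linarith
    rw [Real.log_pow] at h6
    have h7 : Real.log (1 + (1 - a) * y k) ≤ (1 - a) * y k := by
      have := Real.log_le_sub_one_of_pos (by positivity : 0 < 1 + (1 - a) * y k)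
      linarith
    push_cast at h6
    linarith
  have h9 : Real.log (1 + N * v) ≤ Real.log (1 + (1 - a) * N * (1 + a * (1 - a) / 2)) := by
    have hv0 : 0 < v := by linarith
    refine Real.log_le_log (by positivity) ?_
    have h10 : (N : ℝ) * v ≤ (1 - a) * N := by
      rw [mul_comm]
      exact mul_le_mul_of_nonneg_right hb hNr.le
    have h11 : 0 ≤ (1 - a) * N * (a * (1 - a) / 2) := by positivity
    nlinarith
  have h15 : (1 - a) * a ≤ (1 - v) * v := by nlinarith
  have h17 := mul_le_mul_of_nonneg_left h15 hNr.le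
  nlinarith

/-- nothing for `b ≥ be` -/
theorem end_false (h : FV N a Δ y X) {be j : ℕ} (he : endok N be j = true) (hb : va be ≤ 1 - a) :
    False := by
  unfold endok at he
  obtain ⟨z, hz⟩ : ∃ z, z = 16777216 + N * be := ⟨_, rfl⟩
  rw [← hz] at he
  obtain ⟨L, hL⟩ : ∃ L, L = loglo z j := ⟨_, rfl⟩
  rw [← hL] at he
  simp only [Bool.and_eq_true, Nat.ble_eq, Nat.blt_eq] at he
  obtain ⟨⟨⟨h1, h2⟩, h3, hN⟩, h4⟩ := he
  have h8 := loglo_sound h3
  rw [← hL, hz, va_add, va_S, va_nmul] at h8
  refine end_real h hN (v := va be) (l := va L) ?_ hb h8 ?_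
  · have := va_le h1
    rwa [show va 8388608 = 1 / 2 by norm_num [va]] at this
  · have h13 : ((N * ((16777216 - be) * be) : ℕ) : ℝ) < ((L * 16777216 : ℕ) : ℝ) := by
      exact_mod_cast h4
    rw [Nat.cast_mul, Nat.cast_mul, Nat.cast_sub h2.le, Nat.cast_mul] at h13
    have h14 := div_lt_div_of_pos_right h13 (by norm_num : (0:ℝ) < 16777216 * 16777216)
    calc _ = _ := ?_
      _ < _ := h14
      _ = _ := ?_
    · unfold va; push_cast; field_simp
    · unfold va; push_cast; field_simp

/-- all `b` -/
theorem chain_false {Ds : List ℕ} (hok : ∀ D ∈ Ds, (decJob D).ok = true) {k0 k1 tc kt be j : ℕ}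
    (htc : tcok tc kt k1 = true) (he : endok N be j = true) :
    ∀ (b : ℕ), chain N k0 k1 tc be b Ds = true → ∀ {a Δ : ℝ} {y X : Fin N → ℝ},
    FV N a Δ y X → va b ≤ 1 - a → va (lk k0) - 8 ≤ Δ → Δ ≤ va (lk k1) - 8 → False := by
  induction Ds with
  | nil =>
    intro b hc a Δ y X h hb _ _
    rw [chain] at hc
    exact end_false h he ((va_le (Nat.le_of_ble_eq_true hc)).trans hb)
  | cons D Ds ih =>
    intro b hc a Δ y X h hb hD0 hD1
    rw [chain] at hc
    simp only [Bool.and_eq_true, Bool.or_eq_true, Nat.ble_eq, List.any_eq_true] at hc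
    obtain ⟨⟨hb0, hym, n, hn, hnN⟩, hrest⟩ := hc
    rcases le_total (1 - a) (va (decJob D).J.b1) with hb1 | hb1
    · unfold hasN at hnN
      simp only [Bool.and_eq_true] at hnN
      obtain ⟨e1, e2, e3⟩ := hnN
      have e1 := Nat.eq_of_beq_eq_true e1
      have e2 := Nat.eq_of_beq_eq_true e2
      have e3 := Nat.eq_of_beq_eq_true e3
      subst e1
      refine Job.sound (decJob D) (hok D List.mem_cons_self) n hn a Δ y X h
        ((va_le hb0).trans hb) hb1 ?_ (Or.inr ?_) fun k => ?_
      · rw [e2]; exact hD0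
      · rw [e3]; exact hD1
      · have h1 := T_cap h htc hD1 k
        have hb' : va (decJob D).J.b0 ≤ 1 - a := (va_le hb0).trans hb
        have htc0 := va_nonneg tc
        have hJb1 : (decJob D).J.b0 ≤ 16777216 := by
          have h2 := (jok_sound (jobok_def (hok D List.mem_cons_self)).1).b01
          have h3 := (jok_sound (jobok_def (hok D List.mem_cons_self)).1).b1
          omega
        have hJb : (decJob D).J.b0 ≤ 33554432 := by omega
        rcases hym with hym | hym
        · have h2 : y k ≤ n.N * a := by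
            rw [mul_comm, ← h.sum]
            exact Finset.single_le_sum (f := y) (fun l _ => h.y0 l) (Finset.mem_univ k)
          have h5 : (((n.N * (16777216 - (decJob D).J.b0)) : ℕ) : ℝ) ≤
              (((decJob D).ymax : ℕ) : ℝ) := by exact_mod_cast hym
          rw [Nat.cast_mul, Nat.cast_sub hJb1] at h5
          push_cast at h5
          have h6 := div_le_div_of_nonneg_right h5 (by norm_num : (0:ℝ) ≤ 16777216)
          have h7 : (n.N : ℝ) * (1 - va (decJob D).J.b0) ≤ va (decJob D).ymax := by
            calc _ = _ := ?_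
              _ ≤ _ := h6
              _ = _ := ?_
            · unfold va; field_simp
            · unfold va; field_simp
          have h8 : (n.N : ℝ) * a ≤ (n.N : ℝ) * (1 - va (decJob D).J.b0) :=
            mul_le_mul_of_nonneg_left (by linarith) (Nat.cast_nonneg _)
          exact h2.trans (h8.trans h7)
        have h4 : (2 - va (decJob D).J.b0) * va tc ≤ va (decJob D).ymax + 1 := by
          have h5 : (((33554432 - (decJob D).J.b0) * tc : ℕ) : ℝ) ≤
              ((((decJob D).ymax + 16777216) * 16777216 : ℕ) : ℝ) := by exact_mod_cast hym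
          rw [Nat.cast_mul, Nat.cast_sub hJb] at h5
          push_cast at h5
          have h6 := div_le_div_of_nonneg_right h5 (by norm_num : (0:ℝ) ≤ 16777216 * 16777216)
          calc _ = _ := ?_
            _ ≤ _ := h6
            _ = _ := ?_
          · unfold va; field_simp; ring
          · unfold va; field_simp
        have h7 : (1 + a) * va tc ≤ (2 - va (decJob D).J.b0) * va tc :=
          mul_le_mul_of_nonneg_right (by linarith) htc0
        have : y k ≤ va (decJob D).ymax := by linarith
        exact this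
    · exact ih (fun D' hD' => hok D' (List.mem_cons_of_mem _ hD')) _ hrest h hb1 hD0 hD1

theorem cov_false {Ds : List ℕ} (hok : ∀ D ∈ Ds, (decJob D).ok = true) {k0 k1 tc kt be j : ℕ}
    (hc : covok N k0 k1 tc kt be j Ds = true) (h : FV N a Δ y X)
    (hD0 : va (lk k0) - 8 ≤ Δ) (hD1 : Δ ≤ va (lk k1) - 8) : False := by
  unfold covok at hc
  simp only [Bool.and_eq_true, Nat.blt_eq] at hc
  obtain ⟨⟨_, h2⟩, h3, h4⟩ := hc
  refine chain_false hok h2 h3 0 h4 h ?_ hD0 hD1
  rw [va_zero]
  exact h.b_pos.le

end Pool.Agent.Lib.MP_172a45_an.LP
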