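import Pool.Agent.Lib.MP_172a45_an.LP.TabD

set_option autoImplicit false

/-!
# The certificate checker (all numbers are naturals, scale `S = 2^24 = 16777216`)

`mu a b` is an upper bound and `md a b` a lower bound of the product of two scaled numbers.
Quantities with offset 8 (`Y0`, `lk`, the constant `G` of a line) represent `value + 8`.
-/

namespace Pool.Agent.Lib.MP_172a45_an.LP

/-- product rounded up -/
def mu (a b : ℕ) : ℕ := a * b / 16777216 + 1

/-- product rounded down -/
def md (a b : ℕ) : ℕ := a * b / 16777216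

/-- multipliers at one end of a `τ`-cell: `Y0` (offset 8), `Y1` (offset 4: the multiplier of `y`
is `Y1/S - 4`, of either sign), `Z ≥ 0`, `nu ≥ 0` -/
structure Node where
  Y0 : ℕ
  Y1 : ℕ
  Z : ℕ
  nu : ℕ

/-- job parameters: `form = 3` (row `-(b y - log E/2)/b²`) or `form = 4` (row `log E/(2b)`),
the `b`-cell `[b0, b1]`, `xi` (form 3: lower bound of `a0/b1`; form 4: upper bound of `1/b0`),
`ka` (upper bound of `1/a0`), where `a0 = 1 - b1` -/
structure JP where
  form : ℕ
  b0 : ℕ
  b1 : ℕ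
  xi : ℕ
  ka : ℕ

/-- one vertex inequality, at `y` and both `X = 0` and `X = ka (y + b1 y²/2)`:
`G + al D + B T² + ep T + nu (r0 + r1p y - r1n y + r2 y² - rX X) + Z log T ≤ Y0 + (Y1 - 4) y` -/
def vx (G al B ep r0 r1p r1n r2 rX tL tr b1 ka tau : ℕ) (n : Node) (y : ℕ) : Bool :=
  let T := 16777216 + y
  let d := ((281474976710656 - tau * T) + (tau * T - 281474976710656)) / 16777216 + 1
  Nat.ble
    (67108864 * y + G * 16777216 + al * mu d d + B * mu T T + ep * T +
      n.nu * (r0 + mu r1p y + mu r2 (mu y y))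
      + n.Z * (tL + mu tr T)
      + (2 * mu al tau - md n.nu rX) * mu ka (y + mu (mu b1 y) y / 2 + 1))
    (n.Y0 * 16777216 + n.Y1 * y + n.nu * md r1n y + n.Z * 150994944)

/-- the four vertex inequalities of one `y`-cell -/
def vx4 (G al B ep r0 r1p r1n r2 rX tL tr b1 ka t0 t1 : ℕ) (na nb : Node) (y0 y1 : ℕ) : Bool :=
  vx G al B ep r0 r1p r1n r2 rX tL tr b1 ka t0 na y0 &&
  (vx G al B ep r0 r1p r1n r2 rX tL tr b1 ka t0 na y1 &&
  (vx G al B ep r0 r1p r1n r2 rX tL tr b1 ka t1 nb y0 &&
  vx G al B ep r0 r1p r1n r2 rX tL tr b1 ka t1 nb y1))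

/-- the row line, then the vertex inequalities. Form 3: `l` is the parameter of the line
`18 l² + 12 l² b1 y - 6 l y - xi g X`; form 4: `l = 2 k' + rt`. -/
def rowc (J : JP) (G al B ep kp l t0 t1 : ℕ) (na nb : Node) (y0 y1 : ℕ) : Bool :=
  let den := 16777216 + J.b1 * y1 / 16777216 + 1
  let g := 4722366482869645213696 / (den * den)
  let tL := lk kp
  let tr := rk kp
  bif Nat.beq J.form 3 then
    vx4 G al B ep (mu (18 * l) l) (mu (12 * mu l l) J.b1) (6 * l) 0 (md J.xi g) tL tr
      J.b1 J.ka t0 t1 na nb y0 y1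
  else
    let de := rk (l / 2)
    let c := (lk (l / 2) + de) - 150994944
    Nat.blt (l / 2) 1024 &&
      (bif Nat.beq (l % 2) 0 then
        vx4 G al B ep (mu c J.xi / 2 + 1) de 0 (mu de J.b1 / 2 + 1)
          (md de (16777216 - J.b1)) tL tr J.b1 J.ka t0 t1 na nb y0 y1
      else vx4 G al B ep (mu c J.xi) de 0 0 (md (16777216 - J.b1) g) tL tr J.b1 J.ka
          t0 t1 na nb y0 y1)

/-- one `y`-cell `[y0, y1]` of the `τ`-cell `[t0, t1]` (`chi = 1/X0`, `lchi` an upper bound of
`16 + log chi`); `typ` = 1, 2, 3 is the type of the line for `Psi`, `k` its table index -/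
def ycell (J : JP) (t0 t1 chi lchi : ℕ) (na nb : Node) (y0 y1 typ k kp l : ℕ) : Bool :=
  let T0 := 16777216 + y0
  let T1 := 16777216 + y1
  let m := (16777216 - mu t1 T1) + (md t0 T0 - 16777216)
  let w0 := md (md chi T0) T0
  let w1 := mu (mu chi T1) T1
  let r := rk k
  (Nat.ble y0 y1 && (Nat.blt k 1024 && Nat.blt kp 1024)) &&
    (match typ with
    | 1 =>
      let om := mu w1 r
      let rm := md m r
      let v := md rm rm
      let rmu := mu m r
      (Nat.ble (5 * om) 33554432 || (Nat.ble (3 * om) 33554432 && (Nat.ble om rm &&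
          Nat.ble (om * 16777216) ((16777216 - om) * (v + rm))))) &&
        rowc J (lk k + (mu (mu rmu rmu) (mu w0 r) / 2 + 1) - 8388608)
          (mu r r * (16777216 - md w0 r) / 33554432 + 1)
          (mu chi (mu r ((50331648 - v) / 2 + 1))) 0 kp l t0 t1 na nb y0 y1
    | 2 => Nat.blt 0 w0 && rowc J (lchi + 2 * lk k - 419430400)
          (240840690626351905898496 / (1000 * (w0 * w0)) + 1) 0 (2 * r) kp l t0 t1 na nb y0 y1
    | 3 =>
      let al := 9444732965739290427392 / (27 * (w0 * w0)) + 1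
      (Nat.blt 0 w0 && Nat.blt 0 m) &&
        rowc J ((lk k + mu m r) - 16777216 - md (md al m) m) al
          (chi * 16777216 / m + 1) 0 kp l t0 t1 na nb y0 y1
    | _ => false)

/-- all `y`-cells, from `y0` up to at least `ymax`; each word packs
`y1/65536 (14 bits), typ (2), k (10), kp (10), l (20 bits; times 128 in form 3)` -/
def ycells (J : JP) (t0 t1 chi lchi : ℕ) (na nb : Node) (ymax : ℕ) : ℕ → List ℕ → Bool
  | y0, [] => Nat.ble ymax y0
  | y0, w :: ws =>
    let y1 := w % 16384 * 65536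
    let typ := w / 16384 % 4
    let k := w / 65536 % 1024
    let kp := w / 67108864 % 1024
    let l := bif Nat.beq J.form 3 then w / 68719476736 * 128 else w / 68719476736
    ycell J t0 t1 chi lchi na nb y0 y1 typ k kp l &&
      ycells J t0 t1 chi lchi na nb ymax y1 ws

/-- a `τ`-cell (from the right end of the previous one to `t1`) -/
structure TC where
  t1 : ℕ
  chi : ℕ
  kchi : ℕ
  na : Node
  nb : Node
  ys : List ℕ

/-- the pointwise part of a job: all `τ`-cells, covering `[0, a1/(1+a1)]` -/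
def tcells (J : JP) (ymax : ℕ) : ℕ → List TC → Bool
  | t0, [] => Nat.ble ((16777216 - J.b0) * 16777216) (t0 * (33554432 - J.b0))
  | t0, c :: cs =>
    (Nat.blt t0 c.t1 && (Nat.blt 0 c.chi && Nat.blt c.kchi 1024)) &&
      (ycells J t0 c.t1 c.chi (lk c.kchi + 117440512 + mu c.chi (rk c.kchi)) c.na c.nb
        ymax 0 c.ys &&
      tcells J ymax c.t1 cs)

/-- the cell for the product at `τ = a/(1+a)` (`chi = 0`) -/
def fcell (J : JP) (ymax tF : ℕ) (c : TC) : Bool :=
  (Nat.ble (tF * (33554432 - J.b1)) ((16777216 - J.b1) * 16777216) &&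
      (Nat.ble ((16777216 - J.b0) * 16777216) (c.t1 * (33554432 - J.b0)) && Nat.ble tF c.t1)) &&
    ycells J tF c.t1 0 0 c.na c.nb ymax 0 c.ys

/-- parameters of a job are consistent -/
def jok (J : JP) : Bool :=
  Nat.blt J.b0 J.b1 && (Nat.blt J.b1 16777216 &&
    (Nat.ble 281474976710656 (J.ka * (16777216 - J.b1)) &&
      (bif Nat.beq J.form 3 then Nat.ble (J.xi * J.b1) ((16777216 - J.b1) * 16777216)
      else Nat.ble 281474976710656 (J.xi * J.b0))))

/-- lower bound of `log (x / S)` if `rk j ≤ x`, `S ≤ x` -/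
def loglo (x j : ℕ) : ℕ := (134217728 + 2 * (x - rk j) * 16777216 / (x + rk j)) - lk j

/-- validity of the index in `loglo` -/
def logok (x j : ℕ) : Bool := Nat.ble (rk j) x && (Nat.ble 16777216 x && Nat.blt j 1024)

/-- upper bound of `1 + a b / 2` on the `b`-cell -/
def muhi (J : JP) : ℕ :=
  bif Nat.ble (2 * J.b1) 16777216 then 16777216 + J.b1 * (16777216 - J.b1) / 33554432 + 1
  else bif Nat.ble 16777216 (2 * J.b0) then
    16777216 + J.b0 * (16777216 - J.b0) / 33554432 + 1
  else 18874368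

/-- lower bound of `1 + a b / 2` on the `b`-cell -/
def mulo (J : JP) : ℕ :=
  bif Nat.ble (2 * J.b1) 16777216 then 16777216 + J.b0 * (16777216 - J.b0) / 33554432
  else bif Nat.ble 16777216 (2 * J.b0) then 16777216 + J.b1 * (16777216 - J.b1) / 33554432
  else 16777216

/-- argument `1 + Z` of the logarithm for the row constant -/
def zarg (J : JP) (N : ℕ) : ℕ :=
  bif Nat.beq J.form 3 then 16777216 + mu (N * J.b0) (muhi J)
  else 16777216 + md (N * J.b1) (mulo J)

/-- form 3: upper bound of `(b N a - log (1 + b N (1 + a b / 2))) / b²`;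
form 4: lower bound of `log (1 + b N (1 + a b / 2)) / b` -/
def rowK (J : JP) (N j : ℕ) : ℕ :=
  bif Nat.beq J.form 3 then
    bif Nat.beq J.b0 0 then
      (N * N * mu (muhi J) (muhi J) / 2 + 1) - N * (16777216 + (16777216 - J.b1) / 2)
    else ((zarg J N - 16777216 - loglo (zarg J N) j) * 281474976710656 / (J.b0 * J.b0) + 1) -
        N * (16777216 + (16777216 - J.b1) / 2)
  else loglo (zarg J N) j * 16777216 / J.b1

/-- extended table: `rg k / S ≥ 2^((512-k)/64)` for `k < 1535` -/
def rg (k : ℕ) : ℕ := bif Nat.blt k 1024 then rk k else mu (rk 1023) (rk (k - 511))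

/-- upper bound of `8 + (k - 512) log 2 / 64` (scale `S`) for `k < 1535` -/
def lg (k : ℕ) : ℕ := bif Nat.blt k 1024 then lk k else lk 1023 + lk (k - 511) - 134217728

/-- per `N` and `Δ`-interval data: `jK`, `ja` indices for `loglo`, `kD0` (`Δ ≥ lk kD0/S - 8`),
`kD1` (`Δ ≤ lk kD1/S - 8`; `kD1 = 0`: no upper bound),
`gs` the indices of the bounds of the nodes of the `τ`-cells (`2048 ka + kb`), `gF` the one of the
product cell -/
structure NJ where
  N : ℕ
  jK : ℕ
  ja : ℕ
  kD0 : ℕ
  kD1 : ℕ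
  gs : List ℕ
  gF : ℕ

/-- value of the majorant at a node is `≤ 8 - (lg kG + 4) / S` -/
def vchk (J : JP) (N K la D1 kD1 : ℕ) (n : Node) (kG : ℕ) : Bool :=
  (Nat.blt kG 1535 && (Nat.blt 0 kD1 || Nat.beq n.Z 0)) &&
    (bif Nat.beq J.form 3 then
      Nat.ble (N * n.Y0 * 16777216 + N * (n.Y1 - 67108864) * (16777216 - J.b0) + n.Z * D1 +
        n.nu * K + (lg kG + 4) * 16777216)
        ((8 * N + 8) * 281474976710656 + N * (67108864 - n.Y1) * (16777216 - J.b1) + n.Z * N * la)
    else Nat.ble (N * n.Y0 * 16777216 + N * (n.Y1 - 67108864) * (16777216 - J.b0) + n.Z * D1 +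
        (lg kG + 4) * 16777216)
        ((8 * N + 8) * 281474976710656 + N * (67108864 - n.Y1) * (16777216 - J.b1) +
          n.Z * N * la + n.nu * K))

/-- `96 S / (t1 - t0)` times the bound of `∫ τ exp (V τ)` over the `τ`-cell for `V` affine:
chords of the exponential on four equal pieces -/
def pcA (t0 t1 ka kb : ℕ) : ℕ :=
  (11 * t0 + t1) * rg ka + 6 * ((3 * t0 + t1) * rg ((3 * ka + kb) / 4)) +
    12 * ((t0 + t1) * rg ((ka + kb) / 2)) + 6 * ((t0 + 3 * t1) * rg ((ka + 3 * kb) / 4)) +
    (t0 + 11 * t1) * rg kb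

/-- all node checks and the sum of the integral bounds -/
def gsum (J : JP) (N K la D1 kD1 : ℕ) : ℕ → List TC → List ℕ → ℕ → Bool
  | _, [], _, acc => Nat.blt acc 16777216
  | _, _ :: _, [], _ => false
  | t0, c :: cs, g :: gs, acc =>
    (vchk J N K la D1 kD1 c.na (g / 2048) && vchk J N K la D1 kD1 c.nb (g % 2048)) &&
      gsum J N K la D1 kD1 c.t1 cs gs
      (acc + ((c.t1 - t0) * pcA t0 c.t1 (g / 2048) (g % 2048) *
        36788 / (9600000 * c.chi * 16777216) + 1))

/-- the check for one `N` -/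
def nok (J : JP) (cF : Option TC) (cs : List TC) (n : NJ) : Bool :=
  let K := rowK J n.N n.jK
  let la := loglo (33554432 - J.b1) n.ja
  let D1 := lk n.kD1 - 134217728
  let tail := mu (16777216 - J.b0) (rk n.kD0) * n.N / (n.N + 1) + 1
  (logok (zarg J n.N) n.jK && (logok (33554432 - J.b1) n.ja &&
      (Nat.blt n.kD0 1024 && (Nat.blt n.kD1 1024 && Nat.blt 0 n.N)))) &&
    (match cF with
      | none => gsum J n.N K la D1 n.kD1 0 cs n.gs (tail + rk n.kD0)
      | some c => (vchk J n.N K la D1 n.kD1 c.na n.gF && vchk J n.N K la D1 n.kD1 c.nb n.gF) &&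
          gsum J n.N K la D1 n.kD1 0 cs n.gs (tail + rg n.gF))

/-- a complete job (valid for configurations with all `y k ≤ ymax / S`) -/
structure Job where
  J : JP
  ymax : ℕ
  tF : ℕ
  cF : Option TC
  cs : List TC
  ns : List NJ

/-- the checker -/
def Job.ok (j : Job) : Bool :=
  jok j.J && ((match j.cF with | none => true | some c => fcell j.J j.ymax j.tF c) &&
    (tcells j.J j.ymax 0 j.cs && j.ns.all (nok j.J j.cF j.cs)))

end Pool.Agent.Lib.MP_172a45_an.LP
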