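import Pool.Agent.Lib.MP_172a45_an.LP.Dec

set_option autoImplicit false

/-!
# Chains of jobs: the check
-/

namespace Pool.Agent.Lib.MP_172a45_an.LP

/-- the job has data for `N` and the interval `[k0, k1]` of `Δ` -/
def hasN (N k0 k1 : ℕ) (n : NJ) : Bool :=
  Nat.beq n.N N && (Nat.beq n.kD0 k0 && Nat.beq n.kD1 k1)

/-- the `b`-cells of the jobs cover `[b, be]`; all jobs allow `T ≤ (1+a) tc` or `y ≤ N a` -/
def chain (N k0 k1 tc be : ℕ) : ℕ → List ℕ → Bool
  | b, [] => Nat.ble be b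
  | b, D :: Ds =>
    (Nat.ble (decJob D).J.b0 b &&
      ((Nat.ble (N * (16777216 - (decJob D).J.b0)) (decJob D).ymax ||
          Nat.ble ((33554432 - (decJob D).J.b0) * tc) (((decJob D).ymax + 16777216) * 16777216)) &&
        (decJob D).ns.any (hasN N k0 k1))) &&
      chain N k0 k1 tc be (decJob D).J.b1 Ds

/-- `t - 1 - log t ≥ D1` at `t = tc` -/
def tcok (tc kt k1 : ℕ) : Bool :=
  (Nat.ble 16777216 tc && Nat.blt kt 1024) &&
    Nat.ble (lk k1 + lk kt + mu tc (rk kt)) (tc + 268435456)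

/-- nothing for `b ≥ be` -/
def endok (N be j : ℕ) : Bool :=
  ((Nat.ble 8388608 be && Nat.blt be 16777216) && (logok (16777216 + N * be) j && Nat.blt 0 N)) &&
    Nat.blt (N * ((16777216 - be) * be)) (loglo (16777216 + N * be) j * 16777216)

/-- the check of one chain -/
def covok (N k0 k1 tc kt be j : ℕ) (Ds : List ℕ) : Bool :=
  (Nat.blt 0 k1 && tcok tc kt k1) && (endok N be j && chain N k0 k1 tc be 0 Ds)

end Pool.Agent.Lib.MP_172a45_an.LP
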