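import Pool.Agent.Lib.MP_172a45_an.LP.Chk

set_option autoImplicit false

/-!
# Decoding of a job from one natural number
-/

namespace Pool.Agent.Lib.MP_172a45_an.LP

/-- a bit field of `D`, starting at bit `o`, modulo `m` -/
def fl (D o m : ℕ) : ℕ := Nat.mod (Nat.shiftRight D o) m

/-- `n` words of 64 bits -/
def decYs (D : ℕ) : ℕ → ℕ → List ℕ
  | 0, _ => []
  | n + 1, o => fl D o 18446744073709551616 :: decYs D n (Nat.add o 64)

/-- `n` words of 24 bits -/
def decGs (D : ℕ) : ℕ → ℕ → List ℕ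
  | 0, _ => []
  | n + 1, o => fl D o 16777216 :: decGs D n (Nat.add o 24)

def decNd (D o : ℕ) : Node :=
  ⟨fl D o 1099511627776, fl D (Nat.add o 40) 1099511627776, fl D (Nat.add o 80) 1099511627776,
    fl D (Nat.add o 120) 1099511627776⟩

def decTC (D o : ℕ) : TC :=
  ⟨fl D o 4294967296, fl D (Nat.add o 32) 4294967296, fl D (Nat.add o 64) 65536,
    decNd D (Nat.add o 80), decNd D (Nat.add o 240),
    decYs D (fl D (Nat.add o 400) 65536) (Nat.add o 416)⟩

def decTCs (D : ℕ) : ℕ → ℕ → List TC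
  | 0, _ => []
  | n + 1, o => decTC D o ::
      decTCs D n (Nat.add (Nat.add o 416) (Nat.mul 64 (fl D (Nat.add o 400) 65536)))

def decNJ (D nT o : ℕ) : NJ :=
  ⟨fl D o 65536, fl D (Nat.add o 16) 65536, fl D (Nat.add o 32) 65536,
    fl D (Nat.add o 48) 65536, fl D (Nat.add o 64) 65536, decGs D nT (Nat.add o 96),
    fl D (Nat.add o 80) 65536⟩

def decNJs (D nT : ℕ) : ℕ → ℕ → List NJ
  | 0, _ => []
  | n + 1, o => decNJ D nT o :: decNJs D nT n (Nat.add (Nat.add o 96) (Nat.mul 24 nT))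

/-- the job with data `D` -/
def decJob (D : ℕ) : Job :=
  let nT := fl D 248 256
  let nN := fl D 256 65536
  let o1 := Nat.add 272 (Nat.mul nN (Nat.add 96 (Nat.mul 24 nT)))
  let hF := fl D 240 256
  let o2 := bif Nat.beq hF 0 then o1
    else Nat.add (Nat.add o1 416) (Nat.mul 64 (fl D (Nat.add o1 400) 65536))
  ⟨⟨fl D 0 256, fl D 8 4294967296, fl D 40 4294967296, fl D 72 18446744073709551616,
    fl D 136 4294967296⟩, fl D 168 1099511627776, fl D 208 4294967296,
    bif Nat.beq hF 0 then none else some (decTC D o1), decTCs D nT o2, decNJs D nT nN 272⟩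

end Pool.Agent.Lib.MP_172a45_an.LP
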