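import Pool.Agent.Lib.MP_172a45_an.LP.Tab
import Pool.Agent.Lib.MP_172a45_an.LP.Chk
import Pool.Agent.Lib.MP_172a45_an.F.LPR

set_option autoImplicit false

/-!
# Soundness of the certificate checker, part 1: vertices and rows
-/

namespace Pool.Agent.Lib.MP_172a45_an.LP

open Finset Real Pool.Agent.Lib.MP_172a45_an.F

/-- the real number represented by a scaled natural number -/
noncomputable def va (n : ℕ) : ℝ := (n : ℝ) / 16777216

theorem va_nonneg (n : ℕ) : 0 ≤ va n := by unfold va; positivity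

theorem va_zero : va 0 = 0 := by simp [va]

theorem va_S : va 16777216 = 1 := by norm_num [va]

theorem va_add (m n : ℕ) : va (m + n) = va m + va n := by unfold va; push_cast; ring

theorem va_nmul (m n : ℕ) : va (m * n) = m * va n := by unfold va; push_cast; ring

theorem va_le {m n : ℕ} (h : m ≤ n) : va m ≤ va n := by
  unfold va
  have : (m : ℝ) ≤ n := by exact_mod_cast h
  linarith

theorem va_lt {m n : ℕ} (h : m < n) : va m < va n := by
  unfold va
  have : (m : ℝ) < n := by exact_mod_cast h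
  linarith

theorem va_pos {n : ℕ} (h : 0 < n) : 0 < va n := by
  have := va_lt h
  rwa [va_zero] at this

theorem va_sub (m n : ℕ) : va m - va n ≤ va (m - n) := by
  unfold va
  rcases le_total n m with h | h
  · rw [Nat.cast_sub h]; exact le_of_eq (by ring)
  · rw [Nat.sub_eq_zero_of_le h]
    have : (m : ℝ) ≤ n := by exact_mod_cast h
    simp only [Nat.cast_zero]
    linarith

theorem va_sub_of_le {m n : ℕ} (h : n ≤ m) : va (m - n) = va m - va n := by
  unfold va
  rw [Nat.cast_sub h]; ring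

theorem lt_div_add_one (a b : ℕ) (hb : 0 < b) : (a : ℝ) / b ≤ ((a / b + 1 : ℕ) : ℝ) := by
  have h := Nat.lt_div_mul_add (a := a) (b := b) hb
  have h1 : (a : ℝ) < ((a / b : ℕ) : ℝ) * b + b := by exact_mod_cast h
  have hb' : (0 : ℝ) < b := by exact_mod_cast hb
  rw [div_le_iff₀ hb']
  push_cast
  nlinarith

theorem div_le_cast (a b : ℕ) : ((a / b : ℕ) : ℝ) ≤ (a : ℝ) / b := Nat.cast_div_le

theorem va_mu (a b : ℕ) : va a * va b ≤ va (mu a b) := by
  unfold mu va
  have h := lt_div_add_one (a * b) 16777216 (by norm_num)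
  push_cast at h ⊢
  have e : (a : ℝ) / 16777216 * (b / 16777216) = (a * b / 16777216) / 16777216 := by ring
  rw [e]
  exact div_le_div_of_nonneg_right h (by norm_num)

theorem va_md (a b : ℕ) : va (md a b) ≤ va a * va b := by
  unfold md va
  have h := div_le_cast (a * b) 16777216
  push_cast at h ⊢
  have e : (a : ℝ) / 16777216 * (b / 16777216) = (a * b / 16777216) / 16777216 := by ring
  rw [e]
  exact div_le_div_of_nonneg_right h (by norm_num)

/-- `n / k + 1` rounds `n / k` up -/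
theorem va_div_up (n k : ℕ) (hk : 0 < k) : va n / k ≤ va (n / k + 1) := by
  unfold va
  have h := lt_div_add_one n k hk
  have e : (n : ℝ) / 16777216 / k = (n / k : ℝ) / 16777216 := by ring
  rw [e]
  exact div_le_div_of_nonneg_right h (by norm_num)

theorem va_div_dn (n k : ℕ) : va (n / k) ≤ va n / k := by
  unfold va
  have h := div_le_cast n k
  have e : (n : ℝ) / 16777216 / k = (n / k : ℝ) / 16777216 := by ring
  rw [e]
  exact div_le_div_of_nonneg_right h (by norm_num)

theorem va_mul_le {a b c d : ℕ} {x y : ℝ} (hx : x ≤ va a) (hy : y ≤ va b) (_hx0 : 0 ≤ x)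
    (hy0 : 0 ≤ y) (_ : c = c) (_ : d = d) : x * y ≤ va (mu a b) :=
  (mul_le_mul hx hy hy0 (va_nonneg a)).trans (va_mu a b)

theorem va_mu_le {a b : ℕ} {x y : ℝ} (hx : x ≤ va a) (hy : y ≤ va b)
    (hy0 : 0 ≤ y) : x * y ≤ va (mu a b) :=
  (mul_le_mul hx hy hy0 (va_nonneg a)).trans (va_mu a b)

theorem va_md_le {a b : ℕ} {x y : ℝ} (hx : va a ≤ x) (hy : va b ≤ y) : va (md a b) ≤ x * y :=
  (va_md a b).trans (mul_le_mul hx hy (va_nonneg b) ((va_nonneg a).trans hx))

/-- the distance `|S² - n|` -/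
theorem abs_dist (n m : ℕ) : |(n : ℝ) - m| ≤ (((n - m) + (m - n) : ℕ) : ℝ) := by
  rcases le_total n m with h | h
  · rw [Nat.sub_eq_zero_of_le h, zero_add, Nat.cast_sub h, abs_sub_comm, abs_of_nonneg]
    have : (n : ℝ) ≤ m := by exact_mod_cast h
    linarith
  · rw [Nat.sub_eq_zero_of_le h, add_zero, Nat.cast_sub h, abs_of_nonneg]
    have : (m : ℝ) ≤ n := by exact_mod_cast h
    linarith

/-! ### the vertex inequality -/

theorem vx_sound {G al B ep r0 r1p r1n r2 rX tL tr b1 ka tau : ℕ} {n : Node} {y : ℕ}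
    (h : vx G al B ep r0 r1p r1n r2 rX tL tr b1 ka tau n y = true) :
    va G + va al * (1 - va tau * (1 + va y)) ^ 2 + va B * (1 + va y) ^ 2 + va ep * (1 + va y) +
      va n.nu * (va r0 + va r1p * va y + va r2 * va y ^ 2) + va n.Z * (va tL + va tr * (1 + va y)) +
      max (2 * (va al * va tau) - va n.nu * va rX) 0 *
        (va ka * (va y + va b1 * va y ^ 2 / 2)) ≤
      va n.Y0 + (va n.Y1 - 4) * va y + va n.nu * (va r1n * va y) + 9 * va n.Z := by
  unfold vx at h
  simp only at h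
  have h := Nat.le_of_ble_eq_true h
  set T : ℕ := 16777216 + y with hT
  set d : ℕ := ((281474976710656 - tau * T) + (tau * T - 281474976710656)) / 16777216 + 1 with hd
  set M : ℕ := 2 * mu al tau - md n.nu rX with hM
  set xb : ℕ := y + mu (mu b1 y) y / 2 + 1 with hxb
  have hTv : va T = 1 + va y := by rw [hT, va_add, va_S]
  have hy0 := va_nonneg y
  -- the distance
  have hdv : |1 - va tau * (1 + va y)| ≤ va d := by
    have h1 := abs_dist 281474976710656 (tau * T)
    have h2 := lt_div_add_one ((281474976710656 - tau * T) + (tau * T - 281474976710656))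
      16777216 (by norm_num)
    rw [← hd] at h2
    rw [← hTv]
    have e : 1 - va tau * va T = ((281474976710656 : ℕ) - ((tau * T : ℕ) : ℝ)) /
        (16777216 * 16777216) := by
      unfold va; push_cast; ring
    rw [e, abs_div, abs_of_nonneg (by norm_num : (0:ℝ) ≤ 16777216 * 16777216)]
    unfold va
    rw [div_le_div_iff₀ (by norm_num) (by norm_num)]
    have h3 : |((281474976710656 : ℕ) : ℝ) - ((tau * T : ℕ) : ℝ)| ≤ (d : ℝ) * 16777216 := by
      refine h1.trans ?_
      rw [div_le_iff₀ (by norm_num)] at h2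
      exact_mod_cast h2
    nlinarith
  have hd2 : (1 - va tau * (1 + va y)) ^ 2 ≤ va (mu d d) := by
    rw [← sq_abs, sq]
    exact va_mu_le hdv hdv (abs_nonneg _)
  have hT2 : (1 + va y) ^ 2 ≤ va (mu T T) := by
    rw [← hTv, sq]; exact va_mu T T
  have hr1 : va r1p * va y ≤ va (mu r1p y) := va_mu _ _
  have hyy : va y ^ 2 ≤ va (mu y y) := by rw [sq]; exact va_mu _ _
  have hr2 : va r2 * va y ^ 2 ≤ va (mu r2 (mu y y)) :=
    va_mu_le le_rfl hyy (sq_nonneg _)
  have htr : va tr * (1 + va y) ≤ va (mu tr T) := by rw [← hTv]; exact va_mu _ _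
  have hMv : max (2 * (va al * va tau) - va n.nu * va rX) 0 ≤ va M := by
    refine max_le ?_ (va_nonneg _)
    refine le_trans ?_ (va_sub _ _)
    have h1 := va_mu al tau
    have h2 := va_md n.nu rX
    rw [show va (2 * mu al tau) = 2 * va (mu al tau) by rw [va_nmul]; norm_num]
    linarith
  have hxv : va y + va b1 * va y ^ 2 / 2 ≤ va xb := by
    rw [hxb, add_assoc, va_add]
    have h1 : va b1 * va y ^ 2 ≤ va (mu (mu b1 y) y) := by
      have := va_mu_le (va_mu b1 y) (le_refl (va y)) hy0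
      calc va b1 * va y ^ 2 = va b1 * va y * va y := by ring
        _ ≤ _ := this
    have h2 := va_div_up (mu (mu b1 y) y) 2 (by norm_num)
    push_cast at h2
    linarith
  have hX : va ka * (va y + va b1 * va y ^ 2 / 2) ≤ va (mu ka xb) := by
    refine va_mu_le le_rfl hxv ?_
    have := va_nonneg b1
    positivity
  have hMX : max (2 * (va al * va tau) - va n.nu * va rX) 0 *
      (va ka * (va y + va b1 * va y ^ 2 / 2)) ≤ va M * va (mu ka xb) := by
    refine mul_le_mul hMv hX ?_ (va_nonneg _)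
    have := va_nonneg b1
    have := va_nonneg ka
    positivity
  have hrn : va (md r1n y) ≤ va r1n * va y := va_md _ _
  have hc : 67108864 * (y : ℝ) + (G : ℝ) * 16777216 + al * (mu d d : ℕ) + B * (mu T T : ℕ) + ep * T +
      n.nu * (r0 + (mu r1p y : ℕ) + (mu r2 (mu y y) : ℕ)) + n.Z * (tL + (mu tr T : ℕ)) +
      M * (mu ka xb : ℕ) ≤ n.Y0 * 16777216 + n.Y1 * y + n.nu * (md r1n y : ℕ) +
      n.Z * 150994944 := by exact_mod_cast h
  have hc2 : 4 * va y + va G + va al * va (mu d d) + va B * va (mu T T) + va ep * va T +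
      va n.nu * (va r0 + va (mu r1p y) + va (mu r2 (mu y y))) +
      va n.Z * (va tL + va (mu tr T)) + va M * va (mu ka xb) ≤
      va n.Y0 + va n.Y1 * va y + va n.nu * va (md r1n y) + 9 * va n.Z := by
    have h1 := div_le_div_of_nonneg_right hc (by norm_num : (0:ℝ) ≤ 16777216 * 16777216)
    unfold va
    calc _ = _ := ?_
      _ ≤ _ := h1
      _ = _ := ?_
    · ring
    · ring
  rw [hTv] at hc2
  have a1 := mul_le_mul_of_nonneg_left hd2 (va_nonneg al)
  have a2 := mul_le_mul_of_nonneg_left hT2 (va_nonneg B)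
  have a3 := mul_le_mul_of_nonneg_left (add_le_add (add_le_add (le_refl (va r0)) hr1) hr2)
    (va_nonneg n.nu)
  have a4 := mul_le_mul_of_nonneg_left (add_le_add (le_refl (va tL)) htr) (va_nonneg n.Z)
  have a5 := mul_le_mul_of_nonneg_left hrn (va_nonneg n.nu)
  linarith

/-- two vertices: the inequality on the whole cell -/
theorem vx2_sound {G al B ep r0 r1p r1n r2 rX tL tr b1 ka tau : ℕ} {n : Node} {y0 y1 : ℕ}
    (h0 : vx G al B ep r0 r1p r1n r2 rX tL tr b1 ka tau n y0 = true)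
    (h1 : vx G al B ep r0 r1p r1n r2 rX tL tr b1 ka tau n y1 = true) {y X : ℝ}
    (hy0 : va y0 ≤ y) (hy1 : y ≤ va y1) (hX0 : 0 ≤ X)
    (hX : X ≤ va ka * (y + va b1 * y ^ 2 / 2)) :
    va G + va al * DD (1 + y) X (va tau) + va B * (1 + y) ^ 2 + va ep * (1 + y) +
      va n.nu * (va r0 + va r1p * y - va r1n * y + va r2 * y ^ 2 - va rX * X) +
      va n.Z * (va tL - 9 + va tr * (1 + y)) ≤ va n.Y0 + (va n.Y1 - 4) * y := by
  have k0 := vx_sound h0
  have k1 := vx_sound h1
  set M := max (2 * (va al * va tau) - va n.nu * va rX) 0 with hM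
  have hM0 : 0 ≤ M := le_max_right _ _
  have hM1 : 2 * (va al * va tau) - va n.nu * va rX ≤ M := le_max_left _ _
  have e : ∀ t : ℝ, va al * (1 - va tau * (1 + t)) ^ 2 + va B * (1 + t) ^ 2 +
      (va n.nu * va r2) * t ^ 2 + (va ep + va n.nu * va r1p + va n.Z * va tr - (va n.Y1 - 4) -
      va n.nu * va r1n) * t + (va G + va ep + va n.nu * va r0 + va n.Z * (va tL + va tr) -
      va n.Y0 - 9 * va n.Z) + M * va ka * (t + va b1 * t ^ 2 / 2) =
      (va G + va al * (1 - va tau * (1 + t)) ^ 2 + va B * (1 + t) ^ 2 + va ep * (1 + t) +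
      va n.nu * (va r0 + va r1p * t + va r2 * t ^ 2) + va n.Z * (va tL + va tr * (1 + t)) +
      M * (va ka * (t + va b1 * t ^ 2 / 2))) -
      (va n.Y0 + (va n.Y1 - 4) * t + va n.nu * (va r1n * t) + 9 * va n.Z) := fun t => by ring
  have k := L4 (Al := va al) (B := va B) (M := M) (kap := va ka) (b1 := va b1)
    (c2 := va n.nu * va r2) (c1 := va ep + va n.nu * va r1p + va n.Z * va tr - (va n.Y1 - 4) -
      va n.nu * va r1n) (c0 := va G + va ep + va n.nu * va r0 + va n.Z * (va tL + va tr) -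
      va n.Y0 - 9 * va n.Z) (tau := va tau) (va_nonneg _) (va_nonneg _) hM0 (va_nonneg _)
      (va_nonneg _) (mul_nonneg (va_nonneg _) (va_nonneg _))
      (by rw [e]; linarith) (by rw [e]; linarith) hy0 hy1
  rw [e] at k
  have hMX : (2 * (va al * va tau) - va n.nu * va rX) * X ≤
      M * (va ka * (y + va b1 * y ^ 2 / 2)) :=
    (mul_le_mul_of_nonneg_right hM1 hX0).trans (mul_le_mul_of_nonneg_left hX hM0)
  unfold DD
  nlinarith

theorem vx4_split {G al B ep r0 r1p r1n r2 rX tL tr b1 ka t0 t1 : ℕ} {na nb : Node} {y0 y1 : ℕ}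
    (h : vx4 G al B ep r0 r1p r1n r2 rX tL tr b1 ka t0 t1 na nb y0 y1 = true) :
    vx G al B ep r0 r1p r1n r2 rX tL tr b1 ka t0 na y0 = true ∧
    vx G al B ep r0 r1p r1n r2 rX tL tr b1 ka t0 na y1 = true ∧
    vx G al B ep r0 r1p r1n r2 rX tL tr b1 ka t1 nb y0 = true ∧
    vx G al B ep r0 r1p r1n r2 rX tL tr b1 ka t1 nb y1 = true := by
  simpa only [vx4, Bool.and_eq_true] using h

theorem vx4_sound {G al B ep r0 r1p r1n r2 rX tL tr b1 ka t0 t1 : ℕ} {na nb : Node} {y0 y1 : ℕ}
    (h : vx4 G al B ep r0 r1p r1n r2 rX tL tr b1 ka t0 t1 na nb y0 y1 = true) {y X : ℝ}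
    (hy0 : va y0 ≤ y) (hy1 : y ≤ va y1) (hX0 : 0 ≤ X)
    (hX : X ≤ va ka * (y + va b1 * y ^ 2 / 2)) :
    (va G + va al * DD (1 + y) X (va t0) + va B * (1 + y) ^ 2 + va ep * (1 + y) +
      va na.nu * (va r0 + va r1p * y - va r1n * y + va r2 * y ^ 2 - va rX * X) +
      va na.Z * (va tL - 9 + va tr * (1 + y)) ≤ va na.Y0 + (va na.Y1 - 4) * y) ∧
    (va G + va al * DD (1 + y) X (va t1) + va B * (1 + y) ^ 2 + va ep * (1 + y) +
      va nb.nu * (va r0 + va r1p * y - va r1n * y + va r2 * y ^ 2 - va rX * X) +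
      va nb.Z * (va tL - 9 + va tr * (1 + y)) ≤ va nb.Y0 + (va nb.Y1 - 4) * y) := by
  obtain ⟨h1, h2, h3, h4⟩ := vx4_split h
  exact ⟨vx2_sound h1 h2 hy0 hy1 hX0 hX, vx2_sound h3 h4 hy0 hy1 hX0 hX⟩


/-! ### the row -/

/-- the row quantity of one zero -/
noncomputable def rho (f : Bool) (b y X : ℝ) : ℝ :=
  bif f then -((b * y - 1 / 2 * Real.log ((1 + b * y) ^ 2 - 2 * (1 - b) * b * X)) / b ^ 2)
  else 1 / (2 * b) * Real.log ((1 + b * y) ^ 2 - 2 * (1 - b) * b * X)

/-- the pointwise inequality at one end of a `τ`-cell -/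
def Pt (J : JP) (n : Node) (G al B ep : ℕ) (b y X τ : ℝ) : Prop :=
  va G + va al * DD (1 + y) X τ + va B * (1 + y) ^ 2 + va ep * (1 + y) +
    va n.nu * rho (Nat.beq J.form 3) b y X + va n.Z * Real.log (1 + y) ≤
    va n.Y0 + (va n.Y1 - 4) * y

theorem Pt_of {J : JP} {n : Node} {G al B ep tL tr : ℕ} {b y X τ R : ℝ}
    (h : va G + va al * DD (1 + y) X τ + va B * (1 + y) ^ 2 + va ep * (1 + y) +
      va n.nu * R + va n.Z * (va tL - 9 + va tr * (1 + y)) ≤ va n.Y0 + (va n.Y1 - 4) * y)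
    (hR : rho (Nat.beq J.form 3) b y X ≤ R)
    (hl : Real.log (1 + y) ≤ va tL - 9 + va tr * (1 + y)) :
    Pt J n G al B ep b y X τ := by
  unfold Pt
  have h1 := mul_le_mul_of_nonneg_left hR (va_nonneg n.nu)
  have h2 := mul_le_mul_of_nonneg_left hl (va_nonneg n.Z)
  linarith

/-- consistency of the job parameters, as real facts -/
structure JR (J : JP) : Prop where
  b01 : J.b0 < J.b1
  b1 : J.b1 < 16777216
  ka : 281474976710656 ≤ J.ka * (16777216 - J.b1)
  xi3 : Nat.beq J.form 3 = true → J.xi * J.b1 ≤ (16777216 - J.b1) * 16777216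
  xi4 : Nat.beq J.form 3 = false → 281474976710656 ≤ J.xi * J.b0

theorem jok_sound {J : JP} (h : jok J = true) : JR J := by
  simp only [jok, Bool.and_eq_true, Nat.blt_eq] at h
  obtain ⟨h1, h2, h3, h4⟩ := h
  refine ⟨h1, h2, Nat.le_of_ble_eq_true h3, fun hf => ?_, fun hf => ?_⟩
  · rw [hf] at h4
    exact Nat.le_of_ble_eq_true h4
  · rw [hf] at h4
    exact Nat.le_of_ble_eq_true h4

theorem JR.va_b1 {J : JP} (h : JR J) : va (16777216 - J.b1) = 1 - va J.b1 := by
  rw [va_sub_of_le h.b1.le, va_S]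

theorem JR.va_b1_lt {J : JP} (h : JR J) : va J.b1 < 1 := by
  have := va_lt h.b1
  rwa [va_S] at this

theorem JR.va_b0 {J : JP} (h : JR J) : va (16777216 - J.b0) = 1 - va J.b0 := by
  rw [va_sub_of_le (h.b01.trans h.b1).le, va_S]

theorem mul_S_cast (n : ℕ) : ((n * 16777216 : ℕ) : ℝ) / (16777216 * 16777216) = va n := by
  unfold va; push_cast; ring

theorem va_mul_div (m n : ℕ) : va m * va n = ((m * n : ℕ) : ℝ) / (16777216 * 16777216) := by
  unfold va; push_cast; ring

theorem JR.ka1 {J : JP} (h : JR J) : 1 ≤ va J.ka * (1 - va J.b1) := by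
  rw [← h.va_b1, va_mul_div, le_div_iff₀ (by norm_num)]
  have : ((281474976710656 : ℕ) : ℝ) ≤ ((J.ka * (16777216 - J.b1) : ℕ) : ℝ) := by
    exact_mod_cast h.ka
  refine le_trans ?_ this
  norm_num

theorem JR.xi3' {J : JP} (h : JR J) (hf : Nat.beq J.form 3 = true) :
    va J.xi * va J.b1 ≤ 1 - va J.b1 := by
  rw [← h.va_b1, va_mul_div, ← mul_S_cast]
  refine div_le_div_of_nonneg_right ?_ (by norm_num)
  exact_mod_cast h.xi3 hf

theorem JR.xi4' {J : JP} (h : JR J) (hf : Nat.beq J.form 3 = false) :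
    1 ≤ va J.xi * va J.b0 := by
  rw [va_mul_div, le_div_iff₀ (by norm_num)]
  have : ((281474976710656 : ℕ) : ℝ) ≤ ((J.xi * J.b0 : ℕ) : ℝ) := by
    exact_mod_cast h.xi4 hf
  refine le_trans ?_ this
  norm_num

/-- the `1/(1+b₁y₁)²` factor -/
theorem g_bound {b1 y1 : ℕ} {y : ℝ} (hy0 : 0 ≤ y) (hy : y ≤ va y1) :
    va (4722366482869645213696 / ((16777216 + b1 * y1 / 16777216 + 1) *
      (16777216 + b1 * y1 / 16777216 + 1))) * (1 + va b1 * y) ^ 2 ≤ 1 := by
  set den := 16777216 + b1 * y1 / 16777216 + 1 with hden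
  have h1 : 1 + va b1 * y ≤ va den := by
    have e : va den = 1 + va (mu b1 y1) := by
      rw [hden, add_assoc, va_add, va_S]; rfl
    rw [e]
    have h2 := va_mu b1 y1
    have h3 := mul_le_mul_of_nonneg_left hy (va_nonneg b1)
    linarith
  have h0 : 0 ≤ 1 + va b1 * y := by
    have := mul_nonneg (va_nonneg b1) hy0
    linarith
  have hden0 : (0 : ℝ) < den := by
    have : 0 < den := by rw [hden]; omega
    exact_mod_cast this
  have h2 : (1 + va b1 * y) ^ 2 ≤ va den ^ 2 := pow_le_pow_left₀ h0 h1 2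
  have h3 : va (4722366482869645213696 / (den * den)) * va den ^ 2 ≤ 1 := by
    have h4 := div_le_cast 4722366482869645213696 (den * den)
    unfold va
    have e : ((4722366482869645213696 / (den * den) : ℕ) : ℝ) / 16777216 *
        ((den : ℝ) / 16777216) ^ 2 = ((4722366482869645213696 / (den * den) : ℕ) : ℝ) *
        (den : ℝ) ^ 2 / 4722366482869645213696 := by ring
    rw [e, div_le_one (by norm_num)]
    rw [le_div_iff₀ (by push_cast; positivity)] at h4
    push_cast at h4 ⊢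
    nlinarith
  exact (mul_le_mul_of_nonneg_left h2 (va_nonneg _)).trans h3

theorem log_T_le {kp : ℕ} (hkp : kp < 1024) {T : ℝ} (hT : 0 < T) :
    Real.log T ≤ va (lk kp) - 9 + va (rk kp) * T := by
  have h1 := neg_log_rk_le hkp
  have h2 := log_le_del (L := va (lk kp) - 8) hT (va_pos (rk_pos hkp)) h1
  linarith

theorem c_bound {c de lkl : ℕ} (hc : c = (lkl + de) - 150994944) :
    va lkl - 8 - 1 + va de ≤ va c := by
  have h1 := va_sub (lkl + de) 150994944
  have h2 : va 150994944 = 9 := by norm_num [va]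
  rw [va_add, h2, ← hc] at h1
  linarith

end Pool.Agent.Lib.MP_172a45_an.LP
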