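import Pool.Agent.Lib.MP_172a45_an.LP.Sound1

set_option autoImplicit false

/-!
# Soundness of the certificate checker, part 2: rows and `y`-cells
-/

namespace Pool.Agent.Lib.MP_172a45_an.LP

open Finset Real Pool.Agent.Lib.MP_172a45_an.F

/-- the cases of `rowc` -/
theorem rowc_def {J : JP} {G al B ep kp l t0 t1 : ℕ} {na nb : Node} {y0 y1 : ℕ}
    (h : rowc J G al B ep kp l t0 t1 na nb y0 y1 = true) :
    ∃ g : ℕ, (∀ y : ℝ, 0 ≤ y → y ≤ va y1 → va g * (1 + va J.b1 * y) ^ 2 ≤ 1) ∧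
    ((Nat.beq J.form 3 = true ∧
      vx4 G al B ep (mu (18 * l) l) (mu (12 * mu l l) J.b1) (6 * l) 0 (md J.xi g) (lk kp) (rk kp)
        J.b1 J.ka t0 t1 na nb y0 y1 = true) ∨
     (Nat.beq J.form 3 = false ∧ l / 2 < 1024 ∧ ∃ c : ℕ,
      (va (lk (l / 2)) - 8 - 1 + va (rk (l / 2)) ≤ va c) ∧
      (vx4 G al B ep (mu c J.xi / 2 + 1) (rk (l / 2)) 0 (mu (rk (l / 2)) J.b1 / 2 + 1)
          (md (rk (l / 2)) (16777216 - J.b1)) (lk kp) (rk kp) J.b1 J.ka t0 t1 na nb y0 y1 = true ∨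
       vx4 G al B ep (mu c J.xi) (rk (l / 2)) 0 0 (md (16777216 - J.b1) g) (lk kp) (rk kp)
          J.b1 J.ka t0 t1 na nb y0 y1 = true))) := by
  refine ⟨4722366482869645213696 / ((16777216 + J.b1 * y1 / 16777216 + 1) *
      (16777216 + J.b1 * y1 / 16777216 + 1)), fun y h0 h1 => g_bound h0 h1, ?_⟩
  cases hf : Nat.beq J.form 3
  · right
    unfold rowc at h
    simp only [] at h
    rw [hf, cond_false] at h
    simp only [Bool.and_eq_true, Nat.blt_eq] at h
    obtain ⟨hl, h⟩ := h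
    refine ⟨rfl, hl, lk (l / 2) + rk (l / 2) - 150994944, c_bound rfl, ?_⟩
    cases hl2 : Nat.beq (l % 2) 0
    · rw [hl2, cond_false] at h
      exact Or.inr h
    · rw [hl2, cond_true] at h
      exact Or.inl h
  · left
    unfold rowc at h
    simp only [] at h
    rw [hf, cond_true] at h
    exact ⟨rfl, h⟩

/-- soundness of `rowc` -/
theorem rowc_sound {J : JP} (hJ : JR J) {G al B ep kp l t0 t1 : ℕ} {na nb : Node} {y0 y1 : ℕ}
    (hkp : kp < 1024) (h : rowc J G al B ep kp l t0 t1 na nb y0 y1 = true)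
    {b y X : ℝ} (hb : 0 < b) (hb0 : va J.b0 ≤ b) (hb1 : b ≤ va J.b1) (hy00 : 0 ≤ y)
    (hy0 : va y0 ≤ y) (hy1 : y ≤ va y1) (hX0 : 0 ≤ X)
    (hX : X ≤ va J.ka * (y + va J.b1 * y ^ 2 / 2))
    (hE : 0 < (1 + b * y) ^ 2 - 2 * (1 - b) * b * X) :
    Pt J na G al B ep b y X (va t0) ∧ Pt J nb G al B ep b y X (va t1) := by
  have hT : 0 < 1 + y := by linarith
  have hlog := log_T_le hkp hT
  have hb1' := hJ.va_b1_lt
  obtain ⟨g, hg, h⟩ := rowc_def h
  have hg := hg y hy00 hy1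
  rcases h with ⟨hf, h⟩ | ⟨hf, hl, c, hcv, h⟩
  · -- form 3
    obtain ⟨k1, k2⟩ := vx4_sound h hy0 hy1 hX0 hX
    have hR : rho (Nat.beq J.form 3) b y X ≤ va (mu (18 * l) l) +
        va (mu (12 * mu l l) J.b1) * y - va (6 * l) * y +
        va 0 * y ^ 2 - va (md J.xi g) * X := by
      rw [hf]
      simp only [rho, cond_true]
      have k3 := L3a (l := va l) hb hb1 hb1' hy00 hX0 hE (va_nonneg g) hg (va_nonneg _)
        (hJ.xi3' hf)
      have k4 : 18 * va l ^ 2 ≤ va (mu (18 * l) l) := by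
        have := va_mu (18 * l) l
        rw [va_nmul] at this
        push_cast at this
        calc 18 * va l ^ 2 = 18 * va l * va l := by ring
          _ ≤ _ := this
      have k5 : 12 * va l ^ 2 * va J.b1 ≤ va (mu (12 * mu l l) J.b1) := by
        refine va_mu_le ?_ le_rfl (va_nonneg _)
        rw [va_nmul]
        have := va_mu l l
        push_cast
        rw [sq]
        linarith
      have k6 := mul_le_mul_of_nonneg_right k5 hy00
      have k7 : va (6 * l) = 6 * va l := by rw [va_nmul]; norm_num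
      have k8 := mul_le_mul_of_nonneg_right (va_md J.xi g) hX0
      rw [va_zero, k7]
      linarith
    exact ⟨Pt_of k1 hR hlog, Pt_of k2 hR hlog⟩
  · -- form 4
    have hL : -Real.log (va (rk (l / 2))) ≤ va (lk (l / 2)) - 8 := neg_log_rk_le hl
    have hde0 : 0 < va (rk (l / 2)) := va_pos (rk_pos hl)
    have hxi := hJ.xi4' hf
    have hb00 : 0 < va J.b0 := by
      rcases (va_nonneg J.b0).eq_or_lt with h0 | h0
      · rw [← h0] at hxi; simp at hxi; linarith
      · exact h0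
    have hcx : (va (lk (l / 2)) - 8 - 1 + va (rk (l / 2))) * va J.xi ≤ va (mu c J.xi) :=
      va_mu_le hcv le_rfl (va_nonneg _)
    rcases h with h | h
    · obtain ⟨k1, k2⟩ := vx4_sound h hy0 hy1 hX0 hX
      have hR : rho (Nat.beq J.form 3) b y X ≤ va (mu c J.xi / 2 + 1) +
          va (rk (l / 2)) * y - va 0 * y + va (mu (rk (l / 2)) J.b1 / 2 + 1) * y ^ 2 -
          va (md (rk (l / 2)) (16777216 - J.b1)) * X := by
        rw [hf]
        simp only [rho, cond_false]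
        have k3 := L3b (y := y) (be := va J.xi) hb00 hb0 hb1 hb1' hxi hX0 hE hde0 hL
        have k4 : va (md (rk (l / 2)) (16777216 - J.b1)) ≤
            va (rk (l / 2)) * (1 - va J.b1) := by
          have := va_md (rk (l / 2)) (16777216 - J.b1)
          rwa [hJ.va_b1] at this
        have k5 := mul_le_mul_of_nonneg_right k4 hX0
        have k6 := va_div_up (mu c J.xi) 2 (by norm_num)
        have k7 := va_div_up (mu (rk (l / 2)) J.b1) 2 (by norm_num)
        have k8 := va_mu (rk (l / 2)) J.b1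
        push_cast at k6 k7
        have k9 : va (rk (l / 2)) * va J.b1 / 2 * y ^ 2 ≤
            va (mu (rk (l / 2)) J.b1 / 2 + 1) * y ^ 2 :=
          mul_le_mul_of_nonneg_right (by linarith) (sq_nonneg y)
        rw [va_zero]
        linarith
      exact ⟨Pt_of k1 hR hlog, Pt_of k2 hR hlog⟩
    · obtain ⟨k1, k2⟩ := vx4_sound h hy0 hy1 hX0 hX
      have hR : rho (Nat.beq J.form 3) b y X ≤ va (mu c J.xi) + va (rk (l / 2)) * y - va 0 * y +
          va 0 * y ^ 2 - va (md (16777216 - J.b1) g) * X := by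
        rw [hf]
        simp only [rho, cond_false]
        have k3 := L3b' (be := va J.xi) hb00 hb0 hb1 hb1' hxi hy00 hX0 hE hde0 hL (va_nonneg g) hg
        have k4 : va (md (16777216 - J.b1) g) ≤ (1 - va J.b1) * va g := by
          have := va_md (16777216 - J.b1) g
          rwa [hJ.va_b1] at this
        have k5 := mul_le_mul_of_nonneg_right k4 hX0
        rw [va_zero]
        linarith
      exact ⟨Pt_of k1 hR hlog, Pt_of k2 hR hlog⟩

/-! ### the three lines for `Psi` -/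

theorem Psi_zero {A : ℝ} (hA : 0 ≤ A) : Psi A 0 = Real.log A := by
  unfold Psi
  rw [max_eq_left hA, zero_div, add_zero]

/-- (L1a') including `w = 0` -/
theorem L1w {r w A rm w0 m : ℝ} (hr : 0 < r) (hw : 0 ≤ w) (hA : 0 ≤ A) (hA0 : w = 0 → 0 < A)
    (hrm0 : 0 ≤ rm) (hrm : rm ≤ A * r)
    (h : w * r ≤ 2 / 5 ∨ (w * r ≤ 2 / 3 ∧ w * r ≤ rm ∧ w * r ≤ (1 - w * r) * (rm ^ 2 + rm)))
    (hw0 : w0 ≤ w) (hm0 : 0 ≤ m) (hm : m ≤ A) :
    Psi A w ≤ -Real.log r - 1 / 2 + 3 / 2 * r * w + 1 / 2 * r ^ 2 * (1 - w0 * r) * A ^ 2 -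
      1 / 2 * r ^ 3 * (w - w0) * m ^ 2 := by
  rcases hw.eq_or_lt with h0 | h0
  · have hAp := hA0 h0.symm
    subst h0
    rw [Psi_zero hA]
    have h1 := Real.log_le_sub_one_of_pos (by positivity : 0 < (A * r) ^ 2)
    rw [Real.log_pow, Real.log_mul hAp.ne' hr.ne'] at h1
    push_cast at h1
    have h2 : m ^ 2 ≤ A ^ 2 := pow_le_pow_left₀ hm0 hm 2
    have h3 : 0 ≤ 1 / 2 * r ^ 3 * (-w0) * (A ^ 2 - m ^ 2) := by
      have : 0 ≤ -w0 := by linarith
      have : 0 ≤ A ^ 2 - m ^ 2 := by linarith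
      positivity
    nlinarith
  · exact L1a' hr h0 hA hrm0 hrm h hw0 hm0 hm

/-- the smallness condition of type 1 -/
theorem om_cond {om rm v : ℕ}
    (h : 5 * om ≤ 33554432 ∨ (3 * om ≤ 33554432 ∧ om ≤ rm ∧
      om * 16777216 ≤ (16777216 - om) * (v + rm))) (hv : va v ≤ va rm ^ 2) {x : ℝ}
    (hx : x ≤ va om) :
    x ≤ 2 / 5 ∨ (x ≤ 2 / 3 ∧ x ≤ va rm ∧ x ≤ (1 - x) * (va rm ^ 2 + va rm)) := by
  rcases h with h | ⟨h1, h2, h3⟩
  · left
    refine hx.trans ?_
    have : (5 : ℝ) * om ≤ 33554432 := by exact_mod_cast h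
    unfold va
    linarith
  · right
    have k1 : (3 : ℝ) * om ≤ 33554432 := by exact_mod_cast h1
    have k2 : va om ≤ va rm := va_le h2
    have hom : om ≤ 16777216 := by omega
    have k3 : (om : ℝ) * 16777216 ≤ (16777216 - om) * (v + rm) := by
      have k4 : ((om * 16777216 : ℕ) : ℝ) ≤ (((16777216 - om) * (v + rm) : ℕ) : ℝ) := by
        exact_mod_cast h3
      rw [Nat.cast_mul, Nat.cast_mul, Nat.cast_sub hom] at k4
      push_cast at k4
      exact k4
    have k5 : va om ≤ (1 - va om) * (va v + va rm) := by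
      unfold va
      have e : (1 - (om : ℝ) / 16777216) * ((v : ℝ) / 16777216 + (rm : ℝ) / 16777216) =
          (16777216 - om) * (v + rm) / (16777216 * 16777216) := by ring
      rw [e, div_le_div_iff₀ (by norm_num) (by norm_num)]
      nlinarith
    have k6 : va om ≤ 2 / 3 := by unfold va; linarith
    refine ⟨hx.trans k6, hx.trans k2, hx.trans (k5.trans ?_)⟩
    refine mul_le_mul (by linarith) (by linarith) ?_ (by linarith)
    have := va_nonneg v
    have := va_nonneg rm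
    linarith

/-- type 1 -/
theorem type1_real {r lkk w0 w1 m om rm v rmu G al B chi : ℕ} {A T : ℝ}
    (hr : 0 < va r) (hL : -Real.log (va r) ≤ va lkk - 8)
    (hom : va w1 * va r ≤ va om) (hrm : va rm ≤ va m * va r) (hv : va v ≤ va rm ^ 2)
    (hrmu : va m * va r ≤ va rmu)
    (h : 5 * om ≤ 33554432 ∨ (3 * om ≤ 33554432 ∧ om ≤ rm ∧
      om * 16777216 ≤ (16777216 - om) * (v + rm)))
    (hG : va lkk + va rmu ^ 2 * (va w0 * va r) / 2 - 1 / 2 ≤ va G)
    (hal : 1 / 2 * va r ^ 2 * (1 - va w0 * va r) ≤ va al)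
    (hB : va chi * (va r * ((3 - va v) / 2)) ≤ va B)
    (hw0 : va w0 ≤ va chi * T ^ 2) (hw1 : va chi * T ^ 2 ≤ va w1) (hmA : va m ≤ A)
    (hT : 0 < T) (hA0 : chi = 0 → 0 < A) :
    Psi A (va chi * T ^ 2) ≤ va G - 8 + va B * T ^ 2 + va al * A ^ 2 := by
  have hA : 0 ≤ A := (va_nonneg m).trans hmA
  have hw : 0 ≤ va chi * T ^ 2 := mul_nonneg (va_nonneg _) (sq_nonneg _)
  have hwr : va chi * T ^ 2 * va r ≤ va om := (mul_le_mul_of_nonneg_right hw1 hr.le).trans hom
  have h1 := L1w (A := A) (rm := va rm) (m := va m) hr hw hA (fun h0 => hA0 (by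
      rcases mul_eq_zero.1 h0 with h2 | h2
      · by_contra h3
        exact absurd h2 (va_pos (Nat.pos_of_ne_zero h3)).ne'
      · exact absurd h2 (by positivity))) (va_nonneg _)
    (hrm.trans (mul_le_mul_of_nonneg_right hmA hr.le)) (om_cond h hv hwr) hw0 (va_nonneg _) hmA
  have h2 : va rm ^ 2 ≤ (va m * va r) ^ 2 := pow_le_pow_left₀ (va_nonneg _) hrm 2
  have h3 : (va m * va r) ^ 2 ≤ va rmu ^ 2 :=
    pow_le_pow_left₀ (mul_nonneg (va_nonneg _) hr.le) hrmu 2
  have h4 : va v ≤ (va m * va r) ^ 2 := hv.trans h2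
  set w := va chi * T ^ 2 with hwd
  have e1 : 1 / 2 * va r ^ 3 * (w - va w0) * va m ^ 2 =
      1 / 2 * va r * w * (va m * va r) ^ 2 - 1 / 2 * (va w0 * va r) * (va m * va r) ^ 2 := by ring
  have h5 : 1 / 2 * va r * w * va v ≤ 1 / 2 * va r * w * (va m * va r) ^ 2 :=
    mul_le_mul_of_nonneg_left h4 (by positivity)
  have h6 : 1 / 2 * (va w0 * va r) * (va m * va r) ^ 2 ≤
      1 / 2 * (va w0 * va r) * va rmu ^ 2 :=
    mul_le_mul_of_nonneg_left h3 (by have := va_nonneg w0; positivity)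
  have h7 := mul_le_mul_of_nonneg_right hal (sq_nonneg A)
  have h8 : va chi * (va r * ((3 - va v) / 2)) * T ^ 2 ≤ va B * T ^ 2 :=
    mul_le_mul_of_nonneg_right hB (sq_nonneg T)
  have e2 : va chi * (va r * ((3 - va v) / 2)) * T ^ 2 =
      3 / 2 * va r * w - 1 / 2 * va r * w * va v := by rw [hwd]; ring
  linarith

/-- type 2 -/
theorem type2_real {r lkk lchi w0 G al ep chi : ℕ} {A T : ℝ}
    (hr : 0 < va r) (hL : -Real.log (va r) ≤ va lkk - 8)
    (hlchi : 0 < chi → 16 + Real.log (va chi) ≤ va lchi) (hw00 : 0 < w0)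
    (hG : va lchi + 2 * va lkk - 25 ≤ va G) (hal : 51 / 1000 / va w0 ^ 2 ≤ va al)
    (hep : 2 * va r ≤ va ep) (hw0 : va w0 ≤ va chi * T ^ 2) (hA : 0 ≤ A) (hT : 0 < T) :
    Psi A (va chi * T ^ 2) ≤ va G - 8 + va ep * T + va al * A ^ 2 := by
  have hw0p : 0 < va w0 := va_pos hw00
  have hwp : 0 < va chi * T ^ 2 := hw0p.trans_le hw0
  have hchi : 0 < va chi := by
    rcases (va_nonneg chi).eq_or_lt with h | h
    · rw [← h, zero_mul] at hwp; exact absurd hwp (lt_irrefl 0)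
    · exact h
  have hchi' : 0 < chi := by
    rcases Nat.eq_zero_or_pos chi with h | h
    · rw [h, va_zero] at hchi; exact absurd hchi (lt_irrefl 0)
    · exact h
  have h1 := L1b hwp hA
  have h2 : Real.log (va chi * T ^ 2) = Real.log (va chi) + 2 * Real.log T := by
    rw [Real.log_mul hchi.ne' (by positivity), Real.log_pow]; push_cast; ring
  have h3 := log_le_del hT hr hL
  have h4 := hlchi hchi'
  have h5 : 51 / 1000 * (A ^ 2 / (va chi * T ^ 2) ^ 2) ≤ va al * A ^ 2 := by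
    have h6 : (va w0) ^ 2 ≤ (va chi * T ^ 2) ^ 2 := pow_le_pow_left₀ hw0p.le hw0 2
    have h7 : A ^ 2 / (va chi * T ^ 2) ^ 2 ≤ A ^ 2 / va w0 ^ 2 :=
      div_le_div_of_nonneg_left (sq_nonneg A) (by positivity) h6
    have h8 := mul_le_mul_of_nonneg_right hal (sq_nonneg A)
    have e : 51 / 1000 / va w0 ^ 2 * A ^ 2 = 51 / 1000 * (A ^ 2 / va w0 ^ 2) := by ring
    linarith
  have h9 := mul_le_mul_of_nonneg_right hep hT.le
  linarith

/-- type 3 -/
theorem type3_real {r lkk w0 m G al B chi : ℕ} {A T : ℝ}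
    (hr : 0 < va r) (hL : -Real.log (va r) ≤ va lkk - 8) (hw00 : 0 < w0) (hm00 : 0 < m)
    (hG : va lkk + va m * va r - 1 - va al * va m ^ 2 ≤ va G)
    (hal : 2 / 27 / va w0 ^ 2 ≤ va al) (hB : va chi / va m ≤ va B)
    (hw0 : va w0 ≤ va chi * T ^ 2) (hmA : va m ≤ A) :
    Psi A (va chi * T ^ 2) ≤ va G - 8 + va B * T ^ 2 + va al * A ^ 2 := by
  have hw0p : 0 < va w0 := va_pos hw00
  have hmp : 0 < va m := va_pos hm00
  have hwp : 0 < va chi * T ^ 2 := hw0p.trans_le hw0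
  have h1 : 2 / 27 ≤ va al * (va chi * T ^ 2) ^ 2 := by
    have h6 : (va w0) ^ 2 ≤ (va chi * T ^ 2) ^ 2 := pow_le_pow_left₀ hw0p.le hw0 2
    rw [div_le_iff₀ (by positivity)] at hal
    exact hal.trans (mul_le_mul_of_nonneg_left h6 (va_nonneg _))
  have h2 := L1c hwp hmp hmA h1
  have h3 := log_le_del hmp hr hL
  have h4 : va chi * T ^ 2 / va m ≤ va B * T ^ 2 := by
    have := mul_le_mul_of_nonneg_right hB (sq_nonneg T)
    have e : va chi / va m * T ^ 2 = va chi * T ^ 2 / va m := by ring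
    linarith
  linarith

/-- the lower bound of `A` on the cell -/
theorem m_le {t0 t1 y0 y1 : ℕ} {y X τ : ℝ} (hy0 : va y0 ≤ y) (hy1 : y ≤ va y1)
    (hX0 : 0 ≤ X) (h0 : va t0 ≤ τ) (h1 : τ ≤ va t1) :
    va ((16777216 - mu t1 (16777216 + y1)) + (md t0 (16777216 + y0) - 16777216)) ≤
      AA y X τ := by
  have hy : 0 ≤ y := (va_nonneg _).trans hy0
  have hτ : 0 ≤ τ := (va_nonneg _).trans h0
  have hA : |1 - τ * (1 + y)| ≤ AA y X τ := by
    unfold AA
    rw [← Real.sqrt_sq_eq_abs]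
    refine Real.sqrt_le_sqrt ?_
    have : 0 ≤ 2 * τ * X := by positivity
    linarith
  refine le_trans ?_ hA
  rw [va_add]
  have hu : τ * (1 + y) ≤ va (mu t1 (16777216 + y1)) := by
    refine va_mu_le h1 ?_ (by linarith)
    rw [va_add, va_S]; linarith
  have hl : va (md t0 (16777216 + y0)) ≤ τ * (1 + y) := by
    refine va_md_le h0 ?_
    rw [va_add, va_S]; linarith
  rcases le_total (mu t1 (16777216 + y1)) 16777216 with h | h
  · -- then the second part vanishes
    have h3 : md t0 (16777216 + y0) ≤ 16777216 := by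
      have h4 : va (md t0 (16777216 + y0)) ≤ va 16777216 := hl.trans (hu.trans (va_le h))
      unfold va at h4
      have h5 : ((md t0 (16777216 + y0) : ℕ) : ℝ) ≤ ((16777216 : ℕ) : ℝ) := by
        have := mul_le_mul_of_nonneg_right h4 (by norm_num : (0:ℝ) ≤ 16777216)
        rwa [div_mul_cancel₀ _ (by norm_num), div_mul_cancel₀ _ (by norm_num)] at this
      exact_mod_cast h5
    rw [Nat.sub_eq_zero_of_le h3, va_zero, add_zero, va_sub_of_le h, va_S]
    have := le_abs_self (1 - τ * (1 + y))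
    linarith
  · rw [Nat.sub_eq_zero_of_le h, va_zero, zero_add]
    rcases le_total (md t0 (16777216 + y0)) 16777216 with h3 | h3
    · rw [Nat.sub_eq_zero_of_le h3, va_zero]
      exact abs_nonneg _
    · rw [va_sub_of_le h3, va_S]
      have := neg_abs_le (1 - τ * (1 + y))
      linarith

theorem AA_sq {y X τ : ℝ} (hX : 0 ≤ X) (hτ : 0 ≤ τ) : AA y X τ ^ 2 = DD (1 + y) X τ := by
  rw [AA_eq, Real.sq_sqrt (DD_nonneg hX hτ)]

theorem w0_le {chi y0 : ℕ} {y : ℝ} (hy0 : va y0 ≤ y) :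
    va (md (md chi (16777216 + y0)) (16777216 + y0)) ≤ va chi * (1 + y) ^ 2 := by
  have hT : va (16777216 + y0) ≤ 1 + y := by rw [va_add, va_S]; linarith
  have h1 : va (md chi (16777216 + y0)) ≤ va chi * (1 + y) := va_md_le le_rfl hT
  have h2 := va_md_le h1 hT
  calc _ ≤ va chi * (1 + y) * (1 + y) := h2
    _ = _ := by ring

theorem w1_ge {chi y1 : ℕ} {y : ℝ} (hy00 : 0 ≤ y) (hy1 : y ≤ va y1) :
    va chi * (1 + y) ^ 2 ≤ va (mu (mu chi (16777216 + y1)) (16777216 + y1)) := by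
  have hT : 1 + y ≤ va (16777216 + y1) := by rw [va_add, va_S]; linarith
  have h0 : 0 ≤ 1 + y := by linarith
  have h1 : va chi * (1 + y) ≤ va (mu chi (16777216 + y1)) := va_mu_le le_rfl hT h0
  have h2 := va_mu_le h1 hT h0
  calc va chi * (1 + y) ^ 2 = va chi * (1 + y) * (1 + y) := by ring
    _ ≤ _ := h2

/-! ### one `y`-cell -/

/-- the value of the majorant at one zero -/
noncomputable def Lv (J : JP) (n : Node) (b y X : ℝ) : ℝ :=
  va n.Y0 - 8 + (va n.Y1 - 4) * y - va n.nu * rho (Nat.beq J.form 3) b y X - va n.Z * Real.log (1 + y)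

/-- what a `y`-cell provides -/
def YC (J : JP) (t0 t1 chi : ℕ) (na nb : Node) (b y X : ℝ) : Prop :=
  ∃ g al : ℝ, 0 ≤ al ∧
    (∀ τ, va t0 ≤ τ → τ ≤ va t1 → (chi = 0 → 0 < AA y X τ) →
      Psi (AA y X τ) (va chi * (1 + y) ^ 2) ≤ g + al * DD (1 + y) X τ) ∧
    g + al * DD (1 + y) X (va t0) ≤ Lv J na b y X ∧
    g + al * DD (1 + y) X (va t1) ≤ Lv J nb b y X

theorem YC_of {J : JP} {t0 t1 chi : ℕ} {na nb : Node} {b y X : ℝ} {G al B ep : ℕ}
    (hX : 0 ≤ X)
    (h : ∀ τ, va t0 ≤ τ → τ ≤ va t1 → (chi = 0 → 0 < AA y X τ) →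
      Psi (AA y X τ) (va chi * (1 + y) ^ 2) ≤
        va G - 8 + va B * (1 + y) ^ 2 + va ep * (1 + y) + va al * AA y X τ ^ 2)
    (hP : Pt J na G al B ep b y X (va t0) ∧ Pt J nb G al B ep b y X (va t1)) :
    YC J t0 t1 chi na nb b y X := by
  refine ⟨va G - 8 + va B * (1 + y) ^ 2 + va ep * (1 + y), va al, va_nonneg _, ?_, ?_, ?_⟩
  · intro τ h0 h1 h2
    have h3 := h τ h0 h1 h2
    rwa [AA_sq hX ((va_nonneg _).trans h0)] at h3
  · have := hP.1
    unfold Pt at this
    unfold Lv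
    linarith
  · have := hP.2
    unfold Pt at this
    unfold Lv
    linarith

theorem hG1 {lkk rmu w0 r : ℕ} :
    va lkk + va rmu ^ 2 * (va w0 * va r) / 2 - 1 / 2 ≤
      va (lkk + (mu (mu rmu rmu) (mu w0 r) / 2 + 1) - 8388608) := by
  refine le_trans ?_ (va_sub _ _)
  rw [va_add]
  have h1 := va_div_up (mu (mu rmu rmu) (mu w0 r)) 2 (by norm_num)
  have h2 : va rmu ^ 2 * (va w0 * va r) ≤ va (mu (mu rmu rmu) (mu w0 r)) := by
    refine va_mu_le ?_ (va_mu _ _) (mul_nonneg (va_nonneg _) (va_nonneg _))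
    rw [sq]; exact va_mu _ _
  have h3 : va 8388608 = 1 / 2 := by norm_num [va]
  push_cast at h1
  linarith

theorem hal1 {r w0 : ℕ} : 1 / 2 * va r ^ 2 * (1 - va w0 * va r) ≤
    va (mu r r * (16777216 - md w0 r) / 33554432 + 1) := by
  have h1 := lt_div_add_one (mu r r * (16777216 - md w0 r)) 33554432 (by norm_num)
  have h2 : va r ^ 2 ≤ va (mu r r) := by rw [sq]; exact va_mu _ _
  have h3 : 1 - va w0 * va r ≤ va (16777216 - md w0 r) := by
    refine le_trans ?_ (va_sub _ _)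
    have := va_md w0 r
    rw [va_S]
    linarith
  have h4 : va r ^ 2 * (1 - va w0 * va r) ≤ va (mu r r) * va (16777216 - md w0 r) := by
    rcases le_total (1 - va w0 * va r) 0 with h | h
    · have h5 : va r ^ 2 * (1 - va w0 * va r) ≤ 0 := mul_nonpos_of_nonneg_of_nonpos (sq_nonneg _) h
      exact h5.trans (mul_nonneg (va_nonneg _) (va_nonneg _))
    · exact mul_le_mul h2 h3 h (va_nonneg _)
  have h5 : va (mu r r) * va (16777216 - md w0 r) / 2 ≤
      va (mu r r * (16777216 - md w0 r) / 33554432 + 1) := by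
    rw [va_mul_div]
    have e : va (mu r r * (16777216 - md w0 r) / 33554432 + 1) =
        ((mu r r * (16777216 - md w0 r) / 33554432 + 1 : ℕ) : ℝ) / 16777216 := rfl
    rw [e]
    push_cast at h1 ⊢
    rw [div_div, div_le_div_iff₀ (by norm_num) (by norm_num)]
    rw [div_le_iff₀ (by norm_num)] at h1
    nlinarith
  linarith

theorem hB1 {chi r v : ℕ} : va chi * (va r * ((3 - va v) / 2)) ≤
    va (mu chi (mu r ((50331648 - v) / 2 + 1))) := by
  have h1 := va_div_up (50331648 - v) 2 (by norm_num)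
  have h2 := va_sub 50331648 v
  have h3 : va 50331648 = 3 := by norm_num [va]
  push_cast at h1
  have h4 : (3 - va v) / 2 ≤ va ((50331648 - v) / 2 + 1) := by linarith
  have h5 : va r * ((3 - va v) / 2) ≤ va (mu r ((50331648 - v) / 2 + 1)) :=
    (mul_le_mul_of_nonneg_left h4 (va_nonneg _)).trans (va_mu _ _)
  exact (mul_le_mul_of_nonneg_left h5 (va_nonneg _)).trans (va_mu _ _)

theorem hG2 {lchi lkk : ℕ} : va lchi + 2 * va lkk - 25 ≤ va (lchi + 2 * lkk - 419430400) := by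
  refine le_trans ?_ (va_sub _ _)
  rw [va_add, va_nmul]
  have h3 : va 419430400 = 25 := by norm_num [va]
  push_cast
  linarith

theorem hal2 {w0 : ℕ} (h : 0 < w0) : 51 / 1000 / va w0 ^ 2 ≤
    va (240840690626351905898496 / (1000 * (w0 * w0)) + 1) := by
  have hw : (0 : ℝ) < w0 := by exact_mod_cast h
  have h1 := lt_div_add_one 240840690626351905898496 (1000 * (w0 * w0)) (by positivity)
  have e : 51 / 1000 / va w0 ^ 2 =
      (((240840690626351905898496 : ℕ) : ℝ) / ((1000 * (w0 * w0) : ℕ) : ℝ)) / 16777216 := by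
    unfold va
    push_cast
    field_simp
    norm_num
  rw [e]
  exact div_le_div_of_nonneg_right h1 (by norm_num)

theorem hal3 {w0 : ℕ} (h : 0 < w0) : 2 / 27 / va w0 ^ 2 ≤
    va (9444732965739290427392 / (27 * (w0 * w0)) + 1) := by
  have hw : (0 : ℝ) < w0 := by exact_mod_cast h
  have h1 := lt_div_add_one 9444732965739290427392 (27 * (w0 * w0)) (by positivity)
  have e : 2 / 27 / va w0 ^ 2 =
      (((9444732965739290427392 : ℕ) : ℝ) / ((27 * (w0 * w0) : ℕ) : ℝ)) / 16777216 := by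
    unfold va
    push_cast
    field_simp
    norm_num
  rw [e]
  exact div_le_div_of_nonneg_right h1 (by norm_num)

theorem hG3 {lkk m r al : ℕ} : va lkk + va m * va r - 1 - va al * va m ^ 2 ≤
    va ((lkk + mu m r) - 16777216 - md (md al m) m) := by
  refine le_trans ?_ (va_sub _ _)
  have h1 := va_sub (lkk + mu m r) 16777216
  rw [va_add, va_S] at h1
  have h2 := va_mu m r
  have h3 : va (md (md al m) m) ≤ va al * va m ^ 2 := by
    have := va_md_le (va_md al m) (le_refl (va m))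
    calc _ ≤ va al * va m * va m := this
      _ = _ := by ring
  linarith

theorem hB3 {chi m : ℕ} (h : 0 < m) : va chi / va m ≤ va (chi * 16777216 / m + 1) := by
  have hm : (0 : ℝ) < m := by exact_mod_cast h
  have h1 := lt_div_add_one (chi * 16777216) m h
  have e : va chi / va m = (((chi * 16777216 : ℕ) : ℝ) / (m : ℝ)) / 16777216 := by
    unfold va
    push_cast
    field_simp
  rw [e]
  exact div_le_div_of_nonneg_right h1 (by norm_num)

end Pool.Agent.Lib.MP_172a45_an.LP
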