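import Pool.Agent.Lib.MP_172a45_an.LP.Sound2

set_option autoImplicit false

/-!
# Soundness of the certificate checker, part 3: `y`-cells and `τ`-cells
-/

namespace Pool.Agent.Lib.MP_172a45_an.LP

open Finset Real Pool.Agent.Lib.MP_172a45_an.F

/-- the lower bound of `|1 - τ T|` on the cell -/
def mm (t0 t1 y0 y1 : ℕ) : ℕ :=
  (16777216 - mu t1 (16777216 + y1)) + (md t0 (16777216 + y0) - 16777216)

theorem ycell_typ {J : JP} {t0 t1 chi lchi : ℕ} {na nb : Node} {y0 y1 typ k kp l : ℕ}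
    (h : ycell J t0 t1 chi lchi na nb y0 y1 typ k kp l = true) :
    (y0 ≤ y1 ∧ k < 1024 ∧ kp < 1024) ∧ (typ = 1 ∨ typ = 2 ∨ typ = 3) := by
  unfold ycell at h
  simp only [Bool.and_eq_true, Nat.blt_eq] at h
  obtain ⟨⟨h1, h2, h3⟩, h4⟩ := h
  refine ⟨⟨Nat.le_of_ble_eq_true h1, h2, h3⟩, ?_⟩
  by_contra hc
  push Not at hc
  obtain ⟨c1, c2, c3⟩ := hc
  split at h4
  · exact c1 rfl
  · exact c2 rfl
  · exact c3 rfl
  · exact absurd h4 (by decide)

theorem ycell1 {J : JP} {t0 t1 chi lchi : ℕ} {na nb : Node} {y0 y1 k kp l : ℕ}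
    (h : ycell J t0 t1 chi lchi na nb y0 y1 1 k kp l = true) :
    ∃ m r w0 w1 om rm v rmu : ℕ, m = mm t0 t1 y0 y1 ∧ r = rk k ∧
      w0 = md (md chi (16777216 + y0)) (16777216 + y0) ∧
      w1 = mu (mu chi (16777216 + y1)) (16777216 + y1) ∧ om = mu w1 r ∧ rm = md m r ∧
      v = md rm rm ∧ rmu = mu m r ∧
      (5 * om ≤ 33554432 ∨ (3 * om ≤ 33554432 ∧ om ≤ rm ∧
        om * 16777216 ≤ (16777216 - om) * (v + rm))) ∧
      rowc J (lk k + (mu (mu rmu rmu) (mu w0 r) / 2 + 1) - 8388608)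
        (mu r r * (16777216 - md w0 r) / 33554432 + 1)
        (mu chi (mu r ((50331648 - v) / 2 + 1))) 0 kp l t0 t1 na nb y0 y1 = true := by
  refine ⟨_, _, _, _, _, _, _, _, rfl, rfl, rfl, rfl, rfl, rfl, rfl, rfl, ?_⟩
  unfold ycell at h
  simp only [Bool.and_eq_true, Bool.or_eq_true, Nat.blt_eq, Nat.ble_eq] at h
  unfold mm
  exact h.2

theorem ycell2 {J : JP} {t0 t1 chi lchi : ℕ} {na nb : Node} {y0 y1 k kp l : ℕ}
    (h : ycell J t0 t1 chi lchi na nb y0 y1 2 k kp l = true) :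
    ∃ r w0 : ℕ, r = rk k ∧ w0 = md (md chi (16777216 + y0)) (16777216 + y0) ∧ 0 < w0 ∧
      rowc J (lchi + 2 * lk k - 419430400)
          (240840690626351905898496 / (1000 * (w0 * w0)) + 1) 0 (2 * r) kp l t0 t1 na nb
          y0 y1 = true := by
  refine ⟨_, _, rfl, rfl, ?_⟩
  unfold ycell at h
  simp only [Bool.and_eq_true, Nat.blt_eq] at h
  exact h.2

theorem ycell3 {J : JP} {t0 t1 chi lchi : ℕ} {na nb : Node} {y0 y1 k kp l : ℕ}
    (h : ycell J t0 t1 chi lchi na nb y0 y1 3 k kp l = true) :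
    ∃ m r w0 : ℕ, m = mm t0 t1 y0 y1 ∧ r = rk k ∧
      w0 = md (md chi (16777216 + y0)) (16777216 + y0) ∧ (0 < w0 ∧ 0 < m) ∧
      rowc J ((lk k + mu m r) - 16777216 -
          md (md (9444732965739290427392 / (27 * (w0 * w0)) + 1) m) m)
        (9444732965739290427392 / (27 * (w0 * w0)) + 1)
        (chi * 16777216 / m + 1) 0 kp l t0 t1 na nb y0 y1 = true := by
  refine ⟨_, _, _, rfl, rfl, rfl, ?_⟩
  unfold ycell at h
  simp only [Bool.and_eq_true, Nat.blt_eq] at h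
  unfold mm
  exact h.2

/-- soundness of one `y`-cell -/
theorem ycell_sound {J : JP} (hJ : JR J) {t0 t1 chi lchi : ℕ} {na nb : Node}
    {y0 y1 typ k kp l : ℕ}
    (h : ycell J t0 t1 chi lchi na nb y0 y1 typ k kp l = true)
    (hlchi : 0 < chi → 16 + Real.log (va chi) ≤ va lchi)
    {b y X : ℝ} (hb : 0 < b) (hb0 : va J.b0 ≤ b) (hb1 : b ≤ va J.b1) (hy00 : 0 ≤ y)
    (hy0 : va y0 ≤ y) (hy1 : y ≤ va y1) (hX0 : 0 ≤ X)
    (hX : X ≤ va J.ka * (y + va J.b1 * y ^ 2 / 2))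
    (hE : 0 < (1 + b * y) ^ 2 - 2 * (1 - b) * b * X) :
    YC J t0 t1 chi na nb b y X := by
  obtain ⟨⟨h01, hk, hkp⟩, htyp⟩ := ycell_typ h
  have hT : 0 < 1 + y := by linarith
  have hw0 := w0_le (chi := chi) hy0
  have hw1 := w1_ge (chi := chi) hy00 hy1
  have hr : 0 < va (rk k) := va_pos (rk_pos hk)
  have hL : -Real.log (va (rk k)) ≤ va (lk k) - 8 := neg_log_rk_le hk
  rcases htyp with rfl | rfl | rfl
  · obtain ⟨m, r, w0, w1, om, rm, v, rmu, hm, hrd, hw0d, hw1d, hom, hrm, hv, hrmu, hc, hrow⟩ :=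
      ycell1 h
    rw [← hw0d] at hw0
    rw [← hw1d] at hw1
    rw [← hrd] at hr hL
    have hP := rowc_sound hJ hkp hrow hb hb0 hb1 hy00 hy0 hy1 hX0 hX hE
    refine YC_of hX0 (fun τ ht0 ht1 hA0 => ?_) hP
    have hmA : va m ≤ AA y X τ := by rw [hm]; exact m_le hy0 hy1 hX0 ht0 ht1
    have h1 := type1_real (lkk := lk k) (A := AA y X τ) (T := 1 + y) hr hL
      (by rw [hom]; exact va_mu w1 r) (by rw [hrm]; exact va_md m r)
      (by rw [hv, sq]; exact va_md rm rm) (by rw [hrmu]; exact va_mu m r) hc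
      (hG1 (lkk := lk k) (rmu := rmu) (w0 := w0) (r := r)) (hal1 (r := r) (w0 := w0))
      (hB1 (chi := chi) (r := r) (v := v)) hw0 hw1 hmA hT hA0
    rw [va_zero, zero_mul, add_zero]
    exact h1
  · obtain ⟨r, w0, hrd, hw0d, hw00, hrow⟩ := ycell2 h
    rw [← hw0d] at hw0
    rw [← hrd] at hr hL
    have hP := rowc_sound hJ hkp hrow hb hb0 hb1 hy00 hy0 hy1 hX0 hX hE
    refine YC_of hX0 (fun τ ht0 ht1 hA0 => ?_) hP
    have h1 := type2_real (lkk := lk k) (A := AA y X τ) (T := 1 + y) hr hL hlchi hw00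
      (hG2 (lchi := lchi) (lkk := lk k)) (hal2 hw00)
      (by rw [va_nmul]; norm_num : 2 * va r ≤ va (2 * r)) hw0 (Real.sqrt_nonneg _) hT
    rw [va_zero, zero_mul, add_zero]
    exact h1
  · obtain ⟨m, r, w0, hm, hrd, hw0d, ⟨hw00, hm00⟩, hrow⟩ := ycell3 h
    rw [← hw0d] at hw0
    rw [← hrd] at hr hL
    have hP := rowc_sound hJ hkp hrow hb hb0 hb1 hy00 hy0 hy1 hX0 hX hE
    refine YC_of hX0 (fun τ ht0 ht1 hA0 => ?_) hP
    have hmA : va m ≤ AA y X τ := by rw [hm]; exact m_le hy0 hy1 hX0 ht0 ht1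
    have h1 := type3_real (lkk := lk k) (A := AA y X τ) (T := 1 + y) hr hL hw00 hm00
      (hG3 (lkk := lk k) (m := m) (r := r)) (hal3 hw00) (hB3 (chi := chi) hm00) hw0 hmA
    rw [va_zero, zero_mul, add_zero]
    exact h1

theorem ycells_cons {J : JP} {t0 t1 chi lchi : ℕ} {na nb : Node} {ymax y0 w : ℕ} {ws : List ℕ}
    (h : ycells J t0 t1 chi lchi na nb ymax y0 (w :: ws) = true) :
    ∃ y1 typ k kp l, ycell J t0 t1 chi lchi na nb y0 y1 typ k kp l = true ∧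
      ycells J t0 t1 chi lchi na nb ymax y1 ws = true := by
  rw [ycells] at h
  simp only [Bool.and_eq_true] at h
  exact ⟨_, _, _, _, _, h⟩

/-- soundness of all `y`-cells -/
theorem ycells_sound {J : JP} (hJ : JR J) {t0 t1 chi lchi : ℕ} {na nb : Node} {ymax : ℕ}
    (hlchi : 0 < chi → 16 + Real.log (va chi) ≤ va lchi)
    {b y X : ℝ} (hb : 0 < b) (hb0 : va J.b0 ≤ b) (hb1 : b ≤ va J.b1) (hy00 : 0 ≤ y)
    (hymax : y ≤ va ymax) (hX0 : 0 ≤ X)
    (hX : X ≤ va J.ka * (y + va J.b1 * y ^ 2 / 2))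
    (hE : 0 < (1 + b * y) ^ 2 - 2 * (1 - b) * b * X) :
    ∀ (ws : List ℕ) (y0 : ℕ), ycells J t0 t1 chi lchi na nb ymax y0 ws = true →
      va y0 ≤ y → ws ≠ [] ∨ va y0 < y → YC J t0 t1 chi na nb b y X := by
  intro ws
  induction ws with
  | nil =>
    intro y0 h hy0 hne
    rw [ycells] at h
    have h1 := va_le (Nat.le_of_ble_eq_true h)
    rcases hne with h2 | h2
    · exact absurd rfl h2
    · exact absurd (hymax.trans h1) (not_le.2 h2)
  | cons w ws ih =>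
    intro y0 h hy0 _
    obtain ⟨y1, typ, k, kp, l, h1, h2⟩ := ycells_cons h
    rcases le_or_gt y (va y1) with h3 | h3
    · exact ycell_sound hJ h1 hlchi hb hb0 hb1 hy00 hy0 h3 hX0 hX hE
    · exact ih y1 h2 h3.le (Or.inr h3)

end Pool.Agent.Lib.MP_172a45_an.LP
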