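import Pool.Agent.Lib.MP_172a45_an.LP.SoundG

set_option autoImplicit false

/-!
# Soundness of the certificate checker, part 4: nodes, `τ`-cells, the job
-/

namespace Pool.Agent.Lib.MP_172a45_an.LP

open Finset Real Pool.Agent.Lib.MP_172a45_an.F

/-- the majorant summed over the zeros, at a node -/
theorem sum_Lv {J : JP} {n : Node} {N : ℕ} {a Δ : ℝ} {y X : Fin N → ℝ} (h : FV N a Δ y X) (b : ℝ) :
    ∑ l, Lv J n b (y l) (X l) = N * (va n.Y0 - 8) + (va n.Y1 - 4) * (a * N) -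
      va n.nu * ∑ l, rho (Nat.beq J.form 3) b (y l) (X l) -
      va n.Z * (N * Real.log (1 + a) - Δ) := by
  unfold Lv
  rw [Finset.sum_sub_distrib, Finset.sum_sub_distrib, Finset.sum_add_distrib,
    ← Finset.mul_sum, ← Finset.mul_sum, ← Finset.mul_sum, h.sum, h.sumlog]
  simp only [Finset.sum_const, Finset.card_univ, Fintype.card_fin, nsmul_eq_mul]

theorem vchk_def3 {J : JP} {N K la D1 kD1 : ℕ} {n : Node} {kG : ℕ}
    (hf : Nat.beq J.form 3 = true) (h : vchk J N K la D1 kD1 n kG = true) :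
    (kG < 1535 ∧ (0 < kD1 ∨ n.Z = 0)) ∧
      N * n.Y0 * 16777216 + N * (n.Y1 - 67108864) * (16777216 - J.b0) + n.Z * D1 +
        n.nu * K + (lg kG + 4) * 16777216 ≤
        (8 * N + 8) * 281474976710656 + N * (67108864 - n.Y1) * (16777216 - J.b1) +
          n.Z * N * la := by
  unfold vchk at h
  rw [hf, cond_true] at h
  simp only [Bool.and_eq_true, Bool.or_eq_true, Nat.blt_eq, Nat.ble_eq] at h
  obtain ⟨⟨h1, h2⟩, h3⟩ := h
  exact ⟨⟨h1, h2.imp id fun h => Nat.eq_of_beq_eq_true h⟩, h3⟩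

theorem vchk_def4 {J : JP} {N K la D1 kD1 : ℕ} {n : Node} {kG : ℕ}
    (hf : Nat.beq J.form 3 = false) (h : vchk J N K la D1 kD1 n kG = true) :
    (kG < 1535 ∧ (0 < kD1 ∨ n.Z = 0)) ∧
      N * n.Y0 * 16777216 + N * (n.Y1 - 67108864) * (16777216 - J.b0) + n.Z * D1 +
        (lg kG + 4) * 16777216 ≤
        (8 * N + 8) * 281474976710656 + N * (67108864 - n.Y1) * (16777216 - J.b1) +
          n.Z * N * la + n.nu * K := by
  unfold vchk at h
  rw [hf, cond_false] at h
  simp only [Bool.and_eq_true, Bool.or_eq_true, Nat.blt_eq, Nat.ble_eq] at h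
  obtain ⟨⟨h1, h2⟩, h3⟩ := h
  exact ⟨⟨h1, h2.imp id fun h => Nat.eq_of_beq_eq_true h⟩, h3⟩

/-- splitting of the multiplier of `y` -/
theorem Y1_split (n : Node) : va n.Y1 - 4 = va (n.Y1 - 67108864) - va (67108864 - n.Y1) := by
  have e : va 67108864 = 4 := by norm_num [va]
  rcases le_total n.Y1 67108864 with h | h
  · rw [Nat.sub_eq_zero_of_le h, va_sub_of_le h, va_zero, e]; ring
  · rw [Nat.sub_eq_zero_of_le h, va_sub_of_le h, va_zero, e]; ring

/-- the row constant -/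
def RK (J : JP) (K : ℕ) (s : ℝ) : Prop :=
  (Nat.beq J.form 3 = true → -va K ≤ s) ∧ (Nat.beq J.form 3 = false → va K ≤ s)

theorem vchk_sound {J : JP} (hJ : JR J) {N K la D1 kD1 : ℕ} {n : Node} {kG : ℕ}
    (hc : vchk J N K la D1 kD1 n kG = true) {a Δ : ℝ} {y X : Fin N → ℝ} (h : FV N a Δ y X)
    (ha1 : a ≤ 1 - va J.b0) (ha2 : 1 - va J.b1 ≤ a)
    (hK : RK J K (∑ l, rho (Nat.beq J.form 3) (1 - a) (y l) (X l)))
    (hla : va la ≤ Real.log (1 + a)) (hD : 0 < kD1 → Δ ≤ va D1) :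
    kG < 1535 ∧ ∑ l, Lv J n (1 - a) (y l) (X l) ≤ 8 - va (lg kG + 4) := by
  rw [sum_Lv h]
  set R := ∑ l, rho (Nat.beq J.form 3) (1 - a) (y l) (X l) with hR
  have hN : (0 : ℝ) ≤ N := Nat.cast_nonneg N
  have k1 : (va n.Y1 - 4) * (a * N) ≤ va (n.Y1 - 67108864) * ((1 - va J.b0) * N) -
      va (67108864 - n.Y1) * ((1 - va J.b1) * N) := by
    rw [Y1_split]
    have c1 := mul_le_mul_of_nonneg_left (mul_le_mul_of_nonneg_right ha1 hN)
      (va_nonneg (n.Y1 - 67108864))
    have c2 := mul_le_mul_of_nonneg_left (mul_le_mul_of_nonneg_right ha2 hN)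
      (va_nonneg (67108864 - n.Y1))
    linarith
  have k2 : va n.Z * (N * va la) ≤ va n.Z * (N * Real.log (1 + a)) :=
    mul_le_mul_of_nonneg_left (mul_le_mul_of_nonneg_left hla hN) (va_nonneg _)
  have hb0 : ((16777216 - J.b0 : ℕ) : ℝ) = 16777216 * (1 - va J.b0) := by
    rw [← hJ.va_b0]; unfold va; field_simp
  have hb1 : ((16777216 - J.b1 : ℕ) : ℝ) = 16777216 * (1 - va J.b1) := by
    rw [← hJ.va_b1]; unfold va; field_simp
  obtain ⟨u, hu⟩ : ∃ u, u = n.Y1 - 67108864 := ⟨_, rfl⟩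
  obtain ⟨v, hv⟩ : ∃ v, v = 67108864 - n.Y1 := ⟨_, rfl⟩
  rw [← hu, ← hv] at k1
  cases hf : Nat.beq J.form 3
  · obtain ⟨⟨hkG, hZ⟩, h1⟩ := vchk_def4 hf hc
    refine ⟨hkG, ?_⟩
    have hKR := hK.2 hf
    obtain ⟨G, hG⟩ : ∃ G, G = lg kG + 4 := ⟨_, rfl⟩
    have k3 : va n.Z * Δ ≤ va n.Z * va D1 := by
      rcases hZ with hZ | hZ
      · exact mul_le_mul_of_nonneg_left (hD hZ) (va_nonneg _)
      · rw [hZ, va_zero, zero_mul, zero_mul]
    have k4 := mul_le_mul_of_nonneg_left hKR (va_nonneg n.nu)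
    rw [← hu, ← hv, ← hG] at h1
    have h2 : ((N * n.Y0 * 16777216 + N * u * (16777216 - J.b0) + n.Z * D1 +
        G * 16777216 : ℕ) : ℝ) ≤
        (((8 * N + 8) * 281474976710656 + N * v * (16777216 - J.b1) + n.Z * N * la +
          n.nu * K : ℕ) : ℝ) := by
      exact_mod_cast h1
    rw [Nat.cast_add, Nat.cast_add, Nat.cast_add, Nat.cast_mul (N * u), hb0,
      Nat.cast_add, Nat.cast_add, Nat.cast_add, Nat.cast_mul (N * v), hb1] at h2
    push_cast at h2
    have h3 : N * va n.Y0 + va u * ((1 - va J.b0) * N) + va n.Z * va D1 + va G ≤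
        8 * N + 8 + va v * ((1 - va J.b1) * N) + va n.Z * (N * va la) + va n.nu * va K := by
      have h4 := div_le_div_of_nonneg_right h2 (by norm_num : (0:ℝ) ≤ 16777216 * 16777216)
      calc _ = _ := ?_
        _ ≤ _ := h4
        _ = _ := ?_
      · unfold va; ring
      · unfold va; ring
    rw [← hG]
    linarith
  · obtain ⟨⟨hkG, hZ⟩, h1⟩ := vchk_def3 hf hc
    refine ⟨hkG, ?_⟩
    have hKR := hK.1 hf
    obtain ⟨G, hG⟩ : ∃ G, G = lg kG + 4 := ⟨_, rfl⟩
    have k3 : va n.Z * Δ ≤ va n.Z * va D1 := by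
      rcases hZ with hZ | hZ
      · exact mul_le_mul_of_nonneg_left (hD hZ) (va_nonneg _)
      · rw [hZ, va_zero, zero_mul, zero_mul]
    have k4 := mul_le_mul_of_nonneg_left hKR (va_nonneg n.nu)
    rw [← hu, ← hv, ← hG] at h1
    have h2 : ((N * n.Y0 * 16777216 + N * u * (16777216 - J.b0) + n.Z * D1 + n.nu * K +
        G * 16777216 : ℕ) : ℝ) ≤
        (((8 * N + 8) * 281474976710656 + N * v * (16777216 - J.b1) + n.Z * N * la : ℕ) : ℝ) := by
      exact_mod_cast h1
    rw [Nat.cast_add, Nat.cast_add, Nat.cast_add, Nat.cast_add, Nat.cast_mul (N * u), hb0,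
      Nat.cast_add, Nat.cast_add, Nat.cast_mul (N * v), hb1] at h2
    push_cast at h2
    have h3 : N * va n.Y0 + va u * ((1 - va J.b0) * N) + va n.Z * va D1 + va n.nu * va K +
        va G ≤ 8 * N + 8 + va v * ((1 - va J.b1) * N) + va n.Z * (N * va la) := by
      have h4 := div_le_div_of_nonneg_right h2 (by norm_num : (0:ℝ) ≤ 16777216 * 16777216)
      calc _ = _ := ?_
        _ ≤ _ := h4
        _ = _ := ?_
      · unfold va; ring
      · unfold va; ring
    rw [← hG]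
    linarith

theorem tcells_cons {J : JP} {ymax t0 : ℕ} {c : TC} {cs : List TC}
    (h : tcells J ymax t0 (c :: cs) = true) :
    (t0 < c.t1 ∧ 0 < c.chi ∧ c.kchi < 1024) ∧
      ycells J t0 c.t1 c.chi (lk c.kchi + 117440512 + mu c.chi (rk c.kchi)) c.na c.nb
        ymax 0 c.ys = true ∧ tcells J ymax c.t1 cs = true := by
  rw [tcells] at h
  simp only [Bool.and_eq_true, Nat.blt_eq] at h
  exact h

theorem gsum_cons {J : JP} {N K la D1 kD1 t0 : ℕ} {c : TC} {cs : List TC} {g : ℕ} {gs : List ℕ}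
    {acc : ℕ} (h : gsum J N K la D1 kD1 t0 (c :: cs) (g :: gs) acc = true) :
    (vchk J N K la D1 kD1 c.na (g / 2048) = true ∧ vchk J N K la D1 kD1 c.nb (g % 2048) = true) ∧
    gsum J N K la D1 kD1 c.t1 cs gs
      (acc + ((c.t1 - t0) * pcA t0 c.t1 (g / 2048) (g % 2048) *
        36788 / (9600000 * c.chi * 16777216) + 1)) = true := by
  rw [gsum] at h
  simpa only [Bool.and_eq_true] using h

theorem lchi_ok {chi kchi : ℕ} (hk : kchi < 1024) :
    0 < chi → 16 + Real.log (va chi) ≤ va (lk kchi + 117440512 + mu chi (rk kchi)) := by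
  intro hchi
  have hr : 0 < va (rk kchi) := va_pos (rk_pos hk)
  have hL : -Real.log (va (rk kchi)) ≤ va (lk kchi) - 8 := neg_log_rk_le hk
  have h1 := log_le_del (va_pos hchi) hr hL
  rw [va_add, va_add]
  have h2 : va 117440512 = 7 := by norm_num [va]
  have h3 := va_mu chi (rk kchi)
  rw [h2]
  linarith

theorem exp_neg_one_le : Real.exp (-1) ≤ 36788 / 100000 := by
  rw [Real.exp_neg]
  have h1 := Real.exp_one_gt_d9
  have h2 : (Real.exp 1)⁻¹ ≤ (2.7182818283 : ℝ)⁻¹ := inv_anti₀ (by norm_num) h1.le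
  refine h2.trans ?_
  norm_num

/-- the rounding of the integral bound of one cell -/
theorem cell_round {t0 t1 chi ka kb : ℕ} (h01 : t0 < t1) (hchi : 0 < chi) :
    (va chi)⁻¹ * Real.exp (-1) * ((va t1 - va t0) / 96 * ((11 * va t0 + va t1) * va (rg ka) +
      6 * ((3 * va t0 + va t1) * va (rg ((3 * ka + kb) / 4))) +
      12 * ((va t0 + va t1) * va (rg ((ka + kb) / 2))) +
      6 * ((va t0 + 3 * va t1) * va (rg ((ka + 3 * kb) / 4))) +
      (va t0 + 11 * va t1) * va (rg kb))) ≤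
      va ((t1 - t0) * pcA t0 t1 ka kb * 36788 / (9600000 * chi * 16777216) + 1) := by
  have hc : (0 : ℝ) < chi := by exact_mod_cast hchi
  have h1 := lt_div_add_one ((t1 - t0) * pcA t0 t1 ka kb * 36788)
    (9600000 * chi * 16777216) (by positivity)
  have h2 := div_le_div_of_nonneg_right h1 (by norm_num : (0:ℝ) ≤ 16777216)
  refine le_trans ?_ h2
  rw [Nat.cast_mul ((t1 - t0) * _), Nat.cast_mul (t1 - t0), Nat.cast_sub h01.le]
  have hd : (0 : ℝ) ≤ t1 - t0 := by
    have : (t0 : ℝ) < t1 := by exact_mod_cast h01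
    linarith
  obtain ⟨w, hw⟩ : ∃ w : ℝ, w = ((pcA t0 t1 ka kb : ℕ) : ℝ) := ⟨_, rfl⟩
  have hw0 : 0 ≤ w := by rw [hw]; positivity
  have e1 : (va chi)⁻¹ * Real.exp (-1) * ((va t1 - va t0) / 96 * ((11 * va t0 + va t1) *
      va (rg ka) + 6 * ((3 * va t0 + va t1) * va (rg ((3 * ka + kb) / 4))) +
      12 * ((va t0 + va t1) * va (rg ((ka + kb) / 2))) +
      6 * ((va t0 + 3 * va t1) * va (rg ((ka + 3 * kb) / 4))) +
      (va t0 + 11 * va t1) * va (rg kb))) =
      Real.exp (-1) * (((t1 : ℝ) - t0) * w / (96 * chi * (16777216 * 16777216))) := by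
    rw [hw]
    unfold va pcA
    push_cast
    field_simp
  rw [← hw]
  push_cast
  have e2 : ((t1 : ℝ) - t0) * w * 36788 / (9600000 * chi * 16777216) / 16777216 =
      36788 / 100000 * (((t1 : ℝ) - t0) * w / (96 * chi * (16777216 * 16777216))) := by
    field_simp
    ring
  rw [e1, e2]
  exact mul_le_mul_of_nonneg_right exp_neg_one_le (by positivity)

/-- facts about the zeros used by all cells -/
structure ZF (J : JP) (ymax : ℕ) {N : ℕ} (a : ℝ) (y X : Fin N → ℝ) : Prop where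
  b : 0 < 1 - a
  b0 : va J.b0 ≤ 1 - a
  b1 : 1 - a ≤ va J.b1
  y0 : ∀ l, 0 ≤ y l
  ym : ∀ l, y l ≤ va ymax
  X0 : ∀ l, 0 ≤ X l
  X1 : ∀ l, X l ≤ va J.ka * (y l + va J.b1 * y l ^ 2 / 2)
  E : ∀ l, 0 < (1 + (1 - a) * y l) ^ 2 - 2 * (1 - (1 - a)) * (1 - a) * X l

theorem ZF.cell {J : JP} {ymax N : ℕ} {a : ℝ} {y X : Fin N → ℝ} (h : ZF J ymax a y X) (hJ : JR J)
    (hym : 0 < ymax) {t0 t1 chi lchi : ℕ} {na nb : Node} {ws : List ℕ}
    (hlchi : 0 < chi → 16 + Real.log (va chi) ≤ va lchi)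
    (hc : ycells J t0 t1 chi lchi na nb ymax 0 ws = true) (l : Fin N) :
    YC J t0 t1 chi na nb (1 - a) (y l) (X l) := by
  refine ycells_sound hJ hlchi h.b h.b0 h.b1 (h.y0 l) (h.ym l) (h.X0 l) (h.X1 l) (h.E l) ws 0 hc
    (by rw [va_zero]; exact h.y0 l) ?_
  left
  intro hws
  rw [hws, ycells] at hc
  have := Nat.le_of_ble_eq_true hc
  omega

theorem end_le {J : JP} (hJ : JR J) {a : ℝ} (ha0 : 0 < a) (hb0 : va J.b0 ≤ 1 - a) {t : ℕ}
    (h : (16777216 - J.b0) * 16777216 ≤ t * (33554432 - J.b0)) : a / (1 + a) ≤ va t := by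
  have hb : J.b0 < 16777216 := hJ.b01.trans hJ.b1
  have h1 : ((16777216 - J.b0 : ℕ) : ℝ) * 16777216 ≤ t * ((33554432 - J.b0 : ℕ) : ℝ) := by
    exact_mod_cast h
  rw [Nat.cast_sub hb.le, Nat.cast_sub (by omega)] at h1
  push_cast at h1
  have h2 : (1 - va J.b0) ≤ va t * (2 - va J.b0) := by
    have h4 := div_le_div_of_nonneg_right h1 (by norm_num : (0:ℝ) ≤ 16777216 * 16777216)
    calc _ = _ := ?_
      _ ≤ _ := h4
      _ = _ := ?_
    · unfold va; ring
    · unfold va; ring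
  have h3 := va_nonneg t
  rw [div_le_iff₀ (by linarith)]
  have h4 : va t ≤ 1 ∨ 1 ≤ va t := le_total _ _
  rcases h4 with h4 | h4
  · nlinarith
  · nlinarith

theorem cells_sound {J : JP} (hJ : JR J) {ymax N K la D1 kD1 : ℕ} {a Δ : ℝ} {y X : Fin N → ℝ}
    (h : FV N a Δ y X) (hZ : ZF J ymax a y X) (hym : 0 < ymax)
    (hK : RK J K (∑ l, rho (Nat.beq J.form 3) (1 - a) (y l) (X l)))
    (hla : va la ≤ Real.log (1 + a)) (hD : 0 < kD1 → Δ ≤ va D1) :
    ∀ (cs : List TC) (gs : List ℕ) (t0 acc : ℕ), tcells J ymax t0 cs = true →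
      gsum J N K la D1 kD1 t0 cs gs acc = true →
      ∃ te : ℝ, a / (1 + a) ≤ te ∧ va t0 ≤ te ∧ va acc + ∫ τ in (va t0)..te, Fi y X τ < 1 := by
  intro cs
  induction cs with
  | nil =>
    intro gs t0 acc ht hg
    rw [tcells] at ht
    rw [gsum] at hg
    refine ⟨va t0, end_le hJ h.a0 hZ.b0 (Nat.le_of_ble_eq_true ht), le_rfl, ?_⟩
    rw [intervalIntegral.integral_same, add_zero]
    have := va_lt (by simpa using hg : acc < 16777216)
    rwa [va_S] at this
  | cons c cs ih =>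
    intro gs t0 acc ht hg
    cases gs with
    | nil =>
      rw [gsum] at hg
      exact absurd hg (by decide)
    | cons g gs =>
      obtain ⟨⟨h01, hchi, hkchi⟩, hyc, ht⟩ := tcells_cons ht
      obtain ⟨⟨hva, hvb⟩, hg⟩ := gsum_cons hg
      obtain ⟨te, h1, h2, h3⟩ := ih gs c.t1 _ ht hg
      have ha1 : a ≤ 1 - va J.b0 := by linarith [hZ.b0]
      have ha2 : 1 - va J.b1 ≤ a := by linarith [hZ.b1]
      obtain ⟨hka, hsa⟩ := vchk_sound hJ hva h ha1 ha2 hK hla hD
      obtain ⟨hkb, hsb⟩ := vchk_sound hJ hvb h ha1 ha2 hK hla hD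
      have hcell : ∀ l, YC J t0 c.t1 c.chi c.na c.nb (1 - a) (y l) (X l) := fun l =>
        hZ.cell hJ hym (lchi_ok hkchi) hyc l
      choose gl al hal hlin hna hnb using hcell
      have hchi' : 0 < va c.chi := va_pos hchi
      have h01' : va t0 < va c.t1 := va_lt h01
      have hL5 := four_pieces (Fi_cont y X) (t0 := va t0) (t1 := va c.t1)
        (c := (va c.chi)⁻¹ * Real.exp (-1)) (La := 8 - va (lg (g / 2048) + 4))
        (Lb := 8 - va (lg (g % 2048) + 4)) (G0 := va (rg (g / 2048)))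
        (G1 := va (rg ((3 * (g / 2048) + g % 2048) / 4)))
        (G2 := va (rg ((g / 2048 + g % 2048) / 2)))
        (G3 := va (rg ((g / 2048 + 3 * (g % 2048)) / 4))) (G4 := va (rg (g % 2048)))
        (va_nonneg _) h01' (by positivity) (fun τ h4 h5 => by
          have hτ0 : 0 ≤ τ := (va_nonneg _).trans h4
          have h6 := sum_prod_erase_le_Psi (fun l => AA (y l) (X l) τ) (fun l => (1 + y l) ^ 2)
            (fun l => Real.sqrt_nonneg _) (fun l => by have := hZ.y0 l; positivity)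
            (inv_pos.2 hchi')
          have h7 : ∑ l, Psi (AA (y l) (X l) τ) ((1 + y l) ^ 2 / (va c.chi)⁻¹) ≤
              (va c.t1 - τ) / (va c.t1 - va t0) * (8 - va (lg (g / 2048) + 4)) +
              (τ - va t0) / (va c.t1 - va t0) * (8 - va (lg (g % 2048) + 4)) :=
            (Finset.sum_le_sum fun l _ => by
              have h8 := hlin l τ h4 h5 (fun h0 => absurd h0 hchi.ne')
              rwa [div_inv_eq_mul, mul_comm]).trans
            (sum_lin_le hal h01' h4 h5 ((Finset.sum_le_sum fun l _ => hna l).trans hsa)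
              ((Finset.sum_le_sum fun l _ => hnb l).trans hsb))
          unfold Fi
          exact mul_le_mul_of_nonneg_left (h6.trans (mul_le_mul_of_nonneg_left
            (Real.exp_le_exp.2 h7) (by positivity))) hτ0)
        (by simpa using exp_interp (p := 4) (q := 0) hka hkb rfl le_rfl le_rfl)
        (by simpa using exp_interp (p := 3) (q := 1) hka hkb rfl le_rfl le_rfl)
        (by
          have := exp_interp (p := 2) (q := 2) hka hkb rfl le_rfl le_rfl
          rwa [show (2 * (g / 2048) + 2 * (g % 2048)) / 4 = (g / 2048 + g % 2048) / 2 by omega]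
            at this)
        (by simpa using exp_interp (p := 1) (q := 3) hka hkb rfl le_rfl le_rfl)
        (by simpa using exp_interp (p := 0) (q := 4) hka hkb rfl le_rfl le_rfl)
      have hround := cell_round (ka := g / 2048) (kb := g % 2048) h01 hchi
      refine ⟨te, h1, h01'.le.trans h2, ?_⟩
      rw [va_add] at h3
      have hint : ∫ τ in (va t0)..te, Fi y X τ = (∫ τ in (va t0)..(va c.t1), Fi y X τ) +
          ∫ τ in (va c.t1)..te, Fi y X τ :=
        (intervalIntegral.integral_add_adjacent_intervals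
          ((Fi_cont y X).intervalIntegrable _ _) ((Fi_cont y X).intervalIntegrable _ _)).symm
      rw [hint]
      have hL5' : ∫ τ in (va t0)..(va c.t1), Fi y X τ ≤ _ := hL5
      linarith

/-- the product at `τ = a/(1+a)` without a certificate -/
theorem prod_AA_le {N : ℕ} {a Δ : ℝ} {y X : Fin N → ℝ} (h : FV N a Δ y X) :
    ∏ l, AA (y l) (X l) (a / (1 + a)) ≤ Real.exp (-Δ) := by
  have ha0 := h.a0
  have ha1 := h.a1
  have h1 : ∀ l, AA (y l) (X l) (a / (1 + a)) ≤ (1 + y l) / (1 + a) := by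
    intro l
    have hy := h.y0 l
    have hgl := h.gl l
    unfold AA
    rw [Real.sqrt_le_left (by positivity)]
    have e1 : (1 - a / (1 + a) * (1 + y l)) ^ 2 + 2 * (a / (1 + a)) * X l =
        ((1 - a * y l) ^ 2 + (1 + a) * (2 * a * X l)) / (1 + a) ^ 2 := by
      field_simp
      ring
    rw [e1, div_pow]
    refine div_le_div_of_nonneg_right ?_ (by positivity)
    nlinarith
  refine (Finset.prod_le_prod (fun l _ => Real.sqrt_nonneg _) fun l _ => h1 l).trans (le_of_eq ?_)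
  have h2 : ∀ l, (1 + y l) / (1 + a) = Real.exp (Real.log (1 + y l) - Real.log (1 + a)) := by
    intro l
    have hy := h.y0 l
    rw [← Real.log_div (by linarith) (by linarith), Real.exp_log (by positivity)]
  simp only [h2]
  rw [← Real.exp_sum, Finset.sum_sub_distrib, h.sumlog]
  simp only [Finset.sum_const, Finset.card_univ, Fintype.card_fin, nsmul_eq_mul]
  congr 1
  ring

theorem Psi_zero_log {D : ℝ} (hD : 0 < D) : Psi (√D) 0 = 1 / 2 * Real.log D := by
  rw [Psi_zero (Real.sqrt_nonneg _), Real.log_sqrt hD.le]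
  ring

theorem fcell_def {J : JP} {ymax tF : ℕ} {c : TC} (h : fcell J ymax tF c = true) :
    (tF * (33554432 - J.b1) ≤ (16777216 - J.b1) * 16777216 ∧
      (16777216 - J.b0) * 16777216 ≤ c.t1 * (33554432 - J.b0) ∧ tF ≤ c.t1) ∧
    ycells J tF c.t1 0 0 c.na c.nb ymax 0 c.ys = true := by
  unfold fcell at h
  simp only [Bool.and_eq_true, Nat.ble_eq] at h
  exact h

theorem fcell_sound {J : JP} (hJ : JR J) {ymax N K la D1 kD1 tF gF : ℕ} {c : TC} {a Δ : ℝ}
    {y X : Fin N → ℝ}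
    (h : FV N a Δ y X) (hZ : ZF J ymax a y X) (hym : 0 < ymax)
    (hK : RK J K (∑ l, rho (Nat.beq J.form 3) (1 - a) (y l) (X l)))
    (hla : va la ≤ Real.log (1 + a)) (hD : 0 < kD1 → Δ ≤ va D1)
    (hF : fcell J ymax tF c = true)
    (hva : vchk J N K la D1 kD1 c.na gF = true) (hvb : vchk J N K la D1 kD1 c.nb gF = true) :
    ∏ l, AA (y l) (X l) (a / (1 + a)) ≤ va (rg gF) := by
  obtain ⟨⟨h1, h2, h3⟩, hyc⟩ := fcell_def hF
  have ha0 := h.a0
  have hb := hZ.b
  have ha1 : a ≤ 1 - va J.b0 := by linarith [hZ.b0]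
  have ha2 : 1 - va J.b1 ≤ a := by linarith [hZ.b1]
  obtain ⟨hka, hsa⟩ := vchk_sound hJ hva h ha1 ha2 hK hla hD
  obtain ⟨hkb, hsb⟩ := vchk_sound hJ hvb h ha1 ha2 hK hla hD
  have hcell : ∀ l, YC J tF c.t1 0 c.na c.nb (1 - a) (y l) (X l) := fun l =>
    hZ.cell hJ hym (fun h0 => absurd h0 (lt_irrefl 0)) hyc l
  choose gl al hal hlin hna hnb using hcell
  have hend : a / (1 + a) ≤ va c.t1 := end_le hJ ha0 hZ.b0 h2
  have hstart : va tF ≤ (1 - va J.b1) / (2 - va J.b1) := by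
    have hb1 := hJ.va_b1_lt
    have h4 : (tF : ℝ) * ((33554432 - J.b1 : ℕ) : ℝ) ≤
        ((16777216 - J.b1 : ℕ) : ℝ) * 16777216 := by exact_mod_cast h1
    rw [Nat.cast_sub hJ.b1.le, Nat.cast_sub (by have := hJ.b1; omega)] at h4
    push_cast at h4
    rw [le_div_iff₀ (by linarith)]
    have h5 := div_le_div_of_nonneg_right h4 (by norm_num : (0:ℝ) ≤ 16777216 * 16777216)
    calc _ = _ := ?_
      _ ≤ _ := h5
      _ = _ := ?_
    · unfold va; ring
    · unfold va; ring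
  have hb01 : va J.b0 < va J.b1 := va_lt hJ.b01
  have hb1 := hJ.va_b1_lt
  have hstart2 : (1 - va J.b1) / (2 - va J.b1) ≤ a / (1 + a) := by
    rw [div_le_div_iff₀ (by linarith) (by linarith)]
    nlinarith [hZ.b1]
  have hstrict : va tF < va c.t1 := by
    have h5 : (1 - va J.b1) / (2 - va J.b1) < (1 - va J.b0) / (2 - va J.b0) := by
      rw [div_lt_div_iff₀ (by linarith) (by linarith)]
      nlinarith
    have h6 : (1 - va J.b0) / (2 - va J.b0) ≤ va c.t1 := by
      have h7 := end_le (a := 1 - va J.b0) hJ (by linarith) (by linarith) h2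
      have e : 1 + (1 - va J.b0) = 2 - va J.b0 := by ring
      rwa [e] at h7
    linarith
  have hG : 0 < va (rg gF) := va_pos (rg_pos hka)
  have hlg : 8 - va (lg gF + 4) ≤ Real.log (va (rg gF)) := by
    have h8 := neg_log_rg_le hka
    have h9 := va_add (lg gF) 4
    have h10 := va_nonneg 4
    linarith
  have h7 := L5' (y := y) (X := X) (g := gl) (al := al) (t0 := va tF) (t1 := va c.t1)
    (τ := a / (1 + a)) (Ga := va (rg gF)) (Gb := va (rg gF)) hstrict (hstart.trans hstart2) hend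
    hal hG hG (fun l hDpos => by
      have hpos : 0 < AA (y l) (X l) (a / (1 + a)) := by
        rw [AA_eq]; exact Real.sqrt_pos.2 hDpos
      have h8 := hlin l (a / (1 + a)) (hstart.trans hstart2) hend (fun _ => hpos)
      rw [va_zero, zero_mul, AA_eq, Psi_zero_log hDpos] at h8
      exact h8)
    (((Finset.sum_le_sum fun l _ => hna l).trans hsa).trans hlg)
    (((Finset.sum_le_sum fun l _ => hnb l).trans hsb).trans hlg)
  rwa [max_self] at h7

end Pool.Agent.Lib.MP_172a45_an.LP
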