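import Pool.Agent.Lib.MP_172a45_an.LP.Sound3

set_option autoImplicit false

/-!
# Extended table and the integral over a `τ`-cell by four chords
-/

namespace Pool.Agent.Lib.MP_172a45_an.LP

open Finset Real Pool.Agent.Lib.MP_172a45_an.F

theorem blt_true {k n : ℕ} (h : k < n) : Nat.blt k n = true := by
  rw [Nat.blt_eq]; exact h

theorem blt_false {k n : ℕ} (h : n ≤ k) : Nat.blt k n = false := by
  rw [← Bool.not_eq_true, Nat.blt_eq]; omega

theorem rg_pos {k : ℕ} (_hk : k < 1535) : 0 < rg k := by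
  unfold rg
  rcases Nat.lt_or_ge k 1024 with h | h
  · rw [blt_true h, cond_true]; exact rk_pos h
  · rw [blt_false h, cond_false]
    unfold mu
    omega

theorem neg_log_rg_le {k : ℕ} (hk : k < 1535) : -Real.log (va (rg k)) ≤ va (lg k) - 8 := by
  unfold rg lg
  rcases Nat.lt_or_ge k 1024 with h | h
  · rw [blt_true h, cond_true, cond_true]; exact neg_log_rk_le h
  · rw [blt_false h, cond_false, cond_false]
    have h1 : -Real.log (va (rk 1023)) ≤ va (lk 1023) - 8 := neg_log_rk_le (by norm_num)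
    have h2 : -Real.log (va (rk (k - 511))) ≤ va (lk (k - 511)) - 8 :=
      neg_log_rk_le (by omega)
    have p1 : 0 < va (rk 1023) := va_pos (rk_pos (by norm_num))
    have p2 : 0 < va (rk (k - 511)) := va_pos (rk_pos (by omega))
    have h3 := va_mu (rk 1023) (rk (k - 511))
    have h4 := Real.log_le_log (mul_pos p1 p2) h3
    rw [Real.log_mul p1.ne' p2.ne'] at h4
    have h5 := va_sub (lk 1023 + lk (k - 511)) 134217728
    rw [va_add, show va 134217728 = 8 by norm_num [va]] at h5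
    linarith

theorem exp_le_rg {k : ℕ} (hk : k < 1535) {v : ℝ} (hv : v ≤ 8 - va (lg k)) :
    Real.exp v ≤ va (rg k) := by
  rw [← Real.le_log_iff_exp_le (va_pos (rg_pos hk))]
  have := neg_log_rg_le hk
  linarith

theorem lg_bounds {k : ℕ} (hk : k < 1535) :
    k * 11908177888 + 65536 * 41185090 ≤ 65536 * lg k + 65535 ∧
    65536 * lg k ≤ k * 11908177888 + 65536 * 41185090 + 114688 := by
  unfold lg
  rcases Nat.lt_or_ge k 1024 with h | h
  · rw [blt_true h, cond_true]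
    unfold lk
    omega
  · rw [blt_false h, cond_false]
    obtain ⟨j, rfl⟩ : ∃ j, k = j + 511 := ⟨k - 511, by omega⟩
    rw [Nat.add_sub_cancel]
    unfold lk
    omega

theorem lg_interp {ka kb p q : ℕ} (ha : ka < 1535) (hb : kb < 1535) (hpq : p + q = 4) :
    (p * ka + q * kb) / 4 < 1535 ∧
      4 * lg ((p * ka + q * kb) / 4) ≤ p * (lg ka + 4) + q * (lg kb + 4) := by
  have hp : p ≤ 4 := by omega
  have hm : (p * ka + q * kb) / 4 < 1535 := by
    have h1 : p * ka ≤ p * 1534 := Nat.mul_le_mul_left _ (by omega)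
    have h2 : q * kb ≤ q * 1534 := Nat.mul_le_mul_left _ (by omega)
    have h3 : p * 1534 + q * 1534 = 4 * 1534 := by rw [← Nat.add_mul, hpq]
    omega
  refine ⟨hm, ?_⟩
  have hma := (lg_bounds hm).2
  have h1 := (lg_bounds ha).1
  have h2 := (lg_bounds hb).1
  interval_cases p
  · obtain rfl : q = 4 := by omega
    omega
  · obtain rfl : q = 3 := by omega
    omega
  · obtain rfl : q = 2 := by omega
    omega
  · obtain rfl : q = 1 := by omega
    omega
  · obtain rfl : q = 0 := by omega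
    omega

/-- the value at an interpolated node -/
theorem exp_interp {ka kb p q : ℕ} (ha : ka < 1535) (hb : kb < 1535) (hpq : p + q = 4) {La Lb : ℝ}
    (hLa : La ≤ 8 - va (lg ka + 4)) (hLb : Lb ≤ 8 - va (lg kb + 4)) :
    Real.exp ((p * La + q * Lb) / 4) ≤ va (rg ((p * ka + q * kb) / 4)) := by
  obtain ⟨h1, h2⟩ := lg_interp ha hb hpq
  refine exp_le_rg h1 ?_
  have h3 : (4 : ℝ) * va (lg ((p * ka + q * kb) / 4)) ≤ p * va (lg ka + 4) + q * va (lg kb + 4) := by
    have h4 := va_le h2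
    rw [va_nmul, va_add, va_nmul, va_nmul] at h4
    exact_mod_cast h4
  have h5 := mul_le_mul_of_nonneg_left hLa (Nat.cast_nonneg (α := ℝ) p)
  have h6 := mul_le_mul_of_nonneg_left hLb (Nat.cast_nonneg (α := ℝ) q)
  have h7 : (p : ℝ) + q = 4 := by exact_mod_cast hpq
  have h8 : (8 : ℝ) * p + 8 * q = 32 := by linarith
  linarith

/-- the integrand of `critY` -/
noncomputable def Fi {N : ℕ} (y X : Fin N → ℝ) (τ : ℝ) : ℝ :=
  τ * ∑ k, (1 + y k) ^ 2 * ∏ l ∈ univ.erase k, AA (y l) (X l) τ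

theorem Fi_cont {N : ℕ} (y X : Fin N → ℝ) : Continuous (Fi y X) := by
  unfold Fi AA
  fun_prop

theorem Fi_nonneg {N : ℕ} (y X : Fin N → ℝ) {τ : ℝ} (hτ : 0 ≤ τ) : 0 ≤ Fi y X τ := by
  unfold Fi
  refine mul_nonneg hτ (Finset.sum_nonneg fun k _ => mul_nonneg (sq_nonneg _)
    (Finset.prod_nonneg fun l _ => Real.sqrt_nonneg _))

/-- one piece: an integrand `≤ c τ exp (V τ)`, `V` below a chord -/
theorem piece_le {f : ℝ → ℝ} (hf : Continuous f) {s0 s1 c Va Vb Ga Gb : ℝ} (hs0 : 0 ≤ s0)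
    (h01 : s0 < s1) (hc : 0 ≤ c) (hGa : Real.exp Va ≤ Ga) (hGb : Real.exp Vb ≤ Gb)
    (hV : ∀ τ, s0 ≤ τ → τ ≤ s1 →
      f τ ≤ τ * (c * Real.exp ((s1 - τ) / (s1 - s0) * Va + (τ - s0) / (s1 - s0) * Vb))) :
    ∫ τ in s0..s1, f τ ≤ c * ((s1 - s0) / 6 * ((2 * s0 + s1) * Ga + (s0 + 2 * s1) * Gb)) := by
  have hh : 0 < s1 - s0 := sub_pos.2 h01
  have hpt : ∀ τ ∈ Set.Icc s0 s1, f τ ≤ c / (s1 - s0) *
      ((s1 * Ga - s0 * Gb) * τ + (Gb - Ga) * τ ^ 2) := by
    intro τ hτ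
    have hτ0 : 0 ≤ τ := hs0.trans hτ.1
    have p0 : 0 ≤ (s1 - τ) / (s1 - s0) := div_nonneg (sub_nonneg.2 hτ.2) hh.le
    have p1 : 0 ≤ (τ - s0) / (s1 - s0) := div_nonneg (sub_nonneg.2 hτ.1) hh.le
    have h3 : Real.exp ((s1 - τ) / (s1 - s0) * Va + (τ - s0) / (s1 - s0) * Vb) ≤
        (s1 - τ) / (s1 - s0) * Ga + (τ - s0) / (s1 - s0) * Gb := by
      refine (exp_comb_le p0 p1 ?_).trans
        (add_le_add (mul_le_mul_of_nonneg_left hGa p0) (mul_le_mul_of_nonneg_left hGb p1))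
      field_simp
      ring
    refine (hV τ hτ.1 hτ.2).trans ((mul_le_mul_of_nonneg_left
      (mul_le_mul_of_nonneg_left h3 hc) hτ0).trans (le_of_eq ?_))
    field_simp
    ring
  have hc2 : Continuous fun τ : ℝ => c / (s1 - s0) *
      ((s1 * Ga - s0 * Gb) * τ + (Gb - Ga) * τ ^ 2) := by fun_prop
  have hint := intervalIntegral.integral_mono_on (μ := MeasureTheory.volume) h01.le
    (hf.intervalIntegrable s0 s1) (hc2.intervalIntegrable s0 s1) hpt
  refine hint.trans (le_of_eq ?_)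
  rw [intervalIntegral.integral_const_mul, intervalIntegral.integral_add
    ((by fun_prop : Continuous fun τ : ℝ => (s1 * Ga - s0 * Gb) * τ).intervalIntegrable _ _)
    ((by fun_prop : Continuous fun τ : ℝ => (Gb - Ga) * τ ^ 2).intervalIntegrable _ _),
    intervalIntegral.integral_const_mul, intervalIntegral.integral_const_mul, integral_id,
    integral_pow]
  push_cast
  field_simp
  ring

/-- four pieces -/
theorem four_pieces {f : ℝ → ℝ} (hf : Continuous f) {t0 t1 c La Lb G0 G1 G2 G3 G4 : ℝ}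
    (ht0 : 0 ≤ t0) (h01 : t0 < t1) (hc : 0 ≤ c)
    (hV : ∀ τ, t0 ≤ τ → τ ≤ t1 →
      f τ ≤ τ * (c * Real.exp ((t1 - τ) / (t1 - t0) * La + (τ - t0) / (t1 - t0) * Lb)))
    (h0 : Real.exp La ≤ G0) (h1 : Real.exp ((3 * La + Lb) / 4) ≤ G1)
    (h2 : Real.exp ((2 * La + 2 * Lb) / 4) ≤ G2) (h3 : Real.exp ((La + 3 * Lb) / 4) ≤ G3)
    (h4 : Real.exp Lb ≤ G4) :
    ∫ τ in t0..t1, f τ ≤ c * ((t1 - t0) / 96 * ((11 * t0 + t1) * G0 + 6 * ((3 * t0 + t1) * G1) +
      12 * ((t0 + t1) * G2) + 6 * ((t0 + 3 * t1) * G3) + (t0 + 11 * t1) * G4)) := by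
  have hh : 0 < t1 - t0 := sub_pos.2 h01
  have key : ∀ (x y : ℝ), 0 ≤ x → x < y → y ≤ 4 → ∀ (Va Vb Ga Gb : ℝ),
      Va = ((4 - x) * La + x * Lb) / 4 → Vb = ((4 - y) * La + y * Lb) / 4 →
      Real.exp Va ≤ Ga → Real.exp Vb ≤ Gb →
      ∫ τ in (t0 + x * (t1 - t0) / 4)..(t0 + y * (t1 - t0) / 4), f τ ≤
        c * ((t1 - t0) * (y - x) / 24 * ((2 * (t0 + x * (t1 - t0) / 4) + (t0 + y * (t1 - t0) / 4)) *
          Ga + ((t0 + x * (t1 - t0) / 4) + 2 * (t0 + y * (t1 - t0) / 4)) * Gb)) := by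
    intro x y hx hxy hy Va Vb Ga Gb hVa hVb hGa hGb
    have e0 : t0 + y * (t1 - t0) / 4 - (t0 + x * (t1 - t0) / 4) = (t1 - t0) * (y - x) / 4 := by ring
    have hyx : 0 < y - x := sub_pos.2 hxy
    have hs : 0 ≤ x * (t1 - t0) / 4 := by positivity
    have hlt : t0 + x * (t1 - t0) / 4 < t0 + y * (t1 - t0) / 4 := by
      have : 0 < (t1 - t0) * (y - x) / 4 := by positivity
      linarith
    have := piece_le hf (s0 := t0 + x * (t1 - t0) / 4) (s1 := t0 + y * (t1 - t0) / 4) (c := c)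
      (Va := Va) (Vb := Vb) (by linarith) hlt hc hGa hGb (fun τ h5 h6 => by
        have h7 : τ ≤ t1 := by
          refine h6.trans ?_
          nlinarith
        refine (hV τ (by linarith) h7).trans (le_of_eq ?_)
        congr 3
        rw [e0, hVa, hVb]
        field_simp
        ring)
    refine this.trans (le_of_eq ?_)
    rw [e0]
    ring
  have k1 := key 0 1 le_rfl (by norm_num) (by norm_num) La ((3 * La + Lb) / 4) G0 G1 (by ring)
    (by ring) h0 h1
  have k2 := key 1 2 (by norm_num) (by norm_num) (by norm_num) ((3 * La + Lb) / 4)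
    ((2 * La + 2 * Lb) / 4) G1 G2 (by ring) (by ring) h1 h2
  have k3 := key 2 3 (by norm_num) (by norm_num) (by norm_num) ((2 * La + 2 * Lb) / 4)
    ((La + 3 * Lb) / 4) G2 G3 (by ring) (by ring) h2 h3
  have k4 := key 3 4 (by norm_num) (by norm_num) le_rfl ((La + 3 * Lb) / 4) Lb G3 G4 (by ring)
    (by ring) h3 h4
  have hii : ∀ a b : ℝ, IntervalIntegrable f MeasureTheory.volume a b := fun a b =>
    hf.intervalIntegrable a b
  have es : ∫ τ in t0..t1, f τ = (∫ τ in (t0 + 0 * (t1 - t0) / 4)..(t0 + 1 * (t1 - t0) / 4), f τ) +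
      (∫ τ in (t0 + 1 * (t1 - t0) / 4)..(t0 + 2 * (t1 - t0) / 4), f τ) +
      (∫ τ in (t0 + 2 * (t1 - t0) / 4)..(t0 + 3 * (t1 - t0) / 4), f τ) +
      (∫ τ in (t0 + 3 * (t1 - t0) / 4)..(t0 + 4 * (t1 - t0) / 4), f τ) := by
    rw [intervalIntegral.integral_add_adjacent_intervals (hii _ _) (hii _ _),
      intervalIntegral.integral_add_adjacent_intervals (hii _ _) (hii _ _),
      intervalIntegral.integral_add_adjacent_intervals (hii _ _) (hii _ _)]
    congr 1 <;> ring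
  rw [es]
  refine (add_le_add (add_le_add (add_le_add k1 k2) k3) k4).trans (le_of_eq ?_)
  ring

end Pool.Agent.Lib.MP_172a45_an.LP
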