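import Mathlib
import Pool.Agent.Lib.MP_172a45_an.LP.TabD

set_option autoImplicit false

/-!
# Table of powers of `2^(1/64)`: the facts
-/

namespace Pool.Agent.Lib.MP_172a45_an.LP

theorem tab_ok : (List.range 1024).all
    (fun k => decide (16777216 ^ 64 * 2 ^ 512 ≤ (rk k) ^ 64 * 2 ^ k)) = true := by
  decide +kernel

theorem rk_pow {k : ℕ} (hk : k < 1024) : 16777216 ^ 64 * 2 ^ 512 ≤ (rk k) ^ 64 * 2 ^ k := by
  exact of_decide_eq_true (List.all_eq_true.1 tab_ok k (List.mem_range.2 hk))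

theorem rk_pos {k : ℕ} (hk : k < 1024) : 0 < rk k := by
  rcases Nat.eq_zero_or_pos (rk k) with h | h
  · have := rk_pow hk
    rw [h] at this
    norm_num at this
  · exact h

/-- `-log r ≤ (k-512) log 2 / 64` for the table entry `r = rk k / 2^24` -/
theorem neg_log_rk {k : ℕ} (hk : k < 1024) :
    -Real.log ((rk k : ℝ) / 16777216) ≤ ((k : ℝ) - 512) * Real.log 2 / 64 := by
  have h := rk_pow hk
  have hp : (0 : ℝ) < rk k := by exact_mod_cast rk_pos hk
  have h1 : ((16777216 : ℝ) ^ 64 * 2 ^ 512) ≤ (rk k : ℝ) ^ 64 * 2 ^ k := by exact_mod_cast h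
  have h2 := Real.log_le_log (by positivity) h1
  rw [Real.log_mul (by positivity) (by positivity), Real.log_mul (by positivity) (by positivity),
    Real.log_pow, Real.log_pow, Real.log_pow, Real.log_pow] at h2
  rw [Real.log_div hp.ne' (by norm_num)]
  push_cast at h2
  linarith

theorem lk_ge {k : ℕ} (hk' : k < 1024) : 8 + ((k : ℝ) - 512) * Real.log 2 / 64 ≤ (lk k : ℝ) / 16777216 := by
  have h1 := Real.log_two_gt_d9
  have h2 := Real.log_two_lt_d9
  have h3 : (k : ℝ) * 11908177888 / 65536 - 1 + 41185090 ≤ (lk k : ℝ) := by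
    unfold lk
    have h4 := Nat.lt_div_mul_add (a := k * 11908177888) (b := 65536) (by norm_num)
    have h5 : ((k * 11908177888 : ℕ) : ℝ) <
        ((k * 11908177888 / 65536 : ℕ) : ℝ) * 65536 + 65536 := by exact_mod_cast h4
    push_cast at h5 ⊢
    linarith
  rw [le_div_iff₀ (by norm_num)]
  have hk : (0 : ℝ) ≤ k := Nat.cast_nonneg k
  have hk2 : (k : ℝ) ≤ 1023 := by exact_mod_cast Nat.lt_succ_iff.1 hk'
  rcases le_total (512 : ℝ) k with h5 | h5
  · have h6 := mul_le_mul_of_nonneg_left h2.le (sub_nonneg.2 h5)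
    linarith
  · have h6 := mul_le_mul_of_nonneg_left h1.le (sub_nonneg.2 h5)
    linarith

/-- the only fact about the table that is used: `-log r ≤ lk k / 2^24 - 8` -/
theorem neg_log_rk_le {k : ℕ} (hk : k < 1024) :
    -Real.log ((rk k : ℝ) / 16777216) ≤ (lk k : ℝ) / 16777216 - 8 := by
  have h1 := neg_log_rk hk
  have h2 := lk_ge hk
  linarith

end Pool.Agent.Lib.MP_172a45_an.LP
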